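import Pool.Agent.P.MP_832dec_an.Sharp.Base

set_option autoImplicit false

open MeasureTheory Set Metric Filter Topology ComplexConjugate Real

namespace Pool.Agent.P.MP_832dec_an

/-- the explicit normal in a chart -/
noncomputable def rsArea_nu (p e : ℂ) (he : ‖e‖ = 1) (ψ : ℝ → ℝ) (w : ℂ) : ℂ :=
  e * (Complex.I - (deriv ψ ((a3_mot p e he).symm w).re : ℝ)) /
    (√(1 + deriv ψ ((a3_mot p e he).symm w).re ^ 2) : ℝ)

theorem rsArea_re (ψ : ℝ → ℝ) (x : ℝ) : (graphMap ψ x).re = x := by simp [graphMap]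

theorem rsArea_rho (ψ : ℝ → ℝ) (x : ℝ) : 0 < √(1 + deriv ψ x ^ 2) :=
  Real.sqrt_pos.2 (by positivity)

theorem rsArea_chart {Ω : Set ℂ} {ν : ℂ → ℂ} (hG : GG Ω (bdry Ω) ν) {p e : ℂ} {r : ℝ}
    (he : ‖e‖ = 1) {K : NNReal} {ψ : ℝ → ℝ} (hψ : LipschitzWith K ψ)
    (h : ∀ z : ℂ, ‖z‖ < r → (p + e * z ∈ Ω ↔ z.im < ψ z.re)) :
    a3_mot p e he ⁻¹' frontier Ω ∩ ball 0 r = range (graphMap ψ) ∩ ball 0 r ∧
      ∀ᵐ z ∂(bdry Ω), z ∈ ball p r → ν z - rsArea_nu p e he ψ z = 0 := by
  have := hG.fin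
  set T := a3_mot p e he with hT
  set D : Set ℂ := {z : ℂ | z.im < ψ z.re} with hD
  set Γ : Set ℂ := range (graphMap ψ) with hΓ
  have hTa : ∀ z, T z = p + e * z := a3_mot_apply p e he
  have hT0 : T 0 = p := by simp [hTa]
  have hball : T ⁻¹' ball p r = ball 0 r := by
    rw [← hT0]
    exact T.isometry.preimage_ball 0 r
  have hemb : MeasurableEmbedding T := T.toHomeomorph.measurableEmbedding
  have hΩ : T ⁻¹' Ω ∩ ball 0 r = D ∩ ball 0 r := by
    ext z
    simp only [mem_inter_iff, mem_preimage, mem_ball_zero_iff, hTa]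
    exact ⟨fun hz => ⟨(h z hz.2).1 hz.1, hz.2⟩, fun hz => ⟨(h z hz.2).2 hz.1, hz.2⟩⟩
  have hfr : T ⁻¹' frontier Ω ∩ ball 0 r = Γ ∩ ball 0 r := by
    have h1 : T ⁻¹' frontier Ω = frontier (T ⁻¹' Ω) := T.toHomeomorph.preimage_frontier Ω
    rw [h1, ← frontier_inter_open_inter isOpen_ball, hΩ, frontier_inter_open_inter isOpen_ball,
      hD, a3_frontier hψ.continuous]
  have hee : e * conj e = 1 := by
    rw [Complex.mul_conj, Complex.normSq_eq_norm_sq, he]
    simp
  have hH := T.measurePreserving_hausdorffMeasure 1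
  have hm : Measurable (rsArea_nu p e he ψ) := by
    have h1 : Measurable fun w => deriv ψ (T.symm w).re :=
      (measurable_deriv ψ).comp (Complex.measurable_re.comp T.symm.continuous.measurable)
    unfold rsArea_nu
    fun_prop
  have hn : ∀ w, ‖rsArea_nu p e he ψ w‖ = 1 := fun w => by
    rw [rsArea_nu, norm_div, norm_mul, he, one_mul, a3_norm, Complex.norm_real, Real.norm_eq_abs,
      abs_of_pos (rsArea_rho _ _), div_self (rsArea_rho _ _).ne']
  have hgg : ∀ f : ℂ → ℂ, ContDiff ℝ 1 f → HasCompactSupport f → tsupport f ⊆ ball p r →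
      ∫ z in Ω, dbar f z = ∫ z, f z * rsArea_nu p e he ψ z ∂(bdry Ω) := by
    intro f hf hc hs
    have hF : ContDiff ℝ 1 fun w => f (p + e * w) := by fun_prop
    have hFc : HasCompactSupport fun w => f (p + e * w) := hc.comp_homeomorph T.toHomeomorph
    have hout : ∀ z, z ∉ ball (0 : ℂ) r → T z ∉ tsupport f := by
      intro z hz hz'
      apply hz
      rw [← hball]
      exact hs hz'
    have key : ∀ (μ : Measure ℂ) (g : ℂ → ℂ) (A B : Set ℂ), (∀ z, z ∉ ball (0 : ℂ) r → g z = 0) →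
        A ∩ ball 0 r = B ∩ ball 0 r → ∫ z in A, g z ∂μ = ∫ z in B, g z ∂μ := by
      intro μ g A B hg hAB
      have h1 : ∀ C : Set ℂ, ∫ z in C, g z ∂μ = ∫ z in C ∩ ball 0 r, g z ∂μ := by
        intro C
        rw [inter_comm, ← Measure.restrict_restrict measurableSet_ball,
          setIntegral_eq_integral_of_forall_compl_eq_zero hg]
      rw [h1 A, h1 B, hAB]
    rw [← (a3_mot_vol p e he).setIntegral_preimage_emb hemb, bdry,
      ← hH.setIntegral_preimage_emb hemb,
      key volume _ _ _ (fun z hz => a3_dbar_eq_zero (hout z hz)) hΩ,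
      key _ _ _ _ (fun z hz => by rw [image_eq_zero_of_notMem_tsupport (hout z hz), zero_mul]) hfr,
      a3_graph_integral hψ]
    have h1 : ∀ z, dbar f (T z) = e * dbar (fun w => f (p + e * w)) z := by
      intro z
      rw [dbar_comp_affine p e z (hf.differentiable one_ne_zero _), ← mul_assoc, hee, one_mul, hTa]
    simp only [h1]
    rw [integral_const_mul, subgraph_gg hψ hF hFc, ← integral_const_mul]
    congr 1
    funext x
    have h4 : ((√(1 + deriv ψ x ^ 2) : ℝ) : ℂ) ≠ 0 := by exact_mod_cast (rsArea_rho ψ x).ne'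
    rw [rsArea_nu, ← hT, T.symm_apply_apply, rsArea_re, hTa, graphMap]
    field_simp
  refine ⟨hfr, isOpen_ball.ae_eq_zero_of_integral_contDiff_smul_eq_zero
    (f := fun z => ν z - rsArea_nu p e he ψ z) ?_ ?_⟩
  · refine (Integrable.locallyIntegrable ?_).locallyIntegrableOn _
    refine Integrable.of_bound (hG.meas.sub hm).aestronglyMeasurable 2
      (Eventually.of_forall fun z => ?_)
    refine (norm_sub_le _ _).trans ?_
    rw [hG.unit, hn]; norm_num
  · intro g hg hgc hgU
    have hg1 : ContDiff ℝ 1 fun z => (g z : ℂ) :=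
      Complex.ofRealCLM.contDiff.comp (hg.of_le (by exact_mod_cast le_top))
    have hc1 : HasCompactSupport fun z => (g z : ℂ) :=
      hgc.comp_left (g := fun x : ℝ => (x : ℂ)) (by simp)
    have hs1 : tsupport (fun z => (g z : ℂ)) ⊆ tsupport g :=
      tsupport_comp_subset (g := fun x : ℝ => (x : ℂ)) (by simp) g
    simp only [Complex.real_smul, mul_sub]
    rw [integral_sub (a4_integrable hg1.continuous hc1 hG.meas hG.unit)
      (a4_integrable hg1.continuous hc1 hm hn), ← hG.gg _ hg1,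
      ← hgg _ hg1 hc1 (hs1.trans hgU), sub_self]

/-- the one-dimensional area inequality for the square of a Lipschitz function -/
theorem rsArea_one {n k' : ℝ → ℝ} {C : NNReal} (hn : LipschitzWith C n) {S G : Set ℝ}
    (hS : MeasurableSet S) (hG : MeasurableSet G) (hae : ∀ᵐ x, x ∈ G)
    (hd : ∀ x ∈ G, HasDerivAt (fun x => n x ^ 2) (k' x) x) :
    volume ((fun x => n x ^ 2) '' S) ≤ ∫⁻ x in S, ENNReal.ofReal |k' x| := by
  have h1 : volume ((fun x => n x ^ 2) '' (S \ G)) = 0 := by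
    have h2 : volume (n '' (S \ G)) = 0 := by
      have h3 := hn.hausdorffMeasure_image_le (d := 1) zero_le_one (S \ G)
      have h4 : volume (S \ G) = 0 := measure_mono_null (fun x hx => hx.2) (ae_iff.1 hae)
      rw [hausdorffMeasure_real, h4, mul_zero] at h3
      exact nonpos_iff_eq_zero.1 h3
    have h3 := addHaar_image_eq_zero_of_differentiableOn_of_addHaar_eq_zero volume
      (f := fun y : ℝ => y ^ 2) (by fun_prop) h2
    rwa [image_image] at h3
  have h2 := addHaar_image_le_lintegral_abs_det_fderiv volume (hS.inter hG)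
    (f := fun x => n x ^ 2) (f' := fun x => ContinuousLinearMap.toSpanSingleton ℝ (k' x))
    fun x hx => (hd x hx.2).hasFDerivAt.hasFDerivWithinAt
  simp only [ContinuousLinearMap.det_toSpanSingleton] at h2
  rw [← inter_union_sdiff S G, image_union]
  refine (measure_union_le _ _).trans ?_
  rw [h1, add_zero]
  exact h2.trans (lintegral_mono_set subset_union_left)

theorem rsArea_local {Ω : Set ℂ} {ν : ℂ → ℂ} (hG : GG Ω (bdry Ω) ν) {p e : ℂ} {r : ℝ}
    (he : ‖e‖ = 1) {K : NNReal} {ψ : ℝ → ℝ} (hψ : LipschitzWith K ψ)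
    (h : ∀ z : ℂ, ‖z‖ < r → (p + e * z ∈ Ω ↔ z.im < ψ z.re)) (q : ℂ) {A : Set ℂ}
    (hA : MeasurableSet A) (hAU : A ⊆ ball p r) :
    volume ((fun z : ℂ => ‖z - q‖ ^ 2) '' (A ∩ frontier Ω)) ≤
      ∫⁻ z in A, ENNReal.ofReal (2 * |(conj (z - q) * ν z).im|) ∂(bdry Ω) := by
  obtain ⟨hfr, hν⟩ := rsArea_chart hG he hψ h
  set T := a3_mot p e he with hT
  have hTa : ∀ z, T z = p + e * z := a3_mot_apply p e he
  have hT0 : T 0 = p := by simp [hTa]
  have hball : T ⁻¹' ball p r = ball 0 r := by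
    rw [← hT0]
    exact T.isometry.preimage_ball 0 r
  have hemb : MeasurableEmbedding T := T.toHomeomorph.measurableEmbedding
  have hTA : MeasurableSet (T ⁻¹' A) := hemb.measurable hA
  have hset : T ⁻¹' (A ∩ frontier Ω) = T ⁻¹' A ∩ range (graphMap ψ) := by
    have h1 : T ⁻¹' A ⊆ ball 0 r := hball ▸ preimage_mono hAU
    rw [preimage_inter, ← inter_eq_left.2 h1, inter_assoc, inter_assoc, inter_comm (ball _ _), hfr,
      inter_comm (ball _ _)]
  set S : Set ℝ := graphMap ψ ⁻¹' (T ⁻¹' A) with hS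
  have hSm : MeasurableSet S := (a1_emb hψ).measurable hTA
  set k' : ℝ → ℝ := fun x => 2 * inner ℝ (T (graphMap ψ x) - q)
    (e * (1 + (deriv ψ x : ℝ) * Complex.I)) with hk'
  have hlip : LipschitzWith (1 * (1 * (1 + K) + 0)) fun x => ‖T (graphMap ψ x) - q‖ :=
    lipschitzWith_one_norm.comp ((T.isometry.lipschitz.comp (a3_lip hψ)).sub
      (LipschitzWith.const q))
  have h1 := rsArea_one (k' := k') hlip hSm (measurableSet_of_differentiableAt ℝ ψ)
    hψ.ae_differentiableAt fun x hx => by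
      have h2 : HasDerivAt (fun x : ℝ => T (graphMap ψ x) - q)
          (e * (1 + (deriv ψ x : ℝ) * Complex.I)) x := by
        simp only [hTa, graphMap]
        exact ((((hasDerivAt_id x).ofReal_comp.add
          (hx.hasDerivAt.ofReal_comp.mul_const Complex.I)).const_mul e).const_add p).sub_const q
      exact h2.norm_sq
  have h2 : (fun z : ℂ => ‖z - q‖ ^ 2) '' (A ∩ frontier Ω) =
      (fun x => ‖T (graphMap ψ x) - q‖ ^ 2) '' S := by
    rw [← image_preimage_eq (A ∩ frontier Ω) T.surjective, hset, ← image_preimage_eq_inter_range,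
      image_image, image_image]
  have hρm : Measurable fun x => ENNReal.ofReal √(1 + deriv ψ x ^ 2) := by
    have := measurable_deriv ψ
    fun_prop
  have h3 : ∫⁻ z in A, ENNReal.ofReal (2 * |(conj (z - q) * ν z).im|) ∂(bdry Ω) =
      ∫⁻ z in A, ENNReal.ofReal (2 * |(conj (z - q) * rsArea_nu p e he ψ z).im|) ∂(bdry Ω) := by
    refine setLIntegral_congr_fun_ae hA ?_
    filter_upwards [hν] with z hz hzA
    rw [sub_eq_zero.1 (hz (hAU hzA))]
  rw [h2, h3, bdry, Measure.restrict_restrict hA,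
    ← (T.measurePreserving_hausdorffMeasure 1).setLIntegral_comp_preimage_emb hemb, hset,
    ← Measure.restrict_restrict hTA, graph_measure hψ, (a1_emb hψ).restrict_map,
    (a1_emb hψ).lintegral_map, ← hS, setLIntegral_withDensity_eq_setLIntegral_mul_non_measurable
      _ hρm _ hSm (Eventually.of_forall fun x => ENNReal.ofReal_lt_top)]
  refine h1.trans (le_of_eq (lintegral_congr fun x => ?_))
  have h4 : ((√(1 + deriv ψ x ^ 2) : ℝ) : ℂ) ≠ 0 := by exact_mod_cast (rsArea_rho ψ x).ne'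
  rw [Pi.mul_apply, ← ENNReal.ofReal_mul (Real.sqrt_nonneg _), rsArea_nu, ← hT,
    T.symm_apply_apply, rsArea_re, ← mul_div_assoc, Complex.div_ofReal_im, abs_div,
    abs_of_pos (rsArea_rho ψ x), hk']
  congr 1
  have h5 := (rsArea_rho ψ x).ne'
  simp only [Complex.inner]
  field_simp
  rw [abs_mul, abs_two]
  congr 2
  generalize T (graphMap ψ x) - q = y
  simp
  ring

/-- Area inequality for `z ↦ ‖z - q‖ ^ 2` on the boundary. -/
theorem area_ineq {Ω : Set ℂ} {ν : ℂ → ℂ} (hL : LipschitzBoundary Ω) (h : GG Ω (bdry Ω) ν)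
    (q : ℂ) {A : Set ℂ} (hA : MeasurableSet A) :
    volume ((fun z : ℂ => ‖z - q‖ ^ 2) '' (A ∩ frontier Ω)) ≤
      ∫⁻ z in A, ENNReal.ofReal (2 * |(conj (z - q) * ν z).im|) ∂(bdry Ω) := by
  have hc : IsCompact (frontier Ω) :=
    h.bdd.isCompact_closure.of_isClosed_subset isClosed_frontier frontier_subset_closure
  have key : ∃ W, frontier Ω ⊆ W ∧ IsOpen W ∧ ∀ B ⊆ W, MeasurableSet B →
      volume ((fun z : ℂ => ‖z - q‖ ^ 2) '' (B ∩ frontier Ω)) ≤
        ∫⁻ z in B, ENNReal.ofReal (2 * |(conj (z - q) * ν z).im|) ∂(bdry Ω) := by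
    refine hc.induction_on (p := fun V => ∃ W, V ⊆ W ∧ IsOpen W ∧ ∀ B ⊆ W, MeasurableSet B →
      volume ((fun z : ℂ => ‖z - q‖ ^ 2) '' (B ∩ frontier Ω)) ≤
        ∫⁻ z in B, ENNReal.ofReal (2 * |(conj (z - q) * ν z).im|) ∂(bdry Ω)) ?_ ?_ ?_ ?_
    · refine ⟨∅, subset_rfl, isOpen_empty, fun B hB _ => ?_⟩
      simp [subset_empty_iff.1 hB]
    · rintro V V' hV ⟨W, h1, h2⟩
      exact ⟨W, hV.trans h1, h2⟩
    · rintro V V' ⟨W, h1, h2, h3⟩ ⟨W', h1', h2', h3'⟩
      refine ⟨W ∪ W', union_subset_union h1 h1', h2.union h2', fun B hB hBm => ?_⟩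
      rw [← lintegral_inter_add_sdiff _ B h2.measurableSet]
      conv_lhs => rw [← inter_union_sdiff B W, union_inter_distrib_right, image_union]
      exact (measure_union_le _ _).trans (add_le_add
        (h3 _ inter_subset_right (hBm.inter h2.measurableSet))
        (h3' _ (fun z hz => (hB hz.1).resolve_left hz.2) (hBm.diff h2.measurableSet)))
    · intro p hp
      obtain ⟨r, hr, e, he, K, ψ, hψ, hch⟩ := hL p hp
      exact ⟨ball p r, mem_nhdsWithin_of_mem_nhds (ball_mem_nhds p hr), ball p r, subset_rfl,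
        isOpen_ball, fun B hB hBm => rsArea_local h he hψ hch q hBm hB⟩
  obtain ⟨W, h1, h2, h3⟩ := key
  have h4 : A ∩ frontier Ω = A ∩ W ∩ frontier Ω := by rw [inter_assoc, inter_eq_right.2 h1]
  rw [h4]
  exact (h3 _ inter_subset_right (hA.inter h2.measurableSet)).trans
    (lintegral_mono_set inter_subset_left)

end Pool.Agent.P.MP_832dec_an
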