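import Pool.Agent.P.MP_832dec_an.Sharp.Base

set_option autoImplicit false

open MeasureTheory Set Metric Filter Topology ComplexConjugate Real

namespace Pool.Agent.P.MP_832dec_an

/-- Weak maximum principle. Hints: copy the proof of `weak_nonneg` (Weak.lean): test with
`F (U n) ≤ 0` (`b_F`), the limit gives `β * ∫ g * F g ≤ η * ∫ F u ≤ 0` with `g * F g ≥ 0`. -/
theorem weak_max {Ω : Set ℂ} {ν G : ℂ → ℂ} {β η : ℝ} {u g : ℂ → ℝ} (hβ : 0 < β) (hη : 0 ≤ η)
    (h : GG Ω (bdry Ω) ν) (hT : HasTrace Ω u G g)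
    (hE : ∀ φ : ℂ → ℝ, ContDiff ℝ 1 φ → (∀ z, φ z ≤ 0) →
      (∫ z in Ω, inner ℝ (G z) (gradient φ z)) + β * ∫ z, g z * φ z ∂(bdry Ω) ≤
        η * ∫ z in Ω, φ z) :
    (∀ᵐ z ∂(bdry Ω), 0 ≤ g z) ∧ (0 < η → ∀ᵐ z ∂(volume.restrict Ω), 0 ≤ u z) := by
  obtain ⟨F, f, hd, hc, f0, f1, -, F0, F1, FL, FC⟩ := b_F
  obtain ⟨hu, hG, hg, U, hU, t1, t2, t3⟩ := hT
  have Fc := FC.continuous
  have Fa : ∀ s, |F s| ≤ |s| := fun s => by simpa [F0 0 le_rfl] using FL s 0
  have Fn : ∀ s, F s ≤ 0 := fun s => (le_or_gt 0 s).elim (fun a => (F0 s a).le) fun a => (F1 s a).le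
  have Uc : ∀ n, Continuous (U n) := fun n => (hU n).continuous
  have Gc : ∀ n, Continuous (gradient (U n)) := fun n => b_grad_cont (hU n)
  have one : MemLp (fun _ : ℂ => (1 : ℝ)) 2 (volume.restrict Ω) := b_memΩ h continuous_const
  have iu : Integrable (fun z => F (u z)) (volume.restrict Ω) :=
    b_int hu one (Fc.comp_aestronglyMeasurable hu.1) (.of_forall fun z => by simpa using Fa _)
  have ig : Integrable (fun z => g z * F (g z)) (bdry Ω) :=
    b_int hg hg (hg.1.mul (Fc.comp_aestronglyMeasurable hg.1)) (.of_forall fun z => by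
      rw [norm_mul]; exact mul_le_mul_of_nonneg_left (Fa _) (norm_nonneg _))
  have l1 := b_lim (h := fun n z => F (U n z)) (fun n => (b_memΩ h (Uc n)).sub hu) t1 one
    (fun n => (Fc.comp (Uc n)).aestronglyMeasurable) iu
    (fun n => .of_forall fun z => by simpa using FL _ _)
  have l2 := b_lim (h := fun n z => g z * F (U n z)) (fun n => (b_memμ h (Uc n)).sub hg) t3 hg
    (fun n => hg.1.mul (Fc.comp (Uc n)).aestronglyMeasurable) ig
    (fun n => .of_forall fun z => by
      rw [← mul_sub, norm_mul, mul_comm]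
      exact mul_le_mul_of_nonneg_right (FL _ _) (norm_nonneg _))
  have m3 : ∀ n, AEStronglyMeasurable (fun z => f (U n z) * inner ℝ (G z) (gradient (U n) z - G z))
      (volume.restrict Ω) := fun n =>
    (hc.comp (Uc n)).aestronglyMeasurable.mul (hG.1.inner ((Gc n).aestronglyMeasurable.sub hG.1))
  have b3 : ∀ n z, ‖f (U n z) * inner ℝ (G z) (gradient (U n) z - G z)‖ ≤
      ‖(gradient (U n) - G) z‖ * ‖G z‖ := fun n z => by
    rw [norm_mul, Real.norm_of_nonneg (f0 _), mul_comm ‖_‖]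
    exact (mul_le_of_le_one_left (norm_nonneg _) (f1 _)).trans (norm_inner_le_norm _ _)
  have l3 := b_lim (k := fun _ => (0 : ℝ)) (fun n => (b_memΩ h (Gc n)).sub hG) t2 hG m3
    (integrable_zero _ _ _) (fun n => .of_forall fun z => by simpa only [sub_zero] using b3 n z)
  have key : ∀ n, (∫ z in Ω, f (U n z) * inner ℝ (G z) (gradient (U n) z - G z)) +
      β * ∫ z, g z * F (U n z) ∂(bdry Ω) ≤ η * ∫ z in Ω, F (U n z) := by
    intro n
    have c1 : ContDiff ℝ 1 fun z => F (U n z) := FC.comp (hU n)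
    refine le_trans ?_ (hE _ c1 fun z => Fn _)
    refine add_le_add_left (integral_mono
      (b_int ((b_memΩ h (Gc n)).sub hG) hG (m3 n) (.of_forall (b3 n)))
      (b_int hG (b_memΩ h (b_grad_cont c1)) (hG.1.inner (b_grad_cont c1).aestronglyMeasurable)
        (.of_forall fun z => norm_inner_le_norm _ _)) fun z => ?_) _
    simp only [b_grad_comp ((hU n).differentiable one_ne_zero z) (hd _), inner_sub_right]
    rw [← Complex.real_smul, inner_smul_right]
    exact mul_le_mul_of_nonneg_left (by linarith [real_inner_self_nonneg (x := G z)]) (f0 _)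
  have h1 := le_of_tendsto_of_tendsto' (l3.add (l2.const_mul β)) (l1.const_mul η) key
  simp only [integral_zero, zero_add] at h1
  have p2 : ∀ z, 0 ≤ g z * F (g z) := fun z =>
    (le_or_gt 0 (g z)).elim (fun a => by simp [F0 _ a])
      fun a => mul_nonneg_of_nonpos_of_nonpos a.le (Fn _)
  have h2 : 0 ≤ ∫ z, g z * F (g z) ∂(bdry Ω) := integral_nonneg p2
  have h4 : ∫ z in Ω, F (u z) ≤ 0 := integral_nonpos fun z => Fn _
  have h5 := mul_nonpos_of_nonneg_of_nonpos hη h4
  have h6 := mul_nonneg hβ.le h2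
  refine ⟨?_, fun hη' => ?_⟩
  · have h3 : ∫ z, g z * F (g z) ∂(bdry Ω) = 0 :=
      le_antisymm (le_of_mul_le_mul_left (by linarith) hβ) h2
    rw [integral_eq_zero_iff_of_nonneg p2 ig] at h3
    filter_upwards [h3] with z hz
    by_contra hc
    exact (mul_pos_of_neg_of_neg (not_le.1 hc) (F1 _ (not_le.1 hc))).ne' hz
  · have h3 : ∫ z in Ω, -F (u z) = 0 := by
      refine le_antisymm ?_ (integral_nonneg fun z => neg_nonneg.2 (Fn _))
      rw [integral_neg, neg_nonpos]
      exact le_of_mul_le_mul_left (by linarith) hη'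
    rw [integral_eq_zero_iff_of_nonneg (fun z => neg_nonneg.2 (Fn _)) iu.neg] at h3
    filter_upwards [h3] with z hz
    by_contra hc
    exact (F1 _ (not_le.1 hc)).ne (neg_eq_zero.1 hz)

theorem rsMaxP_lim {E F : Type*} [NormedAddCommGroup E] [NormedAddCommGroup F] {μ : Measure ℂ}
    {a : ℕ → ℂ → E} {b : ℕ → ℂ → F} (s : ℝ)
    (ha : Tendsto (fun n => eLpNorm (a n) 2 μ) atTop (𝓝 0))
    (hb : ∀ n z, ‖b n z‖ ≤ s * ‖a n z‖) :
    Tendsto (fun n => eLpNorm (b n) 2 μ) atTop (𝓝 0) := by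
  have h1 := ENNReal.Tendsto.const_mul (a := ENNReal.ofReal s) ha (Or.inr ENNReal.ofReal_ne_top)
  rw [mul_zero] at h1
  exact tendsto_of_tendsto_of_tendsto_of_le_of_le tendsto_const_nhds h1 (fun _ => zero_le)
    fun n => eLpNorm_le_mul_eLpNorm_of_ae_le_mul (.of_forall (hb n)) 2

theorem rsMaxP_cd (p : ℂ) (A B M : ℝ) : ContDiff ℝ 1 (quad p A B M) := by
  have h1 : ContDiff ℝ 1 fun z : ℂ => (z - p).re :=
    Complex.reCLM.contDiff.comp (contDiff_id.sub contDiff_const)
  have h2 : ContDiff ℝ 1 fun z : ℂ => (z - p).im :=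
    Complex.imCLM.contDiff.comp (contDiff_id.sub contDiff_const)
  exact (contDiff_const.sub (contDiff_const.mul (h1.pow 2))).sub (contDiff_const.mul (h2.pow 2))

/-- the conjugate of the gradient of the barrier -/
noncomputable def rsMaxP_L (A B : ℝ) : ℂ →L[ℝ] ℂ :=
  (-2 * A : ℂ) • (Complex.ofRealCLM ∘L Complex.reCLM) +
    (2 * B * Complex.I : ℂ) • (Complex.ofRealCLM ∘L Complex.imCLM)

theorem rsMaxP_grad (p : ℂ) (A B M : ℝ) (z : ℂ) :
    gradient (quad p A B M) z = conj (rsMaxP_L A B (z - p)) := by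
  have h0 := (hasFDerivAt_id (𝕜 := ℝ) z).sub_const p
  have h1 := Complex.reCLM.hasFDerivAt.comp z h0
  have h2 := Complex.imCLM.hasFDerivAt.comp z h0
  have h3 := (((h1.pow 2).const_mul A).const_sub M).sub ((h2.pow 2).const_mul B)
  refine HasGradientAt.gradient (hasGradientAt_iff_hasFDerivAt.2 (h3.congr_fderiv ?_))
  ext w
  simp [Complex.inner, rsMaxP_L]
  ring

/-- the weak equation of the barrier -/
theorem rsMaxP_gg {Ω : Set ℂ} {μ : Measure ℂ} {ν : ℂ → ℂ} (h : GG Ω μ ν) (p : ℂ) (A B M : ℝ)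
    {φ : ℂ → ℝ} (hφ : ContDiff ℝ 1 φ) :
    ∫ z in Ω, inner ℝ (gradient (quad p A B M) z) (gradient φ z) =
      (2 * A + 2 * B) * (∫ z in Ω, φ z) +
        ∫ z, φ z * (-(2 * A * (z - p).re * (ν z).re) - 2 * B * (z - p).im * (ν z).im) ∂μ := by
  have c1 : ContDiff ℝ 1 fun z => (φ z : ℂ) := Complex.ofRealCLM.contDiff.comp hφ
  have c2 : ContDiff ℝ 1 fun z => rsMaxP_L A B (z - p) :=
    (rsMaxP_L A B).contDiff.comp (contDiff_id.sub contDiff_const)
  have d2 : ∀ z, dbar (fun z => rsMaxP_L A B (z - p)) z = -(2 * A + 2 * B) := fun z => by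
    refine (dbar_of_hasFDerivAt ((rsMaxP_L A B).hasFDerivAt.comp z
      ((hasFDerivAt_id (𝕜 := ℝ) z).sub_const p))).trans ?_
    simp [rsMaxP_L]
    linear_combination (2 * B : ℂ) * Complex.I_mul_I
  have h1 := h.gg _ (c1.mul c2)
  have i1 := h.integrableOn (continuous_dbar (c1.mul c2))
  have i2 : Integrable (fun z => (φ z : ℂ) * rsMaxP_L A B (z - p) * ν z) μ :=
    h.integrable₂ (F := fun q => (φ q.1 : ℂ) * rsMaxP_L A B (q.1 - p) * q.2)
      (((c1.mul c2).continuous.comp continuous_fst).mul continuous_snd)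
  have a1 := integral_re i1
  have a2 := integral_re i2
  simp only [RCLike.re_to_complex] at a1 a2
  rw [h1, ← a2] at a1
  have e1 : ∀ z, (dbar (fun z => (φ z : ℂ) * rsMaxP_L A B (z - p)) z).re =
      inner ℝ (gradient (quad p A B M) z) (gradient φ z) - (2 * A + 2 * B) * φ z := fun z => by
    rw [dbar_mul (c1.differentiable one_ne_zero z) (c2.differentiable one_ne_zero z),
      dbar_ofReal (hφ.differentiable one_ne_zero z), d2, rsMaxP_grad, Complex.inner]
    simp
    ring
  have e2 : ∀ z, ((φ z : ℂ) * rsMaxP_L A B (z - p) * ν z).re =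
      φ z * (-(2 * A * (z - p).re * (ν z).re) - 2 * B * (z - p).im * (ν z).im) := fun z => by
    simp [rsMaxP_L]
    ring
  simp only [e1, e2] at a1
  rw [integral_sub (h.integrableOn ((b_grad_cont (rsMaxP_cd p A B M)).inner (b_grad_cont hφ)))
    ((h.integrableOn hφ.continuous).const_mul _), integral_const_mul] at a1
  linarith

/-- Comparison with a quadratic barrier (`s > 0`: supersolution, `s < 0`: subsolution).
Hints: `HasTrace Ω (s * (q - u)) (s * (gradient q - G)) (s * (q - g))` with the approximants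
`s * (q - U n)`; `gradient q z = -2 * A * (z - p).re - 2 * B * (z - p).im * I`; `h.gg` for
`φ * conj (gradient q)`, real parts: `∫ ⟪∇q, ∇φ⟫ - (2A + 2B) ∫ φ = ∫ φ ∂_ν q`; then `weak_max`
with `η = s * (2 * A + 2 * B - 1)`. -/
theorem compare_quad {Ω : Set ℂ} {ν G : ℂ → ℂ} {β : ℝ} {u g : ℂ → ℝ} (hβ : 0 < β)
    (h : GG Ω (bdry Ω) ν) (hT : HasTrace Ω u G g) (hE : WeakEq Ω β G g) (p : ℂ) (A B M s : ℝ)
    (hs : 0 ≤ s * (2 * A + 2 * B - 1))
    (hb : ∀ᵐ z ∂(bdry Ω), 0 ≤ s * (β * quad p A B M z - 2 * A * (z - p).re * (ν z).re -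
      2 * B * (z - p).im * (ν z).im)) :
    (∀ᵐ z ∂(bdry Ω), 0 ≤ s * (quad p A B M z - g z)) ∧
      (0 < s * (2 * A + 2 * B - 1) →
        ∀ᵐ z ∂(volume.restrict Ω), 0 ≤ s * (quad p A B M z - u z)) := by
  obtain ⟨hu, hG, hg, U, hU, t1, t2, t3⟩ := hT
  have cq := rsMaxP_cd p A B M
  have cG := b_grad_cont cq
  refine weak_max (G := fun z => (s : ℂ) * (gradient (quad p A B M) z - G z)) hβ hs h
    ⟨((b_memΩ h cq.continuous).sub hu).const_mul s, ((b_memΩ h cG).sub hG).const_mul _,
      ((b_memμ h cq.continuous).sub hg).const_mul s, fun n z => s * (quad p A B M z - U n z),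
      fun n => contDiff_const.mul (cq.sub (hU n)), rsMaxP_lim |s| t1 fun n z => ?_,
      rsMaxP_lim |s| t2 fun n z => ?_, rsMaxP_lim |s| t3 fun n z => ?_⟩ fun φ hφ hφ0 => ?_
  · rw [Pi.sub_apply, Pi.sub_apply, ← mul_sub, norm_mul, sub_sub_sub_cancel_left, norm_sub_rev]
    rfl
  · have d1 := (hU n).differentiable one_ne_zero z
    have d2 := cq.differentiable one_ne_zero z
    have e : gradient (fun z => s * (quad p A B M z - U n z)) z =
        s * (gradient (quad p A B M) z - gradient (U n) z) := by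
      rw [← dbar_ofReal ((d2.fun_sub d1).const_mul s), ← dbar_ofReal d1, ← dbar_ofReal d2]
      have d3 : DifferentiableAt ℝ (fun w => (U n w : ℂ)) z :=
        Complex.ofRealCLM.differentiableAt.comp z d1
      have d4 : DifferentiableAt ℝ (fun w => (quad p A B M w : ℂ)) z :=
        Complex.ofRealCLM.differentiableAt.comp z d2
      simp only [Complex.ofReal_mul, Complex.ofReal_sub]
      rw [dbar_mul (differentiableAt_const _) (d4.fun_sub d3), dbar_const, dbar_sub d4 d3]
      ring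
    rw [Pi.sub_apply, Pi.sub_apply, e, ← mul_sub, norm_mul, sub_sub_sub_cancel_left, norm_sub_rev,
      Complex.norm_real]
    rfl
  · rw [Pi.sub_apply, Pi.sub_apply, ← mul_sub, norm_mul, sub_sub_sub_cancel_left, norm_sub_rev]
    rfl
  · have cφ := b_grad_cont hφ
    have φc := hφ.continuous
    have i1 : Integrable (fun z => inner ℝ (G z) (gradient φ z)) (volume.restrict Ω) :=
      b_int hG (b_memΩ h cφ) (hG.1.inner cφ.aestronglyMeasurable)
        (.of_forall fun z => norm_inner_le_norm _ _)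
    have i2 : Integrable (fun z => g z * φ z) (bdry Ω) :=
      b_int hg (b_memμ h φc) (hg.1.mul φc.aestronglyMeasurable)
        (.of_forall fun z => (norm_mul _ _).le)
    have i3 : Integrable (fun z => quad p A B M z * φ z) (bdry Ω) :=
      h.integrable (cq.continuous.mul φc)
    have i4 : Integrable (fun z => φ z * (-(2 * A * (z - p).re * (ν z).re) -
        2 * B * (z - p).im * (ν z).im)) (bdry Ω) :=
      h.integrable₂ (F := fun q => φ q.1 * (-(2 * A * (q.1 - p).re * q.2.re) -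
        2 * B * (q.1 - p).im * q.2.im)) (by fun_prop)
    have e1 : ∫ z in Ω, inner ℝ ((s : ℂ) * (gradient (quad p A B M) z - G z)) (gradient φ z) =
        s * ((∫ z in Ω, inner ℝ (gradient (quad p A B M) z) (gradient φ z)) -
          ∫ z in Ω, inner ℝ (G z) (gradient φ z)) := by
      rw [← integral_sub (h.integrableOn (cG.inner cφ)) i1, ← integral_const_mul]
      refine integral_congr_ae (.of_forall fun z => ?_)
      dsimp only
      rw [← Complex.real_smul, real_inner_smul_left, inner_sub_left]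
    have e2 : ∫ z, s * (quad p A B M z - g z) * φ z ∂(bdry Ω) =
        s * ((∫ z, quad p A B M z * φ z ∂(bdry Ω)) - ∫ z, g z * φ z ∂(bdry Ω)) := by
      rw [← integral_sub i3 i2, ← integral_const_mul]
      exact integral_congr_ae (.of_forall fun z => by ring)
    have e3 : s * (β * (∫ z, quad p A B M z * φ z ∂(bdry Ω)) +
        ∫ z, φ z * (-(2 * A * (z - p).re * (ν z).re) - 2 * B * (z - p).im * (ν z).im)
          ∂(bdry Ω)) ≤ 0 := by
      rw [← integral_const_mul, ← integral_add (i3.const_mul β) i4, ← integral_const_mul]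
      refine integral_nonpos_of_ae (hb.mono fun z hz => ?_)
      have := mul_nonpos_of_nonneg_of_nonpos hz (hφ0 z)
      simp only [Pi.zero_apply]
      linarith
    have e4 := hE φ hφ
    rw [e1, e2, rsMaxP_gg h p A B M hφ]
    have e5 := congrArg (s * ·) e4
    linarith

end Pool.Agent.P.MP_832dec_an
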