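import Pool.Agent.P.MP_832dec_an.Sharp.Ellipse
import Pool.Agent.P.MP_832dec_an.Sharp.MaxP

set_option autoImplicit false

open MeasureTheory Set Metric Filter Topology ComplexConjugate Real

namespace Pool.Agent.P.MP_832dec_an

/-- half of the gradient of `ellN` -/
noncomputable def rsBarrier_n (a b : ℝ) (z : ℂ) : ℂ :=
  ((z.re / a ^ 2 : ℝ) : ℂ) + ((z.im / b ^ 2 : ℝ) : ℂ) * Complex.I

theorem rsBarrier_re : ContDiff ℝ 1 fun z : ℂ => z.re := Complex.reCLM.contDiff

theorem rsBarrier_im : ContDiff ℝ 1 fun z : ℂ => z.im := Complex.imCLM.contDiff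

theorem rsBarrier_ofReal {φ : ℂ → ℝ} (h : ContDiff ℝ 1 φ) : ContDiff ℝ 1 fun z => (φ z : ℂ) :=
  Complex.ofRealCLM.contDiff.comp h

theorem rsBarrier_conj {f : ℂ → ℂ} (h : ContDiff ℝ 1 f) : ContDiff ℝ 1 fun z => conj (f z) :=
  Complex.conjCLE.contDiff.comp h

theorem rsBarrier_n_contDiff (a b : ℝ) : ContDiff ℝ 1 (rsBarrier_n a b) :=
  (rsBarrier_ofReal (rsBarrier_re.div_const _)).add
    ((rsBarrier_ofReal (rsBarrier_im.div_const _)).mul contDiff_const)

theorem rsBarrier_N_contDiff (a b : ℝ) : ContDiff ℝ 1 (ellN a b) :=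
  ((rsBarrier_re.pow 2).div_const _).add ((rsBarrier_im.pow 2).div_const _)

theorem rsBarrier_dbar_N (a b : ℝ) (z : ℂ) :
    dbar (fun w => (ellN a b w : ℂ)) z = 2 * rsBarrier_n a b z := by
  have hR : HasFDerivAt (fun w : ℂ => (w.re : ℂ)) (Complex.ofRealCLM.comp Complex.reCLM) z :=
    (Complex.ofRealCLM.comp Complex.reCLM).hasFDerivAt
  have hJ : HasFDerivAt (fun w : ℂ => (w.im : ℂ)) (Complex.ofRealCLM.comp Complex.imCLM) z :=
    (Complex.ofRealCLM.comp Complex.imCLM).hasFDerivAt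
  have dR : dbar (fun w : ℂ => (w.re : ℂ)) z = 1 := by
    rw [dbar_of_hasFDerivAt hR]
    simp
  have dJ : dbar (fun w : ℂ => (w.im : ℂ)) z = Complex.I := by
    rw [dbar_of_hasFDerivAt hJ]
    simp
  have e : (fun w => (ellN a b w : ℂ)) =
      fun w : ℂ => (w.re : ℂ) ^ 2 / (a : ℂ) ^ 2 + (w.im : ℂ) ^ 2 / (b : ℂ) ^ 2 := by
    funext w
    simp [ellN]
  have d1 : DifferentiableAt ℝ (fun w : ℂ => (w.re : ℂ) ^ 2 / (a : ℂ) ^ 2) z :=
    (hR.differentiableAt.pow 2).mul_const _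
  have d2 : DifferentiableAt ℝ (fun w : ℂ => (w.im : ℂ) ^ 2 / (b : ℂ) ^ 2) z :=
    (hJ.differentiableAt.pow 2).mul_const _
  rw [e, dbar_add d1 d2,
    dbar_comp_holo (h := fun x : ℂ => x ^ 2 / (a : ℂ) ^ 2) (f := fun w : ℂ => (w.re : ℂ))
      ((hasDerivAt_pow 2 _).div_const _) hR.differentiableAt,
    dbar_comp_holo (h := fun x : ℂ => x ^ 2 / (b : ℂ) ^ 2) (f := fun w : ℂ => (w.im : ℂ))
      ((hasDerivAt_pow 2 _).div_const _) hJ.differentiableAt, dR, dJ, rsBarrier_n]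
  push_cast
  ring

theorem rsBarrier_N_nonneg (a b : ℝ) (z : ℂ) : 0 ≤ ellN a b z := by
  unfold ellN
  positivity

theorem rsBarrier_bdry (a b : ℝ) : ∀ᵐ z ∂(bdry (ell a b)), ellN a b z = 1 :=
  (ae_restrict_mem isClosed_frontier.measurableSet).mono fun _ hz => ell_frontier hz

theorem rsBarrier_key {a b : ℝ} {ν : ℂ → ℂ} (h : GG (ell a b) (bdry (ell a b)) ν) {φ : ℂ → ℝ}
    (hφ : ContDiff ℝ 1 φ) :
    (∫ z, (φ z : ℂ) * conj (rsBarrier_n a b z) * ν z ∂(bdry (ell a b))).im = 0 ∧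
      ((∀ z, 0 ≤ φ z) →
        0 ≤ (∫ z, (φ z : ℂ) * conj (rsBarrier_n a b z) * ν z ∂(bdry (ell a b))).re) := by
  have hn := rsBarrier_n_contDiff a b
  have hN := rsBarrier_N_contDiff a b
  have hN' := rsBarrier_ofReal hN
  have hg : ContDiff ℝ 1 fun z => (φ z : ℂ) * conj (rsBarrier_n a b z) :=
    (rsBarrier_ofReal hφ).mul (rsBarrier_conj hn)
  have hdg := continuous_dbar hg
  set g : ℂ → ℂ := fun z => (φ z : ℂ) * conj (rsBarrier_n a b z) with hgdef
  let A : ℕ → ℂ := fun k => ∫ z in ell a b, dbar g z * (ellN a b z : ℂ) ^ (k + 1)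
  let B : ℕ → ℝ := fun k => ∫ z in ell a b,
    φ z * (2 * (k + 1) * ellN a b z ^ k * Complex.normSq (rsBarrier_n a b z))
  have hAB : ∀ k, ∫ z, g z * ν z ∂(bdry (ell a b)) = A k + B k := by
    intro k
    have h1 := h.gg (fun z => g z * (ellN a b z : ℂ) ^ (k + 1)) (hg.mul (hN'.pow _))
    have h2 : ∫ z, g z * (ellN a b z : ℂ) ^ (k + 1) * ν z ∂(bdry (ell a b)) =
        ∫ z, g z * ν z ∂(bdry (ell a b)) :=
      integral_congr_ae ((rsBarrier_bdry a b).mono fun z hz => by simp [hz])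
    have c1 : Continuous fun z => dbar g z * (ellN a b z : ℂ) ^ (k + 1) :=
      hdg.mul (hN'.continuous.pow _)
    have c2 : Continuous fun z => ((φ z * (2 * (k + 1) * ellN a b z ^ k *
        Complex.normSq (rsBarrier_n a b z)) : ℝ) : ℂ) :=
      Complex.continuous_ofReal.comp (hφ.continuous.mul
        ((continuous_const.mul (hN.continuous.pow _)).mul
          (Complex.continuous_normSq.comp hn.continuous)))
    rw [← h2, ← h1, ← integral_complex_ofReal, ← integral_add (h.integrableOn c1)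
      (h.integrableOn c2)]
    refine integral_congr_ae (Eventually.of_forall fun z => ?_)
    beta_reduce
    rw [dbar_mul (hg.differentiable one_ne_zero z) ((hN'.pow _).differentiable one_ne_zero z),
      dbar_comp_holo (h := fun x : ℂ => x ^ (k + 1)) (f := fun w => (ellN a b w : ℂ))
        (hasDerivAt_pow (k + 1) _) (hN'.differentiable one_ne_zero z), rsBarrier_dbar_N]
    push_cast
    rw [Complex.normSq_eq_conj_mul_self]
    simp only [hgdef]
    ring
  have hA : Tendsto A atTop (𝓝 0) := by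
    have := tendsto_integral_of_dominated_convergence (μ := volume.restrict (ell a b))
      (F := fun k z => dbar g z * (ellN a b z : ℂ) ^ (k + 1)) (f := fun _ => 0)
      (fun z => ‖dbar g z‖) (fun k => (hdg.mul (hN'.continuous.pow _)).aestronglyMeasurable)
      (h.integrableOn hdg.norm) (fun k => ?_) ?_
    · simpa using this
    · filter_upwards [ae_restrict_mem h.isOpen.measurableSet] with z hz
      rw [norm_mul, norm_pow, Complex.norm_real, Real.norm_of_nonneg (rsBarrier_N_nonneg a b z)]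
      exact mul_le_of_le_one_right (norm_nonneg _)
        (pow_le_one₀ (rsBarrier_N_nonneg a b z) (le_of_lt hz))
    · filter_upwards [ae_restrict_mem h.isOpen.measurableSet] with z hz
      have h1 : ‖(ellN a b z : ℂ)‖ < 1 := by
        rw [Complex.norm_real, Real.norm_of_nonneg (rsBarrier_N_nonneg a b z)]
        exact hz
      have := ((tendsto_pow_atTop_nhds_zero_of_norm_lt_one h1).comp
        (tendsto_add_atTop_nat 1)).const_mul (dbar g z)
      rwa [mul_zero] at this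
  refine ⟨?_, fun h0 => ?_⟩
  · have h1 : Tendsto (fun k => (A k).im) atTop (𝓝 0) := (Complex.continuous_im.tendsto 0).comp hA
    refine tendsto_nhds_unique tendsto_const_nhds (h1.congr fun k => ?_)
    rw [hAB k]
    simp
  · have h1 : Tendsto (fun k => (A k).re) atTop (𝓝 0) := (Complex.continuous_re.tendsto 0).comp hA
    refine le_of_tendsto' h1 fun k => ?_
    rw [hAB k, Complex.add_re, Complex.ofReal_re]
    have : 0 ≤ B k := integral_nonneg fun z => by
      have := rsBarrier_N_nonneg a b z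
      exact mul_nonneg (h0 z) (mul_nonneg (by positivity) (Complex.normSq_nonneg _))
    linarith

/-- The normal of the ellipse. Hints: `n z = z.re / a² + z.im / b² * I`, `dbar ellN = 2 n`. For real
`C¹` functions `φ`, `gg` for `φ * ellN ^ k * conj n` (`ellN = 1` a.e. for `bdry`):
`∫ φ conj n ν dμ = ∫ ellN ^ k dbar (φ conj n) + ∫ 2 k ellN ^ (k - 1) ‖n‖² φ`, and the first term
tends to `0` (dominated convergence, `0 ≤ ellN < 1` on the ellipse). Imaginary parts:
`(conj n ν).im = 0` a.e. (`ae_eq_zero_of_integral_contDiff_smul_eq_zero`), so `conj n ν = ± ‖n‖`.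
Real parts: `0 ≤ ∫ φ (conj n ν).re` for `φ ≥ 0`; take `φ = -F ((conj X n).re)` with `F` from
`b_F`: where the sign is `-` one has `(conj X n).re < 0`, where it is `+` one has `φ = 0`. -/
theorem ell_normal {a b : ℝ} (ha : 0 < a) (hb : 0 < b) {ν X : ℂ → ℂ}
    (h : GG (ell a b) (bdry (ell a b)) ν) (hX : ContDiff ℝ 1 X)
    (hX' : ∀ᵐ z ∂(bdry (ell a b)), 0 < (conj (X z) * ν z).re) :
    ∀ᵐ z ∂(bdry (ell a b)), ellN a b z = 1 ∧
      z.re / a ^ 2 * (ν z).re + z.im / b ^ 2 * (ν z).im =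
        √((z.re / a ^ 2) ^ 2 + (z.im / b ^ 2) ^ 2) := by
  have := h.fin
  have hn := rsBarrier_n_contDiff a b
  have hnc := hn.continuous
  have hint : ∀ {φ : ℂ → ℝ}, Continuous φ →
      Integrable (fun z => (φ z : ℂ) * conj (rsBarrier_n a b z) * ν z) (bdry (ell a b)) :=
    fun {φ} hφ => h.integrable₂ (F := fun x : ℂ × ℂ =>
      (φ x.1 : ℂ) * conj (rsBarrier_n a b x.1) * x.2) (by fun_prop)
  have him : ∀ᵐ z ∂(bdry (ell a b)), (conj (rsBarrier_n a b z) * ν z).im = 0 := by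
    refine ae_eq_zero_of_integral_contDiff_smul_eq_zero (Integrable.locallyIntegrable
      (h.integrable₂ (F := fun x : ℂ × ℂ => (conj (rsBarrier_n a b x.1) * x.2).im) (by fun_prop)))
      fun φ hφ _ => ?_
    rw [← (rsBarrier_key h (hφ.of_le (by simp))).1, ← Complex.imCLM_apply,
      ← Complex.imCLM.integral_comp_comm (hint hφ.continuous)]
    refine integral_congr_ae (Eventually.of_forall fun z => ?_)
    simp only [Complex.imCLM_apply, mul_assoc, Complex.im_ofReal_mul, smul_eq_mul]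
  obtain ⟨F, -, -, -, -, -, -, F0, F1, -, FC⟩ := b_F
  have hφ : ContDiff ℝ 1 fun z => -F (conj (X z) * rsBarrier_n a b z).re :=
    (FC.comp (rsBarrier_re.comp ((rsBarrier_conj hX).mul hn))).neg
  have hφ0 : ∀ z, 0 ≤ -F (conj (X z) * rsBarrier_n a b z).re := fun z => by
    rcases lt_or_ge (conj (X z) * rsBarrier_n a b z).re 0 with h1 | h1
    · linarith [F1 _ h1]
    · linarith [F0 _ h1]
  have hre := (rsBarrier_key h hφ).2 hφ0
  rw [← Complex.reCLM_apply, ← Complex.reCLM.integral_comp_comm (hint hφ.continuous)] at hre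
  simp only [Complex.reCLM_apply, mul_assoc, Complex.re_ofReal_mul] at hre
  have hi : Integrable (fun z => -F (conj (X z) * rsBarrier_n a b z).re *
      (conj (rsBarrier_n a b z) * ν z).re) (bdry (ell a b)) := by
    have := (hint hφ.continuous).re
    simpa only [RCLike.re_to_complex, mul_assoc, Complex.re_ofReal_mul] using this
  have hunit : ∀ z, (ν z).re ^ 2 + (ν z).im ^ 2 = 1 := fun z => by
    have h1 := Complex.sq_norm (ν z)
    rw [h.unit z, Complex.normSq_apply] at h1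
    linarith
  have hfac : ∀ᵐ z ∂(bdry (ell a b)), (conj (X z) * rsBarrier_n a b z).re =
      (conj (rsBarrier_n a b z) * ν z).re * (conj (X z) * ν z).re := by
    filter_upwards [him] with z hz
    have h1 := hunit z
    simp only [Complex.mul_re, Complex.mul_im, Complex.conj_re, Complex.conj_im] at hz ⊢
    linear_combination ((X z).re * (ν z).im - (X z).im * (ν z).re) * hz -
      ((X z).re * (rsBarrier_n a b z).re + (X z).im * (rsBarrier_n a b z).im) * h1
  have hle : ∀ᵐ z ∂(bdry (ell a b)), -F (conj (X z) * rsBarrier_n a b z).re *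
      (conj (rsBarrier_n a b z) * ν z).re ≤ 0 := by
    filter_upwards [hfac, hX'] with z h1 h2
    rcases lt_or_ge (conj (rsBarrier_n a b z) * ν z).re 0 with h3 | h3
    · exact mul_nonpos_of_nonneg_of_nonpos (hφ0 z) h3.le
    · rw [F0 _ (h1 ▸ mul_nonneg h3 h2.le), neg_zero, zero_mul]
  have hz0 := (integral_eq_zero_iff_of_nonneg_ae (f := fun z =>
    -(-F (conj (X z) * rsBarrier_n a b z).re * (conj (rsBarrier_n a b z) * ν z).re))
    (hle.mono fun z hz => neg_nonneg.2 hz) hi.neg).1 (by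
      rw [integral_neg, neg_eq_zero]
      exact le_antisymm (integral_nonpos_of_ae hle) hre)
  filter_upwards [rsBarrier_bdry a b, him, hfac, hX', hz0] with z h1 h2 h3 h4 h5
  refine ⟨h1, ?_⟩
  have h6 : 0 ≤ (conj (rsBarrier_n a b z) * ν z).re := by
    by_contra h7
    push Not at h7
    have h8 := F1 _ (h3 ▸ mul_neg_of_neg_of_pos h7 h4)
    have h9 := mul_pos_of_neg_of_neg h8 h7
    simp only [Pi.zero_apply] at h5
    linarith
  have hu := hunit z
  have e1 : (rsBarrier_n a b z).re = z.re / a ^ 2 := by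
    simp only [rsBarrier_n, Complex.add_re, Complex.ofReal_re, Complex.re_ofReal_mul, Complex.I_re,
      mul_zero, add_zero]
  have e2 : (rsBarrier_n a b z).im = z.im / b ^ 2 := by
    simp only [rsBarrier_n, Complex.add_im, Complex.ofReal_im, Complex.im_ofReal_mul, Complex.I_im,
      mul_one, zero_add]
  simp only [Complex.mul_re, Complex.mul_im, Complex.conj_re, Complex.conj_im, e1, e2] at h2 h6
  generalize z.re / a ^ 2 = p at *
  generalize z.im / b ^ 2 = q at *
  symm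
  rw [Real.sqrt_eq_iff_mul_self_eq (by positivity) (by linarith)]
  linear_combination (p * (ν z).im - q * (ν z).re) * h2 - (p ^ 2 + q ^ 2) * hu

/-- Two-sided bound for the solution on an ellipse. Hints: `exists_GG`, `local_gg`, `ell_lip`;
`compare_quad` with `p = 0`, `A = κ / a²`, `B = κ / b²`: `κ = a² / 4`, `s = 1`,
`M = κ + a² / (2 b β)` and `κ = b² / 4`, `s = -1`, `M = κ + b² / (2 a β)`; on the boundary
`1 / a ≤ ‖n‖ ≤ 1 / b`. -/
theorem ell_bounds {a b β : ℝ} (hb : 0 < b) (hab : b < a) (hβ : 0 < β) {u : ℂ → ℝ}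
    (hu : IsRobinSolution (ell a b) β u) :
    ∀ᵐ z ∂(volume.restrict (ell a b)),
      b ^ 2 / 4 * (1 - ellN a b z) + b ^ 2 / (2 * a * β) ≤ u z ∧
        u z ≤ a ^ 2 / 4 * (1 - ellN a b z) + a ^ 2 / (2 * b * β) := by
  have ha : 0 < a := hb.trans hab
  obtain ⟨ν, X, h, hX, hX'⟩ := exists_GG (ell_open a b)
    (isBounded_ball.subset (ell_sub hb hab.le)) (local_gg (ell_open a b) (ell_lip ha hb))
  obtain ⟨G, g, hT, hE⟩ := hu
  have hn := ell_normal ha hb h hX hX'
  have hab2 : b ^ 2 < a ^ 2 := by nlinarith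
  have hq : ∀ κ M z, quad 0 (κ / a ^ 2) (κ / b ^ 2) M z = M - κ * ellN a b z := fun κ M z => by
    simp only [quad, ellN, sub_zero]
    ring
  have s1 : 0 < 1 * (2 * (a ^ 2 / 4 / a ^ 2) + 2 * (a ^ 2 / 4 / b ^ 2) - 1) := by
    have e : 1 * (2 * (a ^ 2 / 4 / a ^ 2) + 2 * (a ^ 2 / 4 / b ^ 2) - 1) =
        (a ^ 2 - b ^ 2) / (2 * b ^ 2) := by
      field_simp
      ring
    rw [e]
    exact div_pos (sub_pos.2 hab2) (by positivity)
  have s2 : 0 < -1 * (2 * (b ^ 2 / 4 / a ^ 2) + 2 * (b ^ 2 / 4 / b ^ 2) - 1) := by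
    have e : -1 * (2 * (b ^ 2 / 4 / a ^ 2) + 2 * (b ^ 2 / 4 / b ^ 2) - 1) =
        (a ^ 2 - b ^ 2) / (2 * a ^ 2) := by
      field_simp
      ring
    rw [e]
    exact div_pos (sub_pos.2 hab2) (by positivity)
  have hi : 1 / a ^ 2 ≤ 1 / b ^ 2 := one_div_le_one_div_of_le (by positivity) hab2.le
  have hb' : ∀ᵐ z ∂(bdry (ell a b)), ellN a b z = 1 ∧
      1 / a ≤ z.re / a ^ 2 * (ν z).re + z.im / b ^ 2 * (ν z).im ∧
      z.re / a ^ 2 * (ν z).re + z.im / b ^ 2 * (ν z).im ≤ 1 / b := by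
    filter_upwards [hn] with z hz
    have e : (z.re / a ^ 2) ^ 2 + (z.im / b ^ 2) ^ 2 =
        1 / a ^ 2 * (z.re ^ 2 / a ^ 2) + 1 / b ^ 2 * (z.im ^ 2 / b ^ 2) := by ring
    have h1 : z.re ^ 2 / a ^ 2 + z.im ^ 2 / b ^ 2 = 1 := hz.1
    have h2 : 0 ≤ z.re ^ 2 / a ^ 2 := by positivity
    have h3 : 0 ≤ z.im ^ 2 / b ^ 2 := by positivity
    have h4 := mul_le_mul_of_nonneg_right hi h2
    have h5 := mul_le_mul_of_nonneg_right hi h3
    rw [hz.2, e]
    refine ⟨hz.1, Real.le_sqrt_of_sq_le ?_, Real.sqrt_le_iff.2 ⟨by positivity, ?_⟩⟩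
    · have : (1 / a) ^ 2 = 1 / a ^ 2 * (z.re ^ 2 / a ^ 2) + 1 / a ^ 2 * (z.im ^ 2 / b ^ 2) := by
        rw [← mul_add, h1, div_pow, one_pow, mul_one]
      linarith
    · have : (1 / b) ^ 2 = 1 / b ^ 2 * (z.re ^ 2 / a ^ 2) + 1 / b ^ 2 * (z.im ^ 2 / b ^ 2) := by
        rw [← mul_add, h1, div_pow, one_pow, mul_one]
      linarith
  have up := (compare_quad hβ h hT hE 0 (a ^ 2 / 4 / a ^ 2) (a ^ 2 / 4 / b ^ 2)
    (a ^ 2 / 4 + a ^ 2 / (2 * b * β)) 1 s1.le (hb'.mono fun z hz => by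
      have e : 1 * (β * quad 0 (a ^ 2 / 4 / a ^ 2) (a ^ 2 / 4 / b ^ 2)
          (a ^ 2 / 4 + a ^ 2 / (2 * b * β)) z - 2 * (a ^ 2 / 4 / a ^ 2) * (z - 0).re * (ν z).re -
          2 * (a ^ 2 / 4 / b ^ 2) * (z - 0).im * (ν z).im) = a ^ 2 / 2 *
            (1 / b - (z.re / a ^ 2 * (ν z).re + z.im / b ^ 2 * (ν z).im)) := by
        rw [hq, hz.1, sub_zero]
        field_simp
        ring
      rw [e]
      exact mul_nonneg (by positivity) (sub_nonneg.2 hz.2.2))).2 s1
  have lo := (compare_quad hβ h hT hE 0 (b ^ 2 / 4 / a ^ 2) (b ^ 2 / 4 / b ^ 2)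
    (b ^ 2 / 4 + b ^ 2 / (2 * a * β)) (-1) s2.le (hb'.mono fun z hz => by
      have e : -1 * (β * quad 0 (b ^ 2 / 4 / a ^ 2) (b ^ 2 / 4 / b ^ 2)
          (b ^ 2 / 4 + b ^ 2 / (2 * a * β)) z - 2 * (b ^ 2 / 4 / a ^ 2) * (z - 0).re * (ν z).re -
          2 * (b ^ 2 / 4 / b ^ 2) * (z - 0).im * (ν z).im) = b ^ 2 / 2 *
            (z.re / a ^ 2 * (ν z).re + z.im / b ^ 2 * (ν z).im - 1 / a) := by
        rw [hq, hz.1, sub_zero]
        field_simp
        ring
      rw [e]
      exact mul_nonneg (by positivity) (sub_nonneg.2 hz.2.1))).2 s2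
  filter_upwards [up, lo] with z h1 h2
  rw [hq] at h1 h2
  constructor <;> linarith

end Pool.Agent.P.MP_832dec_an
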