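import Pool.Agent.P.MP_832dec_an.Defs

set_option autoImplicit false

open MeasureTheory Set Metric

namespace Pool.Agent.P.MP_832dec_an

/-- `w` is the Schwarz rearrangement of `u`: it is nonnegative and, on the disc about the origin
with the area of `Ω`, its superlevel sets are discs about the origin with the same area as the
superlevel sets of `|u|` in `Ω`. -/
def IsSchwarz (Ω : Set ℂ) (u w : ℂ → ℝ) : Prop :=
  (∀ z, 0 ≤ w z) ∧ ∀ t : ℝ, 0 ≤ t → ∃ ρ : ℝ,
    {z ∈ ball (0 : ℂ) (radius Ω) | t < w z} = ball 0 ρ ∧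
      volume (ball (0 : ℂ) ρ) = volume {z ∈ Ω | t < |u z|}

end Pool.Agent.P.MP_832dec_an
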