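import Pool.Agent.P.MP_832dec_an.Key
import Pool.Agent.P.MP_832dec_an.Sharp.SDefs

set_option autoImplicit false

open MeasureTheory Set Metric Filter Topology ComplexConjugate Real

namespace Pool.Agent.P.MP_832dec_an

/-- the point of the unit circle with argument `θ` -/
noncomputable def cis (θ : ℝ) : ℂ := Complex.exp (θ * Complex.I)

/-- the Poisson kernel of the unit disc with pole at `1` -/
noncomputable def Pois (w : ℂ) : ℝ := (1 - ‖w‖ ^ 2) / ‖1 - w‖ ^ 2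

/-- the Poisson integral of the values of `f` on the unit circle -/
noncomputable def PF (f : ℂ → ℝ) (w : ℂ) : ℝ :=
  (2 * π)⁻¹ * ∫ θ in Ioo (-π) π, f (cis θ) * Pois (w * cis (-θ))

/-- integral over `Ω` minus integral over the unit disc -/
noncomputable def sig (Ω : Set ℂ) (F : ℂ → ℝ) : ℝ :=
  (∫ z in Ω, F z) - ∫ z in ball (0 : ℂ) 1, F z

/-- the direction of `z` -/
noncomputable def dir (z : ℂ) : ℂ := z / (‖z‖ : ℂ)

/-- a polynomial -/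
noncomputable def pol (c : ℕ → ℂ) (N : ℕ) (w : ℂ) : ℂ := ∑ k ∈ Finset.range N, c k * w ^ k

/-- its derivative -/
noncomputable def pold (c : ℕ → ℂ) (N : ℕ) (w : ℂ) : ℂ :=
  ∑ k ∈ Finset.range N, c k * (k * w ^ (k - 1))

theorem pol_hasDerivAt (c : ℕ → ℂ) (N : ℕ) (w : ℂ) : HasDerivAt (pol c N) (pold c N w) w :=
  HasDerivAt.fun_sum fun k _ => (hasDerivAt_pow k w).const_mul (c k)

/-- quadratic barriers -/
noncomputable def quad (p : ℂ) (A B M : ℝ) (z : ℂ) : ℝ :=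
  M - A * (z - p).re ^ 2 - B * (z - p).im ^ 2

/-- the quadratic form of an ellipse -/
noncomputable def ellN (a b : ℝ) (z : ℂ) : ℝ := z.re ^ 2 / a ^ 2 + z.im ^ 2 / b ^ 2

/-- the ellipse with half axes `a`, `b` -/
def ell (a b : ℝ) : Set ℂ := {z | ellN a b z < 1}

/-- the weak form of the Robin problem -/
def WeakEq (Ω : Set ℂ) (β : ℝ) (G : ℂ → ℂ) (g : ℂ → ℝ) : Prop :=
  ∀ φ : ℂ → ℝ, ContDiff ℝ 1 φ →
    (∫ z in Ω, inner ℝ (G z) (gradient φ z)) + β * ∫ z, g z * φ z ∂(bdry Ω) = ∫ z in Ω, φ z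

/-- the normalised data, with the boundary error `E` of the trace -/
structure Core2 (Ω : Set ℂ) (μ : Measure ℂ) (ν : ℂ → ℂ) (ε Λ b : ℝ) (E : ℂ → ℝ) : Prop
    extends Core Ω μ ν ε where
  b0 : 0 ≤ b
  Eint : Integrable E μ
  Eabs : (1 + b) * ∫ z, |E z| ∂μ ≤ ε
  holo : ∀ φ : ℂ → ℂ, Differentiable ℂ φ → (∫ z in Ω, φ z) - 1 / 2 * ∫ z, φ z ∂μ =
    ∫ z, (E z : ℂ) * (deriv φ z * ν z + b * φ z) ∂μ
  Ebd : ∀ L : ℝ, 1 ≤ L → Ω ⊆ ball 0 L →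
    ∀ᵐ z ∂μ, |E z| ≤ Λ * (L - 1) + (L ^ 2 - ‖z‖ ^ 2) / 4 + ε
  circ : ∀ ρ : ℝ, 0 < ρ → (∀ z ∈ closure Ω, ‖z‖ ≠ ρ) → Ω ⊆ ball 0 ρ ∨ Disjoint Ω (ball 0 ρ)
  area : ∀ A : Set ℂ, MeasurableSet A →
    volume ((fun z : ℂ => ‖z‖ ^ 2) '' (A ∩ frontier Ω)) ≤
      ∫⁻ z in A, ENNReal.ofReal (2 * |(conj z * ν z).im|) ∂μ

theorem Core2.mono {Ω : Set ℂ} {μ : Measure ℂ} {ν : ℂ → ℂ} {ε Λ b : ℝ} {E : ℂ → ℝ}
    (h : Core2 Ω μ ν ε Λ b E) {η : ℝ} (hη : ε ≤ η) : Core2 Ω μ ν η Λ b E where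
  toCore := h.toCore.mono hη
  b0 := h.b0
  Eint := h.Eint
  Eabs := h.Eabs.trans hη
  holo := h.holo
  Ebd := fun L hL hs => (h.Ebd L hL hs).mono fun z hz => by linarith
  circ := h.circ
  area := h.area

end Pool.Agent.P.MP_832dec_an
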