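import Pool.Agent.P.MP_832dec_an.Sharp.Base

set_option autoImplicit false

open MeasureTheory Set Metric Filter Topology ComplexConjugate Real

namespace Pool.Agent.P.MP_832dec_an

theorem rsEllipse_cont (a b : ℝ) : Continuous (ellN a b) := by
  unfold ellN
  fun_prop

theorem ell_open (a b : ℝ) : IsOpen (ell a b) := by
  exact isOpen_lt (rsEllipse_cont a b) continuous_const

theorem ell_sub {a b : ℝ} (hb : 0 < b) (hab : b ≤ a) : ell a b ⊆ ball 0 a := by
  intro z hz
  have ha : 0 < a := hb.trans_le hab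
  have h1 : z.re ^ 2 / a ^ 2 + z.im ^ 2 / b ^ 2 < 1 := hz
  have h2 : z.im ^ 2 / a ^ 2 ≤ z.im ^ 2 / b ^ 2 := by gcongr
  have h3 : (z.re ^ 2 + z.im ^ 2) / a ^ 2 < 1 := by rw [add_div]; linarith
  rw [div_lt_one (by positivity)] at h3
  rw [mem_ball_zero_iff]
  refine lt_of_pow_lt_pow_left₀ 2 ha.le ?_
  rw [Complex.sq_norm, Complex.normSq_apply]
  nlinarith

theorem ell_frontier {a b : ℝ} {z : ℂ} (hz : z ∈ frontier (ell a b)) : ellN a b z = 1 := by
  exact frontier_lt_subset_eq (rsEllipse_cont a b) continuous_const hz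

/-- the linear map with eigenvalues `a`, `b` -/
noncomputable def rsEllipse_L (a b : ℝ) : ℂ →ₗ[ℝ] ℂ :=
  Matrix.toLin Complex.basisOneI Complex.basisOneI !![a, 0; 0, b]

theorem rsEllipse_L_apply (a b : ℝ) (z : ℂ) :
    rsEllipse_L a b z = (a * z.re : ℝ) + (b * z.im : ℝ) * Complex.I := by
  simp [rsEllipse_L, Matrix.toLin_apply, Matrix.mulVec, dotProduct, Fin.sum_univ_two]

theorem rsEllipse_L_det (a b : ℝ) : LinearMap.det (rsEllipse_L a b) = a * b := by
  simp [rsEllipse_L, LinearMap.det_toLin]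

theorem rsEllipse_N_L {a b : ℝ} (ha : 0 < a) (hb : 0 < b) (z : ℂ) :
    ellN a b (rsEllipse_L a b z) = ‖z‖ ^ 2 := by
  rw [rsEllipse_L_apply, Complex.sq_norm, Complex.normSq_apply, ellN]
  simp only [Complex.add_re, Complex.ofReal_re, Complex.mul_re, Complex.I_re, Complex.ofReal_im,
    Complex.I_im, Complex.add_im, Complex.mul_im]
  field_simp
  ring

theorem rsEllipse_surj {a b : ℝ} (ha : 0 < a) (hb : 0 < b) (w : ℂ) :
    ∃ z, rsEllipse_L a b z = w := by
  refine ⟨⟨w.re / a, w.im / b⟩, ?_⟩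
  rw [rsEllipse_L_apply]
  apply Complex.ext <;> simp <;> field_simp

theorem rsEllipse_image {a b σ : ℝ} (ha : 0 < a) (hb : 0 < b) (x : ℂ) :
    {z | ellN a b (z - x) < σ} = (fun z => x + rsEllipse_L a b z) '' ball 0 √σ := by
  ext w
  constructor
  · intro hw
    obtain ⟨z, hz⟩ := rsEllipse_surj ha hb (w - x)
    refine ⟨z, ?_, by simp [hz]⟩
    rw [mem_ball_zero_iff, Real.lt_sqrt (norm_nonneg z), ← rsEllipse_N_L ha hb, hz]
    exact hw
  · rintro ⟨z, hz, rfl⟩
    rw [mem_ball_zero_iff, Real.lt_sqrt (norm_nonneg z), ← rsEllipse_N_L ha hb] at hz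
    simpa using hz

/-- Hints: linear image of a disc (`Measure.addHaar_image_linearMap` or
`Complex.volume_preserving_equiv_real_prod`). -/
theorem ell_vol {a b σ : ℝ} (ha : 0 < a) (hb : 0 < b) (hσ : 0 ≤ σ) :
    volume {z | ellN a b z < σ} = ENNReal.ofReal (π * (a * b) * σ) := by
  have h := rsEllipse_image (σ := σ) ha hb 0
  simp only [sub_zero, zero_add] at h
  rw [h, Measure.addHaar_image_linearMap, rsEllipse_L_det, Complex.volume_ball,
    abs_of_pos (mul_pos ha hb), ← ENNReal.ofReal_pow (Real.sqrt_nonneg σ), Real.sq_sqrt hσ,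
    ← ENNReal.ofReal_coe_nnreal, NNReal.coe_real_pi, ← ENNReal.ofReal_mul hσ,
    ← ENNReal.ofReal_mul (mul_pos ha hb).le]
  congr 1
  ring

theorem rsEllipse_quad {A : ℝ} {B C : ℝ → ℝ} (hA : 0 < A) (hB : ContDiff ℝ 1 B)
    (hC : ContDiff ℝ 1 C) (B0 : 0 < B 0) (C0 : C 0 = 0) :
    ∃ r : ℝ, 0 < r ∧ ∃ (K : NNReal) (ψ : ℝ → ℝ), LipschitzWith K ψ ∧
      ∀ z : ℂ, ‖z‖ < r → (A * z.im ^ 2 + B z.re * z.im + C z.re < 0 ↔ z.im < ψ z.re) := by
  have hΔ : ContDiff ℝ 1 fun x => B x ^ 2 - 4 * A * C x :=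
    (hB.pow 2).sub (contDiff_const.mul hC)
  have h0 : B 0 ^ 2 - 4 * A * C 0 ≠ 0 := by
    rw [C0, mul_zero, sub_zero]
    positivity
  have hψ : ContDiffAt ℝ 1 (fun x => (-B x + √(B x ^ 2 - 4 * A * C x)) / (2 * A)) 0 :=
    (hB.neg.contDiffAt.add (hΔ.contDiffAt.sqrt h0)).div_const _
  obtain ⟨K, t, ht, hK⟩ := hψ.exists_lipschitzOnWith
  obtain ⟨ψ, hψ1, hψ2⟩ := hK.extend_real
  have c1 : Continuous fun z : ℂ => 2 * A * z.im + B z.re :=
    (continuous_const.mul Complex.continuous_im).add (hB.continuous.comp Complex.continuous_re)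
  have e1 : ∀ᶠ z : ℂ in 𝓝 0, 0 < 2 * A * z.im + B z.re :=
    c1.continuousAt.eventually (lt_mem_nhds (by simpa using B0))
  have e2 : ∀ᶠ z : ℂ in 𝓝 0, z.re ∈ t :=
    Complex.continuous_re.continuousAt.eventually (by simpa using ht)
  obtain ⟨r, hr, h⟩ := Metric.eventually_nhds_iff.1 (e1.and e2)
  refine ⟨r, hr, K, ψ, hψ1, fun z hz => ?_⟩
  obtain ⟨h1, h2⟩ := h (y := z) (by simpa using hz)
  rw [← hψ2 h2, lt_div_iff₀ (by positivity), ← sub_lt_iff_lt_add',
    show z.im * (2 * A) - -B z.re = 2 * A * z.im + B z.re by ring, Real.lt_sqrt h1.le]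
  constructor
  · intro h3
    nlinarith [mul_pos hA (neg_pos.2 h3)]
  · intro h3
    by_contra h4
    nlinarith [mul_nonneg hA.le (not_lt.1 h4)]

/-- Hints: at `p` with `ellN p = 1` take `e = -I * p / ‖p‖`; `ellN (p + e z) - 1` is
`A y² + B(x) y + C(x)` with `A > 0`, `B(0) = 2 / ‖p‖ > 0`, `C(0) = 0`; for small `z` it is negative
iff `y < ψ₀ x = (-B + √(B² - 4 A C)) / (2A)` (`4 A g = (2 A y + B)² - (B² - 4 A C)`);
`ContDiffAt.exists_lipschitzOnWith` and `LipschitzOnWith.extend_real`. -/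
theorem ell_lip {a b : ℝ} (ha : 0 < a) (hb : 0 < b) : LipschitzBoundary (ell a b) := by
  intro p hp
  have h1 : p.re ^ 2 / a ^ 2 + p.im ^ 2 / b ^ 2 = 1 := ell_frontier hp
  have p0 : p ≠ 0 := by
    rintro rfl
    simp at h1
  have n0 : 0 < ‖p‖ := norm_pos_iff.2 p0
  set e : ℂ := -Complex.I * p / ‖p‖ with he
  have e1 : e.re = p.im / ‖p‖ := by simp [he, Complex.div_ofReal_re]
  have e2 : e.im = -p.re / ‖p‖ := by simp [he, Complex.div_ofReal_im]
  have en : ‖e‖ = 1 := by
    rw [he, norm_div, norm_mul, norm_neg, Complex.norm_I, Complex.norm_real, norm_norm, one_mul,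
      div_self n0.ne']
  have hA : 0 < e.im ^ 2 / a ^ 2 + e.re ^ 2 / b ^ 2 := by
    have h2 : e.re ^ 2 + e.im ^ 2 = 1 := by
      have := Complex.sq_norm e
      rw [en, Complex.normSq_apply] at this
      nlinarith
    by_cases h3 : e.re = 0
    · have : e.im ^ 2 = 1 := by rw [h3] at h2; linarith
      rw [this]
      positivity
    · positivity
  obtain ⟨r, hr, K, ψ, hψ, h⟩ := rsEllipse_quad
    (B := fun x => -(2 * e.im * (p.re + e.re * x)) / a ^ 2 + 2 * e.re * (p.im + e.im * x) / b ^ 2)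
    (C := fun x => (p.re + e.re * x) ^ 2 / a ^ 2 + (p.im + e.im * x) ^ 2 / b ^ 2 - 1) hA
    (by fun_prop) (by fun_prop) (by
      have : -(2 * e.im * (p.re + e.re * 0)) / a ^ 2 + 2 * e.re * (p.im + e.im * 0) / b ^ 2 =
          2 / ‖p‖ * (p.re ^ 2 / a ^ 2 + p.im ^ 2 / b ^ 2) := by
        rw [e1, e2]
        ring
      rw [this, h1]
      positivity) (by simp [h1])
  refine ⟨r, hr, e, en, K, ψ, hψ, fun z hz => ?_⟩
  rw [← h z hz]
  have : ellN a b (p + e * z) - 1 = (e.im ^ 2 / a ^ 2 + e.re ^ 2 / b ^ 2) * z.im ^ 2 +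
      (-(2 * e.im * (p.re + e.re * z.re)) / a ^ 2 + 2 * e.re * (p.im + e.im * z.re) / b ^ 2) *
        z.im + ((p.re + e.re * z.re) ^ 2 / a ^ 2 + (p.im + e.im * z.re) ^ 2 / b ^ 2 - 1) := by
    simp only [ellN, Complex.add_re, Complex.mul_re, Complex.add_im, Complex.mul_im]
    ring
  rw [← this, sub_neg]
  rfl

theorem rsEllipse_int {a b : ℝ} (ha : 0 < a) (hb : 0 < b) (x : ℂ) (F : ℂ → ℂ) :
    ∫ z in {z | ellN a b (z - x) < 1}, F z =
      (a * b : ℝ) * ∫ z in ball (0 : ℂ) 1, F (x + rsEllipse_L a b z) := by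
  rw [rsEllipse_image ha hb, Real.sqrt_one, integral_image_eq_integral_abs_det_fderiv_smul volume
    measurableSet_ball (f' := fun _ => LinearMap.toContinuousLinearMap (rsEllipse_L a b))]
  · have : (LinearMap.toContinuousLinearMap (rsEllipse_L a b)).det = a * b := rsEllipse_L_det a b
    simp only [this, abs_of_pos (mul_pos ha hb), integral_const_mul, Complex.real_smul]
  · intro z _
    exact ((LinearMap.toContinuousLinearMap
      (rsEllipse_L a b)).hasFDerivAt.const_add x).hasFDerivWithinAt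
  · intro z _ w _ h
    have h1 : rsEllipse_L a b (z - w) = 0 := by
      rw [map_sub, sub_eq_zero]
      simpa using h
    have h2 := rsEllipse_N_L ha hb (z - w)
    rw [h1] at h2
    have h3 : ‖z - w‖ ^ 2 = 0 := by rw [← h2]; simp [ellN]
    simpa [sub_eq_zero] using h3

theorem rsEllipse_Lc (a b : ℝ) : Continuous (rsEllipse_L a b) :=
  (rsEllipse_L a b).continuous_of_finiteDimensional

theorem rsEllipse_const (x : ℂ) : ∫ _ in ball (0 : ℂ) 1, x = π * x := by
  rw [setIntegral_const, Measure.real, vol_ball_radius zero_le_one]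
  simp

theorem rsEllipse_odd (a b : ℝ) : ∫ z in ball (0 : ℂ) 1, rsEllipse_L a b z = 0 := by
  refine ball_int_zero (Circle.exp π) fun z => ?_
  rw [Circle.coe_exp, Complex.exp_pi_mul_I, neg_one_mul, map_neg]

theorem rsEllipse_sq (a b : ℝ) :
    ∫ z in ball (0 : ℂ) 1, rsEllipse_L a b z ^ 2 = (π / 4 * (a ^ 2 - b ^ 2) : ℝ) := by
  have h1 : ∫ z in ball (0 : ℂ) 1,
      (rsEllipse_L a b z ^ 2 - (((a ^ 2 - b ^ 2) / 2 * ‖z‖ ^ 2 : ℝ) : ℂ)) = 0 := by
    refine ball_int_zero (Circle.exp (π / 2)) fun z => ?_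
    have e : ((Circle.exp (π / 2) : Circle) : ℂ) = Complex.I := by
      rw [Circle.coe_exp]
      push_cast
      exact Complex.exp_pi_div_two_mul_I
    rw [e, norm_mul, Complex.norm_I, one_mul, Complex.sq_norm, Complex.normSq_apply,
      rsEllipse_L_apply, rsEllipse_L_apply]
    apply Complex.ext
    · simp [sq]
      ring
    · simp [sq]
      ring
  have c := rsEllipse_Lc a b
  rw [integral_sub (intOn_ball (by fun_prop) 1) (intOn_ball (by fun_prop) 1), sub_eq_zero] at h1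
  rw [h1, integral_complex_ofReal, integral_const_mul, ball_second_moment]
  congr 1
  ring

theorem rsEllipse_m1 {a b : ℝ} (ha : 0 < a) (hb : 0 < b) (x : ℂ) :
    ∫ z in {z | ellN a b (z - x) < 1}, z = (a * b : ℝ) * (π * x) := by
  rw [rsEllipse_int ha hb x fun z => z,
    integral_add (intOn_ball continuous_const 1) (intOn_ball (rsEllipse_Lc a b) 1),
    rsEllipse_const, rsEllipse_odd, add_zero]

theorem rsEllipse_m2 {a b : ℝ} (ha : 0 < a) (hb : 0 < b) (x : ℂ) :
    ∫ z in {z | ellN a b (z - x) < 1}, z ^ 2 =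
      (a * b : ℝ) * (π * x ^ 2 + (π / 4 * (a ^ 2 - b ^ 2) : ℝ)) := by
  rw [rsEllipse_int ha hb x fun z => z ^ 2]
  have c := rsEllipse_Lc a b
  have e : ∀ z, (x + rsEllipse_L a b z) ^ 2 =
      x ^ 2 + (2 * x * rsEllipse_L a b z + rsEllipse_L a b z ^ 2) := fun z => by ring
  simp only [e]
  rw [integral_add (intOn_ball continuous_const 1) (intOn_ball (by fun_prop) 1),
    integral_add (intOn_ball (by fun_prop) 1) (intOn_ball (by fun_prop) 1), integral_const_mul,
    rsEllipse_const, rsEllipse_odd, rsEllipse_sq, mul_zero, zero_add]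

theorem rsEllipse_ball {R : ℝ} (hR : 0 < R) (x : ℂ) :
    ball x R = {z | ellN R R (z - x) < 1} := by
  ext z
  rw [mem_ball_iff_norm, mem_ofPred_eq, ellN, ← add_div, div_lt_one (by positivity),
    ← sq_lt_sq₀ (norm_nonneg _) hR.le, Complex.sq_norm, Complex.normSq_apply]
  simp only [sq]

theorem rsEllipse_diff {A B : Set ℂ} (hA : MeasurableSet A) (hB : MeasurableSet B) {M c : ℝ}
    (sA : A ⊆ ball 0 M) (sB : B ⊆ ball 0 M) {f : ℂ → ℂ} (hf : Continuous f)
    (hc : ∀ z ∈ ball (0 : ℂ) M, ‖f z‖ ≤ c) :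
    ‖(∫ z in A, f z) - ∫ z in B, f z‖ ≤ c * (volume (symmDiff A B)).toReal := by
  have f1 : volume (A \ B) < ⊤ :=
    (measure_mono (sdiff_subset.trans sA)).trans_lt measure_ball_lt_top
  have f2 : volume (B \ A) < ⊤ :=
    (measure_mono (sdiff_subset.trans sB)).trans_lt measure_ball_lt_top
  rw [int_sub_split hA hB ((intOn_ball hf M).mono_set sA) ((intOn_ball hf M).mono_set sB),
    Set.symmDiff_def, measure_union disjoint_sdiff_sdiff (hB.diff hA),
    ENNReal.toReal_add f1.ne f2.ne, mul_add]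
  exact (norm_sub_le _ _).trans (add_le_add
    (norm_setIntegral_le_of_norm_le_const f1 fun z hz => hc z (sA hz.1))
    (norm_setIntegral_le_of_norm_le_const f2 fun z hz => hc z (sB hz.1)))

/-- Hints: `radius = R`. For a centre `x` let `D` be the area of the symmetric difference with
`ball x R`. If `3R ≤ ‖x‖` the sets are disjoint. Otherwise both lie in `ball 0 (4R)`; first
moments: `π R² ‖x‖ ≤ 4 R D`; second moments of `(z ^ 2).re`: `π / 4 * R² (a² - b²)` on the ellipse
(change of variables to the unit disc, `ball_second_moment`, `ball_int_zero`), `π R² (x ^ 2).re` on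
the disc, so `π / 4 * R² (a² - b²) ≤ 28 R² D` with `a² - b² ≥ 2 ε R²` (`int_sub_split`). -/
theorem ell_asym {R ε : ℝ} (hR : 0 < R) (hε : 0 < ε) (hε1 : ε ≤ 1) :
    ε / 56 ≤ asym (ell (R * (1 + ε)) (R / (1 + ε))) := by
  set a := R * (1 + ε) with ha
  set b := R / (1 + ε) with hb
  have a0 : 0 < a := by positivity
  have b0 : 0 < b := by positivity
  have bR : b ≤ R := div_le_self hR.le (by linarith)
  have Ra : R ≤ a := le_mul_of_one_le_right hR.le (by linarith)
  have a2 : a ≤ 2 * R := by nlinarith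
  have ab : a * b = R ^ 2 := by
    rw [ha, hb]
    field_simp
  have hv : volume (ell a b) = ENNReal.ofReal (π * R ^ 2) := by
    have := ell_vol a0 b0 zero_le_one
    rwa [mul_one, ab] at this
  have pi0 := Real.pi_pos
  have hrad : radius (ell a b) = R := by
    rw [radius, hv, ENNReal.toReal_ofReal (by positivity), mul_div_cancel_left₀ _ pi0.ne',
      Real.sqrt_sq hR.le]
  have hm := (ell_open a b).measurableSet
  have sub := ell_sub b0 (bR.trans Ra)
  rw [asym, hrad]
  refine le_ciInf fun x => ?_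
  rw [vol_ball_radius hR.le, le_div_iff₀ (by positivity)]
  by_cases hx : 3 * R ≤ ‖x‖
  · have s1 : ell a b ⊆ symmDiff (ell a b) (ball x R) := by
      intro z hz
      refine Or.inl ⟨hz, fun h => ?_⟩
      have h1 := mem_ball_zero_iff.1 (sub hz)
      have h2 := mem_ball_iff_norm'.1 h
      have h3 := norm_sub_norm_le x z
      linarith
    have f1 : volume (symmDiff (ell a b) (ball x R)) ≠ ⊤ := by
      refine ((measure_mono symmDiff_subset_union).trans_lt ((measure_union_le _ _).trans_lt ?_)).ne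
      exact ENNReal.add_lt_top.2 ⟨hv ▸ ENNReal.ofReal_lt_top, measure_ball_lt_top⟩
    have h1 := ENNReal.toReal_mono f1 (measure_mono s1)
    rw [hv, ENNReal.toReal_ofReal (by positivity)] at h1
    refine le_trans ?_ h1
    exact mul_le_of_le_one_left (by positivity) (by linarith)
  · have hx' : ‖x‖ < 3 * R := not_le.1 hx
    have s1 : ell a b ⊆ ball 0 (4 * R) := sub.trans (ball_subset_ball (by linarith))
    have s2 : ball x R ⊆ ball 0 (4 * R) := ball_subset_ball' (by rw [dist_zero_right]; linarith)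
    have d1 := rsEllipse_diff hm measurableSet_ball s1 s2 (f := fun z => z) (c := 4 * R)
      continuous_id fun z hz => (mem_ball_zero_iff.1 hz).le
    have d2 := rsEllipse_diff hm measurableSet_ball s1 s2 (f := fun z => z ^ 2) (c := (4 * R) ^ 2)
      (by fun_prop) fun z hz => by
        rw [norm_pow]
        exact pow_le_pow_left₀ (norm_nonneg _) (mem_ball_zero_iff.1 hz).le 2
    have D0 : 0 ≤ (volume (symmDiff (ell a b) (ball x R))).toReal := ENNReal.toReal_nonneg
    generalize (volume (symmDiff (ell a b) (ball x R))).toReal = D at *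
    have e0 : ell a b = {z | ellN a b (z - 0) < 1} := by simp [ell]
    rw [e0, rsEllipse_ball hR, rsEllipse_m1 a0 b0, rsEllipse_m1 hR hR] at d1
    rw [e0, rsEllipse_ball hR, rsEllipse_m2 a0 b0, rsEllipse_m2 hR hR] at d2
    have n1 : R ^ 2 * π * ‖x‖ ≤ 4 * R * D := by
      refine le_trans (le_of_eq ?_) d1
      simp [abs_of_pos hR, abs_of_pos pi0]
      ring
    have ab2 : 2 * ε * R ^ 2 ≤ a ^ 2 - b ^ 2 := by
      have h1 : b ^ 2 ≤ R ^ 2 := pow_le_pow_left₀ b0.le bR 2
      have h2 : a ^ 2 = R ^ 2 * (1 + 2 * ε + ε ^ 2) := by rw [ha]; ring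
      nlinarith [mul_nonneg (sq_nonneg R) (sq_nonneg ε)]
    have n2 : R ^ 2 * (π / 4 * (a ^ 2 - b ^ 2)) - R ^ 2 * π * ‖x‖ ^ 2 ≤ (4 * R) ^ 2 * D := by
      refine le_trans (le_trans (le_of_eq ?_) (norm_sub_norm_le _ _)) d2
      have h1 : 0 ≤ π / 4 * (a ^ 2 - b ^ 2) := by
        have : 0 ≤ a ^ 2 - b ^ 2 := le_trans (by positivity) ab2
        positivity
      rw [ab, norm_mul, norm_mul, sub_self]
      generalize π / 4 * (a ^ 2 - b ^ 2) = T at h1 ⊢
      simp only [ne_eq, OfNat.ofNat_ne_zero, not_false_eq_true, zero_pow, mul_zero, zero_add,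
        Complex.norm_real, Real.norm_eq_abs, abs_of_nonneg h1, Complex.ofReal_zero, add_zero,
        norm_mul, norm_pow, abs_of_pos hR, abs_of_pos pi0]
      ring
    have n3 : R ^ 2 * π * ‖x‖ ^ 2 ≤ 12 * R ^ 2 * D := by
      have := mul_le_mul n1 hx'.le (norm_nonneg x) (by positivity)
      nlinarith
    have n4 : R ^ 2 * (π / 4 * (2 * ε * R ^ 2)) ≤ R ^ 2 * (28 * D) := by
      have : R ^ 2 * (π / 4 * (2 * ε * R ^ 2)) ≤ R ^ 2 * (π / 4 * (a ^ 2 - b ^ 2)) := by gcongr
      nlinarith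
    have n5 := le_of_mul_le_mul_left n4 (by positivity)
    nlinarith

end Pool.Agent.P.MP_832dec_an
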