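import Pool.Agent.P.MP_832dec_an.Sharp.Base

set_option autoImplicit false

open MeasureTheory Set Metric Filter Topology ComplexConjugate Real

namespace Pool.Agent.P.MP_832dec_an

/-- Poincaré inequality with boundary term. Hints: `gg` for `U² * conj z`, real parts:
`∫ (2 U² + 2 U ⟪∇U, z⟫) = ∫ U² (conj z ν).re ≤ L ∫ U² dμ`, `-2 U ⟪∇U, z⟫ ≤ U² + L² ‖∇U‖²`. -/
theorem GG.poincare {Ω : Set ℂ} {μ : Measure ℂ} {ν : ℂ → ℂ} (h : GG Ω μ ν) {L : ℝ}
    (hs : Ω ⊆ ball 0 L) {U : ℂ → ℝ} (hU : ContDiff ℝ 1 U) :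
    ∫ z in Ω, U z ^ 2 ≤ L * ∫ z, U z ^ 2 ∂μ + L ^ 2 * ∫ z in Ω, ‖gradient U z‖ ^ 2 := by
  have Uc := hU.continuous
  have Gc := b_grad_cont hU
  have c1 : ContDiff ℝ 1 fun z => (U z : ℂ) := Complex.ofRealCLM.contDiff.comp hU
  have c2 : ContDiff ℝ 1 fun z : ℂ => conj z := Complex.conjCLE.contDiff
  have c3 := (c1.mul c1).mul c2
  have e := congrArg Complex.re (h.gg _ c3)
  have i1 := h.integrableOn (continuous_dbar c3)
  have i2 : Integrable (fun z => (U z : ℂ) * U z * conj z * ν z) μ :=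
    h.integrable₂ (F := fun p => (U p.1 : ℂ) * U p.1 * conj p.1 * p.2) (by fun_prop)
  have r1 := integral_re i1
  have r2 := integral_re i2
  simp only [RCLike.re_to_complex] at r1 r2
  rw [← r1, ← r2] at e
  have a1 : ∫ z, ((U z : ℂ) * U z * conj z * ν z).re ∂μ ≤ L * ∫ z, U z ^ 2 ∂μ := by
    rw [← integral_const_mul]
    refine integral_mono_ae i2.re (h.integrable (by fun_prop)) ?_
    filter_upwards [h.supp] with z hz
    have hz' := mem_closedBall_zero_iff.1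
      (closure_minimal (hs.trans ball_subset_closedBall) isClosed_closedBall hz)
    refine (Complex.re_le_norm _).trans ?_
    simp only [norm_mul, h.unit, mul_one, Complex.norm_conj, Complex.norm_real, Real.norm_eq_abs,
      abs_mul_abs_self]
    nlinarith [mul_self_nonneg (U z)]
  have j1 : IntegrableOn (fun z => U z ^ 2) Ω := h.integrableOn (by fun_prop)
  have j2 : IntegrableOn (fun z => L ^ 2 * ‖gradient U z‖ ^ 2) Ω := h.integrableOn (by fun_prop)
  have a2 := setIntegral_mono_on (j1.sub j2) i1.re h.isOpen.measurableSet fun z hz => by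
    have hz' := (mem_ball_zero_iff.1 (hs hz)).le
    have d1 := c1.differentiable one_ne_zero z
    rw [dbar_mul (d1.fun_mul d1) (c2.differentiable one_ne_zero z), dbar_mul d1 d1, dbar_conj,
      dbar_ofReal (hU.differentiable one_ne_zero z)]
    have b1 : |(gradient U z * conj z).re| ≤ L * ‖gradient U z‖ := by
      refine (Complex.abs_re_le_norm _).trans ?_
      rw [norm_mul, Complex.norm_conj, mul_comm]
      exact mul_le_mul_of_nonneg_right hz' (norm_nonneg _)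
    have b2 : RCLike.re ((gradient U z * U z + U z * gradient U z) * conj z + U z * U z * 2) =
        2 * U z * (gradient U z * conj z).re + 2 * U z ^ 2 := by
      simp
      ring
    rw [b2, Pi.sub_apply]
    have b3 := sq_le_sq' (abs_le.1 b1).1 (abs_le.1 b1).2
    nlinarith [sq_nonneg (U z + (gradient U z * conj z).re)]
  simp only [Pi.sub_apply, RCLike.re_to_complex] at a2
  rw [integral_sub j1 j2, integral_const_mul] at a2
  linarith

/-- Riesz representation on the closure of the range. -/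
theorem rsExist_riesz {X A K : Type*} [AddCommGroup X] [Module ℝ X] [NormedAddCommGroup A]
    [NormedSpace ℝ A] [CompleteSpace A] [NormedAddCommGroup K] [InnerProductSpace ℝ K]
    [CompleteSpace K] (a : X →ₗ[ℝ] A) (k : X →ₗ[ℝ] K) (hM : ∃ M, ∀ x, ‖a x‖ ≤ M * ‖k x‖)
    (l : A →L[ℝ] ℝ) : ∃ (u : A) (v : K) (x : ℕ → X), Tendsto (fun n => a (x n)) atTop (𝓝 u) ∧
      Tendsto (fun n => k (x n)) atTop (𝓝 v) ∧ ∀ φ, inner ℝ v (k φ) = l (a φ) := by
  let V := (LinearMap.range k).topologicalClosure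
  let e : X →ₗ[ℝ] V := k.codRestrict V fun x =>
    (LinearMap.range k).le_topologicalClosure (LinearMap.mem_range_self k x)
  have hd : DenseRange e := by
    intro v
    rw [closure_subtype, ← range_comp]
    exact v.2
  have hT := LinearMap.extendOfNorm_eq (f := a) hd hM
  let v := (InnerProductSpace.toDual ℝ V).symm (l.comp (a.extendOfNorm e))
  obtain ⟨y, hy, hv⟩ := mem_closure_iff_seq_limit.1 (hd v)
  choose x hx using hy
  replace hv := hv.congr fun n => (hx n).symm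
  refine ⟨a.extendOfNorm e v, v, x, ?_, (continuous_subtype_val.tendsto v).comp hv, fun φ => ?_⟩
  · simpa only [Function.comp_def, hT] using ((a.extendOfNorm e).continuous.tendsto v).comp hv
  · rw [← hT φ]
    exact InnerProductSpace.toDual_symm_apply (x := e φ)

theorem rsExist_abs {X A B C : Type*} [AddCommGroup X] [Module ℝ X] [NormedAddCommGroup A]
    [NormedSpace ℝ A] [CompleteSpace A] [NormedAddCommGroup B] [InnerProductSpace ℝ B]
    [CompleteSpace B] [NormedAddCommGroup C] [InnerProductSpace ℝ C] [CompleteSpace C]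
    (a : X →ₗ[ℝ] A) (b : X →ₗ[ℝ] B) (c : X →ₗ[ℝ] C) {L β : ℝ} (hL : 0 ≤ L) (hβ : 0 < β)
    (hM : ∀ x, ‖a x‖ ^ 2 ≤ L * ‖c x‖ ^ 2 + L ^ 2 * ‖b x‖ ^ 2) (l : A →L[ℝ] ℝ) :
    ∃ (u : A) (G : B) (g : C) (x : ℕ → X), Tendsto (fun n => a (x n)) atTop (𝓝 u) ∧
      Tendsto (fun n => b (x n)) atTop (𝓝 G) ∧ Tendsto (fun n => c (x n)) atTop (𝓝 g) ∧
      ∀ φ, inner ℝ G (b φ) + β * inner ℝ g (c φ) = l (a φ) := by
  have s0 : 0 < √β := Real.sqrt_pos.2 hβ
  have s2 : √β ^ 2 = β := Real.sq_sqrt hβ.le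
  obtain ⟨u, v, x, h1, h2, h3⟩ := rsExist_riesz a
    ((WithLp.linearEquiv 2 ℝ (B × C)).symm.toLinearMap ∘ₗ b.prod (√β • c))
    ⟨√(L / β + L ^ 2), fun x => by
      refine abs_le_of_sq_le_sq' ((hM x).trans ?_) (by positivity) |>.2
      rw [mul_pow, Real.sq_sqrt (by positivity), WithLp.prod_norm_sq_eq_of_L2]
      change _ ≤ _ * (‖b x‖ ^ 2 + ‖√β • c x‖ ^ 2)
      rw [norm_smul, mul_pow, Real.norm_eq_abs, sq_abs, s2]
      have e : L / β * β = L := div_mul_cancel₀ _ hβ.ne'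
      have p1 : 0 ≤ L / β * ‖b x‖ ^ 2 := by positivity
      have p2 : 0 ≤ L ^ 2 * (β * ‖c x‖ ^ 2) := by positivity
      have p3 : L / β * (β * ‖c x‖ ^ 2) = L * ‖c x‖ ^ 2 := by rw [← mul_assoc, e]
      linarith [mul_add (L / β + L ^ 2) (‖b x‖ ^ 2) (β * ‖c x‖ ^ 2),
        add_mul (L / β) (L ^ 2) (‖b x‖ ^ 2), add_mul (L / β) (L ^ 2) (β * ‖c x‖ ^ 2)]⟩ l
  refine ⟨u, v.fst, (√β)⁻¹ • v.snd, x, h1, ((WithLp.continuous_fst 2 B C).tendsto v).comp h2, ?_,
    fun φ => ?_⟩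
  · refine ((((WithLp.continuous_snd 2 B C).tendsto v).comp h2).const_smul (√β)⁻¹).congr fun n => ?_
    exact inv_smul_smul₀ s0.ne' _
  · rw [← h3, WithLp.prod_inner_apply]
    change _ = inner ℝ v.fst (b φ) + inner ℝ v.snd (√β • c φ)
    rw [real_inner_smul_left, real_inner_smul_right, ← mul_assoc]
    congr 2
    rw [mul_inv_eq_iff_eq_mul₀ s0.ne', ← sq, s2]

theorem rsExist_lift {X E : Type*} [AddCommGroup X] [Module ℝ X] [NormedAddCommGroup E]
    [InnerProductSpace ℝ E] {μ : Measure ℂ} (T : X →ₗ[ℝ] ℂ → E) (hT : ∀ x, MemLp (T x) 2 μ) :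
    ∃ a : X →ₗ[ℝ] Lp E 2 μ, (∀ x, ‖a x‖ ^ 2 = ∫ z, ‖T x z‖ ^ 2 ∂μ) ∧
      (∀ G x, inner ℝ G (a x) = ∫ z, inner ℝ (G z) (T x z) ∂μ) ∧
      ∀ (x : ℕ → X) (G : Lp E 2 μ), Tendsto (fun n => a (x n)) atTop (𝓝 G) →
        Tendsto (fun n => eLpNorm (T (x n) - ⇑G) 2 μ) atTop (𝓝 0) := by
  refine ⟨⟨⟨fun x => (hT x).toLp _, fun x y => ?_⟩, fun r x => ?_⟩, fun x => ?_, fun G x => ?_,
    fun x G hx => ?_⟩
  · rw [← MemLp.toLp_add]
    exact MemLp.toLp_congr _ _ (by rw [map_add])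
  · rw [RingHom.id_apply, ← MemLp.toLp_const_smul]
    exact MemLp.toLp_congr (hT _) _ (by rw [map_smul])
  · rw [← real_inner_self_eq_norm_sq, L2.inner_def]
    refine integral_congr_ae ((hT x).coeFn_toLp.mono fun z hz => ?_)
    simp only [LinearMap.coe_mk, AddHom.coe_mk, hz, real_inner_self_eq_norm_sq]
  · rw [L2.inner_def]
    exact integral_congr_ae ((hT x).coeFn_toLp.mono fun z hz => congrArg (inner ℝ (G z)) hz)
  · refine ((Lp.tendsto_Lp_iff_tendsto_eLpNorm' _ _).1 hx).congr fun n => eLpNorm_congr_ae ?_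
    exact (hT (x n)).coeFn_toLp.sub EventuallyEq.rfl

/-- Existence of the weak solution. Hints: `H = WithLp 2 (Lp ℝ 2 volΩ × WithLp 2 (Lp ℂ 2 volΩ ×
Lp ℝ 2 (bdry Ω)))`, real Hilbert space; `S` the subspace of the triples `(U, ∇U, U)` with `U` of
class `C¹` (`b_memΩ`, `b_memμ`, `MemLp.toLp`), `V = S.topologicalClosure`;
`B v w = ⟪v.2.1, w.2.1⟫ + β ⟪v.2.2, w.2.2⟫` is coercive on `V` (Poincaré is a closed condition);
Lax-Milgram `IsCoercive.continuousLinearEquivOfBilin_apply` for the functional `w ↦ ⟪1, w.1⟫`;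
`mem_closure_iff_seq_limit` and `Lp.tendsto_Lp_iff_tendsto_eLpNorm` give `HasTrace`. Any other
proof is welcome. -/
theorem robin_exists {Ω : Set ℂ} {ν : ℂ → ℂ} (h : GG Ω (bdry Ω) ν) {β : ℝ} (hβ : 0 < β) :
    ∃ u : ℂ → ℝ, IsRobinSolution Ω β u := by
  let X : Submodule ℝ (ℂ → ℝ) :=
    ⟨⟨⟨{U | ContDiff ℝ 1 U}, fun {U V} (hU : ContDiff ℝ 1 U) (hV : ContDiff ℝ 1 V) => hU.add hV⟩,
      (contDiff_const : ContDiff ℝ 1 fun _ : ℂ => (0 : ℝ))⟩,
      fun r U (hU : ContDiff ℝ 1 U) => hU.const_smul r⟩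
  have hX : ∀ U : X, ContDiff ℝ 1 U.1 := fun U => U.2
  have dX : ∀ (U : X) z, DifferentiableAt ℝ U.1 z := fun U z =>
    (hX U).differentiable one_ne_zero z
  let T : X →ₗ[ℝ] ℂ → ℂ := ⟨⟨fun U => gradient U.1, fun U V => funext fun z => by
    rw [Pi.add_apply, gradient, gradient, gradient, ← map_add, ← fderiv_add (dX U z) (dX V z)]
    rfl⟩, fun r U => funext fun z => by
    simp only [RingHom.id_apply, Pi.smul_apply, gradient]
    rw [← map_smul, ← fderiv_const_smul (dX U z)]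
    rfl⟩
  obtain ⟨a, a1, a2, a3⟩ := rsExist_lift X.subtype fun U => b_memΩ h (hX U).continuous
  obtain ⟨b, b1, b2, b3⟩ := rsExist_lift T fun U => b_memΩ h (b_grad_cont (hX U))
  obtain ⟨c, c1, c2, c3⟩ := rsExist_lift X.subtype fun U => b_memμ h (hX U).continuous
  obtain ⟨L, hL, hs⟩ := h.bdd.subset_ball_lt 0 0
  have one : MemLp (fun _ : ℂ => (1 : ℝ)) 2 (volume.restrict Ω) := b_memΩ h continuous_const
  obtain ⟨u, G, g, x, h1, h2, h3, h4⟩ := rsExist_abs a b c hL.le hβ (fun U => by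
    rw [a1, b1, c1]
    simp only [Real.norm_eq_abs, sq_abs]
    exact h.poincare hs (hX U)) (innerSL ℝ (one.toLp _))
  refine ⟨u, G, g, ⟨Lp.memLp u, Lp.memLp G, Lp.memLp g, fun n => (x n).1, fun n => hX _,
    a3 x u h1, b3 x G h2, c3 x g h3⟩, fun φ hφ => ?_⟩
  have e := h4 ⟨φ, hφ⟩
  rw [innerSL_apply_apply, a2, b2, c2] at e
  have e1 : ∫ z in Ω, inner ℝ (one.toLp _ z) (φ z) = ∫ z in Ω, φ z :=
    integral_congr_ae (one.coeFn_toLp.mono fun z hz => by simp [hz])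
  have e2 : ∫ z, inner ℝ (g z) (φ z) ∂(bdry Ω) = ∫ z, g z * φ z ∂(bdry Ω) :=
    integral_congr_ae (.of_forall fun z => by simp [mul_comm])
  rw [← e1, ← e2]
  exact e

end Pool.Agent.P.MP_832dec_an
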