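import Pool.Agent.P.MP_832dec_an.Sharp.Base

set_option autoImplicit false

open MeasureTheory Set Metric Filter Topology ComplexConjugate Real

namespace Pool.Agent.P.MP_832dec_an

theorem rsKernel_norm_cis (θ : ℝ) : ‖cis θ‖ = 1 := Complex.norm_exp_ofReal_mul_I θ

theorem rsKernel_cis_mul (θ : ℝ) : cis θ * cis (-θ) = 1 := by
  unfold cis
  rw [← Complex.exp_add]
  simp

theorem rsKernel_cont_cis : Continuous cis := by
  unfold cis
  fun_prop

theorem rsKernel_norm_v (w : ℂ) (θ : ℝ) : ‖w * cis (-θ)‖ = ‖w‖ := by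
  rw [norm_mul, rsKernel_norm_cis, mul_one]

theorem rsKernel_ne {v : ℂ} (hv : ‖v‖ < 1) : 1 - v ≠ 0 := by
  intro h
  rw [← sub_eq_zero.1 h, norm_one] at hv
  exact lt_irrefl _ hv

theorem rsKernel_re (v : ℂ) : Pois v = ((1 + v) / (1 - v)).re := by
  unfold Pois
  rw [Complex.div_re, Complex.normSq_eq_norm_sq (1 - v), ← add_div, Complex.sq_norm v,
    Complex.normSq_apply]
  congr 1
  simp
  ring

theorem rsKernel_intOn {E : Type*} [NormedAddCommGroup E] [NormedSpace ℝ E] {f : ℂ → ℝ}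
    (hf : Measurable f) (h1 : ∀ z, |f z| ≤ 1) {g : ℝ → E} (hg : Continuous g) :
    IntegrableOn (fun θ => f (cis θ) • g θ) (Ioo (-π) π) := by
  have hi : IntegrableOn g (Ioo (-π) π) :=
    (hg.continuousOn.integrableOn_Icc (a := -π) (b := π)).mono_set Ioo_subset_Icc_self
  refine Integrable.mono' hi.norm
    ((hf.comp rsKernel_cont_cis.measurable).aestronglyMeasurable.smul hg.aestronglyMeasurable)
    (Eventually.of_forall fun θ => ?_)
  rw [norm_smul, Real.norm_eq_abs]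
  exact mul_le_of_le_one_left (norm_nonneg _) (h1 _)

theorem rsKernel_bound {E : Type*} [NormedAddCommGroup E] [NormedSpace ℝ E] {F : ℝ → E}
    {g : ℝ → ℝ} (hg : Continuous g) (h : ∀ θ, ‖F θ‖ ≤ g θ) :
    ‖∫ θ in Ioo (-π) π, F θ‖ ≤ ∫ θ in Ioo (-π) π, g θ :=
  norm_integral_le_of_norm_le
    ((hg.continuousOn.integrableOn_Icc (a := -π) (b := π)).mono_set Ioo_subset_Icc_self)
    (Eventually.of_forall h)

theorem rsKernel_const (C : ℝ) : ∫ _θ in Ioo (-π) π, C = 2 * π * C := by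
  have := Real.pi_pos
  rw [setIntegral_const, Real.volume_real_Ioo_of_le (by linarith), smul_eq_mul]
  ring

/-- Hints: `DiffContOnCl.circleAverage_poissonKernel_smul` with the constant function, `c = 0`,
`R = 1`, `‖1 - w * cis (-θ)‖ = ‖cis θ - w‖`, and periodicity
(`Function.Periodic.intervalIntegral_add_eq`). -/
theorem pois_int {w : ℂ} (hw : ‖w‖ < 1) :
    ∫ θ in Ioo (-π) π, Pois (w * cis (-θ)) = 2 * π := by
  have hpi := Real.pi_pos
  have h := DiffContOnCl.circleAverage_poissonKernel_smul (f := fun _ : ℂ => (1 : ℂ)) (c := 0)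
    (R := 1) (w := w) diffContOnCl_const (by simpa using hw)
  rw [Real.circleAverage_def] at h
  have e : ∀ θ : ℝ, (poissonKernel 0 w • fun _ : ℂ => (1 : ℂ)) (circleMap 0 1 θ) =
      ((Pois (w * cis (-θ)) : ℝ) : ℂ) := by
    intro θ
    have e1 : circleMap 0 1 θ = cis θ := by simp [circleMap, cis]
    have e2 : cis θ - w = cis θ * (1 - w * cis (-θ)) := by
      linear_combination w * rsKernel_cis_mul θ
    rw [Pi.smul_apply', e1, poissonKernel_def, Complex.real_smul, mul_one, sub_zero, sub_zero, e2,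
      norm_mul, rsKernel_norm_cis, one_mul, Pois, rsKernel_norm_v, one_pow]
  simp only [e] at h
  rw [intervalIntegral.integral_ofReal, Complex.real_smul, ← Complex.ofReal_mul,
    Complex.ofReal_eq_one] at h
  have hp : Function.Periodic (fun θ : ℝ => Pois (w * cis (-θ))) (2 * π) := by
    intro θ
    have : cis (-(θ + 2 * π)) = cis (-θ) := by
      unfold cis
      rw [← Complex.exp_periodic.sub_eq (((-θ : ℝ) : ℂ) * Complex.I)]
      congr 1
      push_cast
      ring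
    simp only [this]
  have h2 := hp.intervalIntegral_add_eq (-π) 0
  rw [zero_add, show -π + 2 * π = π by ring, intervalIntegral.integral_of_le (by linarith),
    integral_Ioc_eq_integral_Ioo] at h2
  rw [h2]
  field_simp at h
  linarith

theorem pois_nonneg {w : ℂ} (hw : ‖w‖ < 1) : 0 ≤ Pois w := by
  have h : ‖w‖ ^ 2 ≤ 1 := pow_le_one₀ (norm_nonneg _) hw.le
  exact div_nonneg (by linarith) (by positivity)

theorem pois_cont {w : ℂ} (hw : ‖w‖ < 1) : Continuous fun θ : ℝ => Pois (w * cis (-θ)) := by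
  have hv : Continuous fun θ : ℝ => w * cis (-θ) :=
    continuous_const.mul (rsKernel_cont_cis.comp continuous_neg)
  exact (continuous_const.sub (hv.norm.pow 2)).div ((continuous_const.sub hv).norm.pow 2) fun θ =>
    pow_ne_zero 2 (norm_ne_zero_iff.2 (rsKernel_ne (by rw [rsKernel_norm_v]; exact hw)))

theorem PF_meas {f : ℂ → ℝ} (hf : Measurable f) : Measurable (PF f) := by
  have hP : Measurable Pois := by
    unfold Pois
    fun_prop
  have hc := rsKernel_cont_cis.measurable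
  have hF : Measurable fun p : ℂ × ℝ => f (cis p.2) * Pois (p.1 * cis (-p.2)) :=
    (hf.comp (hc.comp measurable_snd)).mul
      (hP.comp (measurable_fst.mul (hc.comp measurable_snd.neg)))
  exact (hF.stronglyMeasurable.integral_prod_right'
    (ν := volume.restrict (Ioo (-π) π))).measurable.const_mul _

theorem PF_abs {f : ℂ → ℝ} (hf : Measurable f) (h1 : ∀ z, |f z| ≤ 1) {w : ℂ} (hw : ‖w‖ < 1) :
    |PF f w| ≤ 1 := by
  have hpi := Real.pi_pos
  have h := rsKernel_bound (F := fun θ => f (cis θ) * Pois (w * cis (-θ))) (pois_cont hw) fun θ => by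
    have p : 0 ≤ Pois (w * cis (-θ)) := pois_nonneg (by rw [rsKernel_norm_v]; exact hw)
    rw [norm_mul, Real.norm_eq_abs, Real.norm_eq_abs, abs_of_nonneg p]
    exact mul_le_of_le_one_left p (h1 _)
  rw [pois_int hw, Real.norm_eq_abs] at h
  rw [PF, abs_mul, abs_of_pos (by positivity), inv_mul_le_iff₀ (by positivity), mul_one]
  exact h

theorem rsKernel_diff {v v' : ℂ} (hv : ‖v‖ < 1) (hv' : ‖v'‖ < 1) :
    |Pois v - Pois v'| ≤ ‖v - v'‖ * (Pois v / (1 - ‖v‖) + Pois v' / (1 - ‖v'‖)) := by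
  have h1 := rsKernel_ne hv
  have h2 := rsKernel_ne hv'
  have n1 : 0 < ‖1 - v‖ := norm_pos_iff.2 h1
  have n2 : 0 < ‖1 - v'‖ := norm_pos_iff.2 h2
  have key : ∀ u : ℂ, ‖u‖ < 1 → 1 / ‖1 - u‖ ^ 2 ≤ Pois u / (1 - ‖u‖) := by
    intro u hu
    have n : 0 < ‖1 - u‖ := norm_pos_iff.2 (rsKernel_ne hu)
    have p : 0 < 1 - ‖u‖ := by linarith
    have e : Pois u / (1 - ‖u‖) = (1 + ‖u‖) / ‖1 - u‖ ^ 2 := by
      unfold Pois
      field_simp
      ring
    rw [e]
    exact div_le_div_of_nonneg_right (by linarith [norm_nonneg u]) (by positivity)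
  have e : (1 + v) / (1 - v) - (1 + v') / (1 - v') = 2 * (v - v') / ((1 - v) * (1 - v')) := by
    field_simp
    ring
  have a : |Pois v - Pois v'| ≤ ‖v - v'‖ * (2 * (1 / ‖1 - v‖) * (1 / ‖1 - v'‖)) := by
    rw [rsKernel_re, rsKernel_re, ← Complex.sub_re, e]
    refine (Complex.abs_re_le_norm _).trans (le_of_eq ?_)
    rw [norm_div, norm_mul, norm_mul, Complex.norm_two]
    field_simp
  refine a.trans (mul_le_mul_of_nonneg_left ?_ (norm_nonneg _))
  have b := two_mul_le_add_sq (1 / ‖1 - v‖) (1 / ‖1 - v'‖)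
  rw [div_pow, div_pow, one_pow] at b
  linarith [key v hv, key v' hv']

/-- Hints: `Pois v = ((1 + v) / (1 - v)).re`, the difference of the two quotients has norm
`2 ‖v - v'‖ / (‖1 - v‖ ‖1 - v'‖) ≤ ‖v - v'‖ (Pois v / (1 - ‖v‖²) + Pois v' / (1 - ‖v'‖²))`. -/
theorem PF_lip {f : ℂ → ℝ} (hf : Measurable f) (h1 : ∀ z, |f z| ≤ 1) {w w' : ℂ} (hw : ‖w‖ < 1)
    (hw' : ‖w'‖ < 1) :
    |PF f w - PF f w'| ≤ ‖w - w'‖ * (1 / (1 - ‖w‖) + 1 / (1 - ‖w'‖)) := by
  have hpi := Real.pi_pos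
  have c1 := pois_cont hw
  have c2 := pois_cont hw'
  have i1 : IntegrableOn (fun θ => f (cis θ) * Pois (w * cis (-θ))) (Ioo (-π) π) :=
    rsKernel_intOn hf h1 c1
  have i2 : IntegrableOn (fun θ => f (cis θ) * Pois (w' * cis (-θ))) (Ioo (-π) π) :=
    rsKernel_intOn hf h1 c2
  have j1 : IntegrableOn (fun θ => Pois (w * cis (-θ))) (Ioo (-π) π) :=
    (c1.continuousOn.integrableOn_Icc (a := -π) (b := π)).mono_set Ioo_subset_Icc_self
  have j2 : IntegrableOn (fun θ => Pois (w' * cis (-θ))) (Ioo (-π) π) :=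
    (c2.continuousOn.integrableOn_Icc (a := -π) (b := π)).mono_set Ioo_subset_Icc_self
  have h := rsKernel_bound
    (F := fun θ => f (cis θ) * Pois (w * cis (-θ)) - f (cis θ) * Pois (w' * cis (-θ)))
    (g := fun θ => ‖w - w'‖ * (Pois (w * cis (-θ)) / (1 - ‖w‖) + Pois (w' * cis (-θ)) / (1 - ‖w'‖)))
    (continuous_const.mul ((c1.div_const _).add (c2.div_const _))) fun θ => by
      have a := rsKernel_diff (v := w * cis (-θ)) (v' := w' * cis (-θ))
        (by rw [rsKernel_norm_v]; exact hw) (by rw [rsKernel_norm_v]; exact hw')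
      rw [← sub_mul, rsKernel_norm_v, rsKernel_norm_v, rsKernel_norm_v] at a
      rw [← mul_sub, norm_mul, Real.norm_eq_abs, Real.norm_eq_abs]
      exact (mul_le_of_le_one_left (abs_nonneg _) (h1 _)).trans a
  rw [integral_sub i1 i2, integral_const_mul, integral_add (j1.div_const _) (j2.div_const _),
    integral_div, integral_div, pois_int hw, pois_int hw', Real.norm_eq_abs] at h
  rw [PF, PF, ← mul_sub, abs_mul, abs_of_pos (by positivity), inv_mul_le_iff₀ (by positivity)]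
  refine h.trans (le_of_eq ?_)
  ring

/-- the Fourier coefficients of the boundary values -/
noncomputable def rsKernel_co (f : ℂ → ℝ) (k : ℕ) : ℂ :=
  (2 * π)⁻¹ • ∫ θ in Ioo (-π) π, f (cis θ) • cis (-θ) ^ k

theorem rsKernel_bessel {f : ℂ → ℝ} (hf : Measurable f) (h1 : ∀ z, |f z| ≤ 1) (N : ℕ) :
    ∑ k ∈ Finset.range N, ‖rsKernel_co f k‖ ^ 2 ≤ 1 := by
  have hpi := Real.pi_pos
  have hab : -π < π := by linarith
  have hm : Measurable fun θ => f (cis θ) := hf.comp rsKernel_cont_cis.measurable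
  have hL : MemLp (fun θ => (f (cis θ) : ℂ)) 2 (volume.restrict (Ioc (-π) π)) :=
    MemLp.of_bound (Complex.measurable_ofReal.comp hm).aestronglyMeasurable 1
      (Eventually.of_forall fun θ => by simpa using h1 _)
  have hP := hasSum_sq_fourierCoeffOn hab hL
  have e : ∀ k : ℕ, fourierCoeffOn hab (fun θ => (f (cis θ) : ℂ)) (k : ℤ) = rsKernel_co f k := by
    intro k
    rw [fourierCoeffOn_eq_integral, intervalIntegral.integral_of_le hab.le,
      integral_Ioc_eq_integral_Ioo, rsKernel_co]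
    congr 1
    · ring
    · refine integral_congr_ae (Eventually.of_forall fun θ => ?_)
      simp only [fourier_coe_apply, smul_eq_mul, Complex.real_smul, cis]
      rw [mul_comm, ← Complex.exp_nat_mul]
      congr 2
      have : (π : ℂ) ≠ 0 := by exact_mod_cast hpi.ne'
      push_cast
      field_simp
      ring
  have h2 := sum_le_hasSum ((Finset.range N).map ⟨((↑) : ℕ → ℤ), Nat.cast_injective⟩)
    (fun i _ => by positivity) hP
  rw [Finset.sum_map] at h2
  simp only [Function.Embedding.coeFn_mk, e] at h2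
  refine h2.trans ?_
  rw [intervalIntegral.integral_of_le hab.le, integral_Ioc_eq_integral_Ioo, smul_eq_mul]
  have h3 := rsKernel_bound (F := fun θ => ‖(f (cis θ) : ℂ)‖ ^ 2) (g := fun _ => 1)
    continuous_const fun θ => by
      rw [norm_pow, norm_norm, Complex.norm_real, Real.norm_eq_abs]
      exact pow_le_one₀ (abs_nonneg _) (h1 _)
  rw [rsKernel_const] at h3
  have h4 := (le_abs_self _).trans h3
  rw [inv_mul_le_iff₀ (by linarith)]
  linarith

theorem rsKernel_co_le {f : ℂ → ℝ} (hf : Measurable f) (h1 : ∀ z, |f z| ≤ 1) (k : ℕ) :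
    ‖rsKernel_co f k‖ ≤ 1 := by
  have h := (Finset.single_le_sum (f := fun k => ‖rsKernel_co f k‖ ^ 2) (fun i _ => by positivity)
    (Finset.self_mem_range_succ k)).trans (rsKernel_bessel hf h1 (k + 1))
  exact (pow_le_one_iff_of_nonneg (norm_nonneg _) two_ne_zero).1 h

theorem rsKernel_tail {f : ℂ → ℝ} (hf : Measurable f) (h1 : ∀ z, |f z| ≤ 1) (n : ℕ) :
    ∑ j ∈ Finset.range n, ‖rsKernel_co f (j + 2)‖ ^ 2 ≤ 1 := by
  have h := rsKernel_bessel hf h1 (n + 2)
  rw [Finset.sum_range_succ', Finset.sum_range_succ'] at h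
  have a := sq_nonneg ‖rsKernel_co f 0‖
  have b := sq_nonneg ‖rsKernel_co f (0 + 1)‖
  have e : ∑ j ∈ Finset.range n, ‖rsKernel_co f (j + 1 + 1)‖ ^ 2 =
      ∑ j ∈ Finset.range n, ‖rsKernel_co f (j + 2)‖ ^ 2 := rfl
  linarith

theorem rsKernel_trunc {f : ℂ → ℝ} (hf : Measurable f) (h1 : ∀ z, |f z| ≤ 1) {w : ℂ}
    (hw : ‖w‖ < 1) (N : ℕ) :
    |(∑ k ∈ Finset.range N, 2 * rsKernel_co f k * w ^ k - rsKernel_co f 0).re - PF f w| ≤
      2 * ‖w‖ ^ N / (1 - ‖w‖) := by
  have hpi := Real.pi_pos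
  have hc : Continuous fun θ : ℝ => cis (-θ) := rsKernel_cont_cis.comp continuous_neg
  have hv : Continuous fun θ : ℝ => w * cis (-θ) := continuous_const.mul hc
  have hne : ∀ θ : ℝ, 1 - w * cis (-θ) ≠ 0 := fun θ =>
    rsKernel_ne (by rw [rsKernel_norm_v]; exact hw)
  have c1 : Continuous fun θ : ℝ => (1 + w * cis (-θ)) / (1 - w * cis (-θ)) :=
    (continuous_const.add hv).div (continuous_const.sub hv) hne
  have c2 : Continuous fun θ : ℝ => 2 * (w * cis (-θ)) ^ N / (1 - w * cis (-θ)) :=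
    (continuous_const.mul (hv.pow N)).div (continuous_const.sub hv) hne
  have i1 := rsKernel_intOn hf h1 c1
  have i2 := rsKernel_intOn hf h1 c2
  have ik : ∀ k : ℕ, IntegrableOn (fun θ => f (cis θ) • cis (-θ) ^ k) (Ioo (-π) π) := fun k =>
    rsKernel_intOn hf h1 (hc.pow k)
  have e1 : ∑ k ∈ Finset.range N, 2 * rsKernel_co f k * w ^ k - rsKernel_co f 0 =
      (2 * π)⁻¹ • ((∫ θ in Ioo (-π) π, f (cis θ) • ((1 + w * cis (-θ)) / (1 - w * cis (-θ)))) -
        ∫ θ in Ioo (-π) π, f (cis θ) • (2 * (w * cis (-θ)) ^ N / (1 - w * cis (-θ)))) := by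
    have a : ∀ k : ℕ, 2 * rsKernel_co f k * w ^ k =
        (2 * π)⁻¹ • ∫ θ in Ioo (-π) π, 2 * w ^ k * (f (cis θ) • cis (-θ) ^ k) := by
      intro k
      rw [integral_const_mul, rsKernel_co, Complex.real_smul, Complex.real_smul]
      ring
    simp only [a]
    rw [← Finset.smul_sum, rsKernel_co, ← smul_sub,
      ← integral_finsetSum _ fun k _ => (ik k).const_mul _,
      ← integral_sub (integrable_finsetSum _ fun k _ => (ik k).const_mul _) (ik 0),
      ← integral_sub i1 i2]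
    congr 1
    refine integral_congr_ae (Eventually.of_forall fun θ => ?_)
    have g := mul_neg_geom_sum (w * cis (-θ)) N
    have s : ∑ k ∈ Finset.range N, 2 * w ^ k * (f (cis θ) • cis (-θ) ^ k) =
        2 * f (cis θ) * ∑ k ∈ Finset.range N, (w * cis (-θ)) ^ k := by
      rw [Finset.mul_sum]
      refine Finset.sum_congr rfl fun k _ => ?_
      rw [Complex.real_smul, mul_pow]
      ring
    have hn := hne θ
    simp only []
    rw [s]
    simp only [Complex.real_smul, pow_zero]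
    field_simp
    linear_combination 2 * (f (cis θ) : ℂ) * g
  have e2 : (∫ θ in Ioo (-π) π, f (cis θ) • ((1 + w * cis (-θ)) / (1 - w * cis (-θ)))).re =
      ∫ θ in Ioo (-π) π, f (cis θ) * Pois (w * cis (-θ)) := by
    have := integral_re (𝕜 := ℂ) i1
    simp only [RCLike.re_to_complex] at this
    rw [← this]
    refine integral_congr_ae (Eventually.of_forall fun θ => ?_)
    simp only [rsKernel_re, Complex.smul_re, smul_eq_mul]
  have p : 0 < 1 - ‖w‖ := by linarith
  have h3 := rsKernel_bound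
    (F := fun θ => f (cis θ) • (2 * (w * cis (-θ)) ^ N / (1 - w * cis (-θ))))
    (g := fun _ => 2 * ‖w‖ ^ N / (1 - ‖w‖)) continuous_const fun θ => by
      rw [norm_smul, Real.norm_eq_abs]
      refine (mul_le_of_le_one_left (norm_nonneg _) (h1 _)).trans ?_
      rw [norm_div, norm_mul, norm_pow, rsKernel_norm_v, Complex.norm_two]
      refine div_le_div_of_nonneg_left (by positivity) p ?_
      have := norm_sub_norm_le (1 : ℂ) (w * cis (-θ))
      rwa [norm_one, rsKernel_norm_v] at this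
  rw [rsKernel_const] at h3
  have h4 := (Complex.abs_re_le_norm _).trans h3
  rw [e1, Complex.smul_re, Complex.sub_re, e2, PF, smul_eq_mul, ← mul_sub, sub_sub_cancel_left,
    abs_mul, abs_neg, abs_of_pos (by positivity), inv_mul_le_iff₀ (by positivity)]
  exact h4

theorem rsKernel_inv_sq (n : ℕ) : ∑ j ∈ Finset.range n, (1 / ((j : ℝ) + 1)) ^ 2 ≤ 2 := by
  have key : ∀ n : ℕ, ∑ j ∈ Finset.range n, (1 / ((j : ℝ) + 1)) ^ 2 ≤ 2 - 2 / ((n : ℝ) + 1) := by
    intro n
    induction n with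
    | zero => simp
    | succ n ih =>
      rw [Finset.sum_range_succ]
      have h0 : (0 : ℝ) ≤ n := Nat.cast_nonneg n
      have : (1 / ((n : ℝ) + 1)) ^ 2 ≤ 2 / ((n : ℝ) + 1) - 2 / ((n : ℝ) + 1 + 1) := by
        rw [div_pow, div_sub_div _ _ (by positivity) (by positivity),
          div_le_div_iff₀ (by positivity) (by positivity)]
        nlinarith [mul_nonneg h0 h0]
      push_cast
      linarith
  have := key n
  have h0 : (0 : ℝ) ≤ 2 / ((n : ℝ) + 1) := by positivity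
  linarith

theorem rsKernel_geom {x : ℝ} (h0 : 0 ≤ x) (h1 : x < 1) (n : ℕ) :
    (∑ j ∈ Finset.range n, (x ^ (j + 1)) ^ 2) * (1 - x) ≤ 1 := by
  have a : ∑ j ∈ Finset.range n, (x ^ (j + 1)) ^ 2 ≤ ∑ j ∈ Finset.range n, x ^ j :=
    Finset.sum_le_sum fun j _ => by
      rw [← pow_mul]
      exact pow_le_pow_of_le_one h0 h1.le (by omega)
  have b := mul_neg_geom_sum x n
  have c : 0 ≤ x ^ n := pow_nonneg h0 n
  have d := mul_le_mul_of_nonneg_right a (sub_nonneg.2 h1.le)
  linarith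

/-- Hints: `α k = (2π)⁻¹ ∫ f (cis θ) * cis (-θ) ^ k`; Bessel `∑ ‖α k‖² ≤ 1`
(`hasSum_sq_fourierCoeffOn`, see `e5_parseval` in Polar.lean); `c 0 = -α 0`, `c 1 = 0`,
`c k = 2 α k / (k - 1)`, `a = 2 α 1`, `N ≥ 2` with `2 r ^ N / (1 - r) ≤ η`. Then
`w * pold - pol = α 0 + ∑_{2 ≤ k < N} 2 α k w ^ k`, and for `v = w * cis (-θ)`
`1 + 2 ∑_{1 ≤ k < N} v ^ k = (1 + v) / (1 - v) - 2 v ^ N / (1 - v)`.
`2 ‖α k‖ / (k - 1) ≤ ‖α k‖² + 1 / (k - 1)²` (`sum_Ioc_inv_sq_le_sub`); `‖k * c k‖ ≤ 4 ‖α k‖` and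
Cauchy-Schwarz (`Finset.sum_mul_sq_le_sq_mul_sq`) with a geometric sum. -/
theorem kernel_poly {f : ℂ → ℝ} (hf : Measurable f) (h1 : ∀ z, |f z| ≤ 1) {r η : ℝ} (hr0 : 0 ≤ r)
    (hr : r < 1) (hη : 0 < η) :
    ∃ (N : ℕ) (c : ℕ → ℂ) (a : ℂ), ‖a‖ ≤ 2 ∧ ∀ w : ℂ, ‖w‖ ≤ r → ‖pol c N w‖ ≤ 4 ∧
      ‖pold c N w‖ ^ 2 * (1 - ‖w‖) ≤ 16 ∧
      |(w * pold c N w - pol c N w).re - (PF f w - (a * w).re)| ≤ η := by
  have p : 0 < 1 - r := by linarith
  obtain ⟨n, hn⟩ := exists_pow_lt_of_lt_one (show 0 < η * (1 - r) / 2 by positivity) hr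
  set α := rsKernel_co f with hα
  set c : ℕ → ℂ := fun k => if k = 0 then -α 0 else 2 * α k / ((k : ℂ) - 1) with hc
  have c0 : c 0 = -α 0 := by simp [hc]
  have c1 : c 1 = 0 := by simp [hc]
  have c2 : ∀ j : ℕ, c (j + 2) = 2 * α (j + 2) / ((j : ℂ) + 1) := by
    intro j
    simp only [hc]
    rw [if_neg (by omega)]
    congr 1
    push_cast
    ring
  have nj : ∀ j : ℕ, ‖(j : ℂ) + 1‖ = (j : ℝ) + 1 := by
    intro j
    have : (j : ℂ) + 1 = ((j + 1 : ℕ) : ℂ) := by push_cast; rfl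
    rw [this, Complex.norm_natCast]
    push_cast
    rfl
  have nc : ∀ j : ℕ, ‖c (j + 2)‖ = 2 * ‖α (j + 2)‖ * (1 / ((j : ℝ) + 1)) := by
    intro j
    rw [c2, norm_div, norm_mul, Complex.norm_two, nj]
    ring
  have hT := rsKernel_tail hf h1 n
  rw [← hα] at hT
  refine ⟨n + 2, c, 2 * α 1, ?_, fun w hw => ⟨?_, ?_, ?_⟩⟩
  · rw [norm_mul, Complex.norm_two]
    linarith [rsKernel_co_le hf h1 1]
  · have e : pol c (n + 2) w = ∑ j ∈ Finset.range n, c (j + 2) * w ^ (j + 2) - α 0 := by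
      rw [pol, Finset.sum_range_succ', Finset.sum_range_succ', zero_add, c0, c1]
      simp only [zero_mul, add_zero, pow_zero, mul_one]
      rfl
    have a : ‖∑ j ∈ Finset.range n, c (j + 2) * w ^ (j + 2)‖ ≤
        ∑ j ∈ Finset.range n, (‖α (j + 2)‖ ^ 2 + (1 / ((j : ℝ) + 1)) ^ 2) := by
      refine (norm_sum_le _ _).trans (Finset.sum_le_sum fun j _ => ?_)
      rw [norm_mul, norm_pow]
      refine (mul_le_of_le_one_right (norm_nonneg _)
        (pow_le_one₀ (norm_nonneg _) (hw.trans hr.le))).trans ?_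
      rw [nc]
      exact two_mul_le_add_sq _ _
    rw [Finset.sum_add_distrib] at a
    rw [e]
    refine (norm_sub_le _ _).trans ?_
    linarith [rsKernel_inv_sq n, rsKernel_co_le hf h1 0]
  · have hw1 : ‖w‖ < 1 := hw.trans_lt hr
    have e : pold c (n + 2) w =
        ∑ j ∈ Finset.range n, c (j + 2) * (((j + 2 : ℕ) : ℂ) * w ^ (j + 1)) := by
      rw [pold, Finset.sum_range_succ', Finset.sum_range_succ', zero_add, c1]
      simp only [zero_mul, add_zero, Nat.cast_zero, mul_zero]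
      rfl
    have a : ‖pold c (n + 2) w‖ ≤ 4 * ∑ j ∈ Finset.range n, ‖α (j + 2)‖ * ‖w‖ ^ (j + 1) := by
      rw [e, Finset.mul_sum]
      refine (norm_sum_le _ _).trans (Finset.sum_le_sum fun j _ => ?_)
      rw [norm_mul, norm_mul, norm_pow, nc, Complex.norm_natCast]
      have h0 : (0 : ℝ) ≤ j := Nat.cast_nonneg j
      have b : 1 / ((j : ℝ) + 1) * ((j + 2 : ℕ) : ℝ) ≤ 2 := by
        rw [div_mul_eq_mul_div, div_le_iff₀ (by positivity)]
        push_cast
        linarith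
      have d : 0 ≤ ‖α (j + 2)‖ * ‖w‖ ^ (j + 1) := by positivity
      nlinarith [mul_le_mul_of_nonneg_left b d]
    have b := Finset.sum_mul_sq_le_sq_mul_sq (Finset.range n) (fun j => ‖α (j + 2)‖)
      fun j => ‖w‖ ^ (j + 1)
    have g := rsKernel_geom (norm_nonneg w) hw1 n
    have g0 : 0 ≤ ∑ j ∈ Finset.range n, (‖w‖ ^ (j + 1)) ^ 2 :=
      Finset.sum_nonneg fun j _ => by positivity
    have a2 := pow_le_pow_left₀ (norm_nonneg _) a 2
    have b2 := b.trans (mul_le_of_le_one_left g0 hT)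
    have q : 0 ≤ 1 - ‖w‖ := by linarith
    rw [mul_pow] at a2
    nlinarith [mul_le_mul_of_nonneg_right a2 q, mul_le_mul_of_nonneg_right b2 q]
  · have hw1 : ‖w‖ < 1 := hw.trans_lt hr
    have e : w * pold c (n + 2) w - pol c (n + 2) w =
        ∑ k ∈ Finset.range (n + 2), 2 * α k * w ^ k - α 0 - 2 * α 1 * w := by
      rw [pold, pol, Finset.mul_sum, ← Finset.sum_sub_distrib, Finset.sum_range_succ',
        Finset.sum_range_succ', Finset.sum_range_succ' (fun k => 2 * α k * w ^ k),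
        Finset.sum_range_succ' (fun k => 2 * α (k + 1) * w ^ (k + 1)), zero_add, c0, c1]
      have s : ∑ j ∈ Finset.range n, (w * (c (j + 1 + 1) * (((j + 1 + 1 : ℕ) : ℂ) *
          w ^ (j + 1 + 1 - 1))) - c (j + 1 + 1) * w ^ (j + 1 + 1)) =
          ∑ j ∈ Finset.range n, 2 * α (j + 1 + 1) * w ^ (j + 1 + 1) := by
        refine Finset.sum_congr rfl fun j _ => ?_
        have hj : (j : ℂ) + 1 ≠ 0 := Nat.cast_add_one_ne_zero j
        rw [show j + 1 + 1 = j + 2 from rfl, show j + 2 - 1 = j + 1 from rfl, c2]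
        push_cast
        field_simp
        ring
      rw [s]
      simp
      ring
    have t := rsKernel_trunc hf h1 hw1 (n + 2)
    rw [← hα] at t
    rw [e, Complex.sub_re, sub_sub_sub_cancel_right]
    refine t.trans ?_
    have a : ‖w‖ ^ (n + 2) ≤ r ^ n :=
      (pow_le_pow_of_le_one (norm_nonneg _) hw1.le (by omega)).trans
        (pow_le_pow_left₀ (norm_nonneg _) hw n)
    rw [div_le_iff₀ (by linarith)]
    nlinarith [mul_le_mul_of_nonneg_left hw hη.le]

end Pool.Agent.P.MP_832dec_an
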