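import Pool.Agent.P.MP_832dec_an.Sharp.Ellipse

set_option autoImplicit false

open MeasureTheory Set Metric Filter Topology ComplexConjugate Real

namespace Pool.Agent.P.MP_832dec_an

theorem IsSchwarz.equi {Ω : Set ℂ} {u w : ℂ → ℝ} (h : IsSchwarz Ω u w) :
    Equimeasurable Ω u w := by
  intro t ht
  obtain ⟨ρ, h1, h2⟩ := h.2 t ht
  rw [h1, h2]

theorem rsSchwarz_vol {ρ : ℝ} (hρ : 0 ≤ ρ) :
    volume (ball (0 : ℂ) ρ) = ENNReal.ofReal (π * ρ ^ 2) := by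
  rw [Complex.volume_ball, mul_comm π, ENNReal.ofReal_mul (sq_nonneg ρ), ENNReal.ofReal_pow hρ,
    ← NNReal.coe_real_pi, ENNReal.ofReal_coe_nnreal]

theorem rsSchwarz_right (Ω : Set ℂ) (u : ℂ → ℝ) (t : ℝ) :
    volume {z ∈ Ω | t < |u z|} = ⨆ n : ℕ, volume {z ∈ Ω | t + 1 / ((n : ℝ) + 1) < |u z|} := by
  rw [← Monotone.measure_iUnion]
  · congr 1
    ext z
    simp only [mem_iUnion, mem_ofPred_eq]
    constructor
    · rintro ⟨h1, h2⟩
      obtain ⟨n, hn⟩ := exists_nat_one_div_lt (sub_pos.2 h2)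
      exact ⟨n, h1, by linarith⟩
    · rintro ⟨n, h1, h2⟩
      have h3 : (0 : ℝ) < 1 / ((n : ℝ) + 1) := by positivity
      exact ⟨h1, by linarith⟩
  · intro n n' hn z hz
    have h3 : (1 : ℝ) / ((n' : ℝ) + 1) ≤ 1 / ((n : ℝ) + 1) := Nat.one_div_le_one_div hn
    exact ⟨hz.1, by linarith [hz.2]⟩

theorem rsSchwarz_anti (Ω : Set ℂ) (u : ℂ → ℝ) {s t : ℝ} (h : s ≤ t) :
    volume {z ∈ Ω | t < |u z|} ≤ volume {z ∈ Ω | s < |u z|} :=
  measure_mono fun _ hz => ⟨hz.1, h.trans_lt hz.2⟩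

/-- Hints: `m t = volume {z ∈ Ω | t < |u z|}` is antitone, finite, right continuous
(`Monotone.measure_iUnion` for `t + 1 / (n + 1)`), zero for `t ≥ M`;
`w z = sInf {t | 0 ≤ t ∧ m t ≤ ofReal (π * ‖z‖ ^ 2)}`; for `t ≥ 0`,
`t < w z ↔ ofReal (π ‖z‖²) < m t`; `ρ = √((m t).toReal / π) ≤ radius Ω`. -/
theorem schwarz_exists {Ω : Set ℂ} (hΩ : MeasurableSet Ω) (hb : Bornology.IsBounded Ω)
    {u : ℂ → ℝ} {M : ℝ} (hu : ∀ᵐ z ∂(volume.restrict Ω), |u z| ≤ M) :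
    ∃ w : ℂ → ℝ, IsSchwarz Ω u w := by
  have hfin : volume Ω ≠ ⊤ := hb.measure_lt_top.ne
  have hle : ∀ t : ℝ, volume {z ∈ Ω | t < |u z|} ≤ volume Ω := fun t =>
    measure_mono fun _ hz => hz.1
  have h0 : volume {z ∈ Ω | max M 0 < |u z|} = 0 := by
    rw [measure_eq_zero_iff_ae_notMem]
    filter_upwards [(ae_restrict_iff' hΩ).1 hu] with z hz h
    exact absurd ((le_max_left M 0).trans_lt h.2) (not_lt.2 (hz h.1))
  let S : ℂ → Set ℝ := fun z =>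
    {t | 0 ≤ t ∧ volume {y ∈ Ω | t < |u y|} ≤ ENNReal.ofReal (π * ‖z‖ ^ 2)}
  have hne : ∀ z, (S z).Nonempty := fun z => ⟨max M 0, le_max_right _ _, by rw [h0]; exact zero_le⟩
  have hbd : ∀ z, BddBelow (S z) := fun z => ⟨0, fun _ h => h.1⟩
  have key : ∀ z t, 0 ≤ t →
      (t < sInf (S z) ↔ ENNReal.ofReal (π * ‖z‖ ^ 2) < volume {y ∈ Ω | t < |u y|}) := by
    intro z t ht
    constructor
    · intro h
      by_contra h1
      exact absurd (csInf_le (hbd z) ⟨ht, not_lt.1 h1⟩) (not_le.2 h)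
    · intro h
      rw [rsSchwarz_right, lt_iSup_iff] at h
      obtain ⟨n, hn⟩ := h
      have h3 : (0 : ℝ) < 1 / ((n : ℝ) + 1) := by positivity
      have h4 : t + 1 / ((n : ℝ) + 1) ≤ sInf (S z) := by
        refine le_csInf (hne z) fun s hs => ?_
        by_contra h5
        exact absurd ((rsSchwarz_anti Ω u (not_le.1 h5).le).trans hs.2) (not_le.2 hn)
      linarith
  refine ⟨fun z => sInf (S z), fun z => le_csInf (hne z) fun _ h => h.1, fun t ht => ?_⟩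
  have hf : volume {y ∈ Ω | t < |u y|} ≠ ⊤ := ne_top_of_le_ne_top hfin (hle t)
  have hq : 0 ≤ (volume {y ∈ Ω | t < |u y|}).toReal / π :=
    div_nonneg ENNReal.toReal_nonneg pi_pos.le
  have hρ : √((volume {y ∈ Ω | t < |u y|}).toReal / π) ≤ radius Ω :=
    Real.sqrt_le_sqrt (div_le_div_of_nonneg_right (ENNReal.toReal_mono hfin (hle t)) pi_pos.le)
  refine ⟨√((volume {y ∈ Ω | t < |u y|}).toReal / π), ?_, ?_⟩
  · ext z
    have h1 : t < sInf (S z) ↔ ‖z‖ < √((volume {y ∈ Ω | t < |u y|}).toReal / π) := by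
      rw [key z t ht, Real.lt_sqrt (norm_nonneg z), lt_div_iff₀ pi_pos,
        ENNReal.ofReal_lt_iff_lt_toReal (by positivity) hf, mul_comm]
    simp only [mem_ofPred_eq, mem_ball_zero_iff, h1]
    exact ⟨fun h => h.2, fun h => ⟨h.trans_le hρ, h⟩⟩
  · rw [rsSchwarz_vol (Real.sqrt_nonneg _), Real.sq_sqrt hq, mul_div_cancel₀ _ pi_pos.ne',
      ENNReal.ofReal_toReal hf]

/-- Hints: `radius = √(a b)`. Upper bound: for `t` the right side, `{t < |u|}` lies a.e. in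
`{ellN < ‖z‖² / (a b)}`, of area `π ‖z‖²` (`ell_vol`). Lower bound: for `0 ≤ t` below the left side,
`{t < |u|}` contains a.e. `{ellN < σ}` for some `σ ∈ (‖z‖² / (a b), 1]`. -/
theorem schwarz_ell {a b κ₁ κ₂ c₁ c₂ : ℝ} (ha : 0 < a) (hb : 0 < b) (h₁ : 0 < κ₁) (h₂ : 0 < κ₂)
    (hc₁ : 0 ≤ c₁) (hc₂ : 0 ≤ c₂) {u w : ℂ → ℝ} (hw : IsSchwarz (ell a b) u w)
    (hu : ∀ᵐ z ∂(volume.restrict (ell a b)),
      κ₁ * (1 - ellN a b z) + c₁ ≤ u z ∧ u z ≤ κ₂ * (1 - ellN a b z) + c₂)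
    {z : ℂ} (hz : ‖z‖ ^ 2 < a * b) :
    κ₁ * (1 - ‖z‖ ^ 2 / (a * b)) + c₁ ≤ w z ∧ w z ≤ κ₂ * (1 - ‖z‖ ^ 2 / (a * b)) + c₂ := by
  have hab : 0 < a * b := mul_pos ha hb
  have hrad : radius (ell a b) = √(a * b) := by
    rw [radius, ell, ell_vol ha hb zero_le_one, ENNReal.toReal_ofReal (by positivity), mul_one,
      mul_div_cancel_left₀ _ pi_pos.ne']
  have hzb : z ∈ ball (0 : ℂ) (radius (ell a b)) := by
    rw [hrad, mem_ball_zero_iff, Real.lt_sqrt (norm_nonneg z)]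
    exact hz
  obtain ⟨s, hs⟩ : ∃ s, s = ‖z‖ ^ 2 / (a * b) := ⟨_, rfl⟩
  have hs0 : 0 ≤ s := by rw [hs]; positivity
  have hs1 : s < 1 := by rw [hs, div_lt_one hab]; exact hz
  have hs2 : π * (a * b) * s = π * ‖z‖ ^ 2 := by rw [hs]; field_simp
  have hu' := (ae_restrict_iff' (ell_open a b).measurableSet).1 hu
  rw [← hs]
  constructor
  · by_contra hc
    have hlt : w z < κ₁ * (1 - s) + c₁ := not_le.1 hc
    obtain ⟨ρ, h1, h2⟩ := hw.2 (w z) (hw.1 z)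
    have h3 : ρ ≤ ‖z‖ := by
      by_contra h3
      have h4 : z ∈ ball (0 : ℂ) ρ := mem_ball_zero_iff.2 (not_le.1 h3)
      rw [← h1] at h4
      exact lt_irrefl _ h4.2
    obtain ⟨σ, hσ⟩ : ∃ σ, σ = min 1 (s + (κ₁ * (1 - s) + c₁ - w z) / κ₁) := ⟨_, rfl⟩
    have h4 : s < σ := by
      rw [hσ]
      exact lt_min hs1 (lt_add_of_pos_right _ (div_pos (sub_pos.2 hlt) h₁))
    have h5 : volume {y | ellN a b y < σ} ≤ volume {y ∈ ell a b | w z < |u y|} := by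
      refine measure_mono_ae ?_
      filter_upwards [hu'] with y hy h
      have h6 : ellN a b y < σ := h
      rw [hσ, lt_min_iff] at h6
      refine ⟨h6.1, lt_of_lt_of_le ?_ (le_abs_self _)⟩
      have h7 := (hy h6.1).1
      have h8 : (ellN a b y - s) * κ₁ < κ₁ * (1 - s) + c₁ - w z :=
        (lt_div_iff₀ h₁).1 (by linarith [h6.2])
      nlinarith
    rw [← h2, ell_vol ha hb (hs0.trans h4.le)] at h5
    have h6 := h5.trans (measure_mono (ball_subset_ball h3))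
    rw [rsSchwarz_vol (norm_nonneg z), ENNReal.ofReal_le_ofReal_iff (by positivity), ← hs2] at h6
    exact absurd h6 (not_le.2 (mul_lt_mul_of_pos_left h4 (mul_pos pi_pos hab)))
  · by_contra hc
    have hlt : κ₂ * (1 - s) + c₂ < w z := not_le.1 hc
    have ht : 0 ≤ κ₂ * (1 - s) + c₂ := add_nonneg (mul_nonneg h₂.le (by linarith)) hc₂
    obtain ⟨ρ, h1, h2⟩ := hw.2 _ ht
    have h3 : ‖z‖ < ρ := by
      rw [← mem_ball_zero_iff, ← h1]
      exact ⟨hzb, hlt⟩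
    have h5 : volume {y ∈ ell a b | κ₂ * (1 - s) + c₂ < |u y|} ≤ volume {y | ellN a b y < s} := by
      refine measure_mono_ae ?_
      filter_upwards [hu'] with y hy h
      have h6 : ellN a b y < 1 := h.1
      have h7 := hy h.1
      have h8 : 0 ≤ u y :=
        (add_nonneg (mul_nonneg h₁.le (by linarith)) hc₁).trans h7.1
      have h9 := h.2
      rw [abs_of_nonneg h8] at h9
      have h10 : κ₂ * (1 - s) < κ₂ * (1 - ellN a b y) := by linarith [h7.2]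
      have h11 := lt_of_mul_lt_mul_left h10 h₂.le
      change ellN a b y < s
      linarith
    rw [← h2, ell_vol ha hb hs0, hs2, rsSchwarz_vol ((norm_nonneg z).trans h3.le),
      ENNReal.ofReal_le_ofReal_iff (by positivity)] at h5
    exact absurd h5 (not_le.2 (mul_lt_mul_of_pos_left
      (pow_lt_pow_left₀ h3 (norm_nonneg z) two_ne_zero) pi_pos))

end Pool.Agent.P.MP_832dec_an
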