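import Pool.Agent.P.MP_832dec_an.Sharp.Exist
import Pool.Agent.P.MP_832dec_an.Sharp.Barrier
import Pool.Agent.P.MP_832dec_an.Sharp.Schwarz

set_option autoImplicit false

open MeasureTheory Set Metric Filter Topology ComplexConjugate Real

namespace Pool.Agent.P.MP_832dec_an

/-- every Lipschitz domain has a solution and a Schwarz rearrangement of it -/
theorem exists_solution {Ω : Set ℂ} {β : ℝ} (hβ : 0 < β) (hΩ : IsOpen Ω)
    (hb : Bornology.IsBounded Ω) (hL : LipschitzBoundary Ω) :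
    ∃ u w : ℂ → ℝ, IsRobinSolution Ω β u ∧ IsSchwarz Ω u w := by
  obtain ⟨ν, X, hG, -, -⟩ := exists_GG hΩ hb (local_gg hΩ hL)
  obtain ⟨u, G, g, hT, hE⟩ := robin_exists hG hβ
  obtain ⟨L, hL0, hs⟩ := hb.subset_ball_lt 0 0
  have h0 := weak_nonneg hβ hG hT hE
  have h1 := (compare_quad hβ hG hT hE 0 (1 / 2) (1 / 2) (L ^ 2 / 2 + L / β) 1 (by norm_num) (by
    filter_upwards [hG.ae_norm_le hs] with z hz
    have a1 : z.re ^ 2 + z.im ^ 2 ≤ L ^ 2 := by
      rw [← Complex.normSq_add_mul_I, Complex.re_add_im, Complex.normSq_eq_norm_sq]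
      gcongr
    have a2 : (conj (ν z) * z).re ≤ L := (re_conj_mul_le (hG.unit z) z).trans hz
    have a3 : β * (L / β) = L := by field_simp
    simp only [Complex.mul_re, Complex.conj_re, Complex.conj_im] at a2
    simp only [quad, sub_zero]
    nlinarith)).2 (by norm_num)
  obtain ⟨w, hw⟩ := schwarz_exists hΩ.measurableSet hb (u := u) (M := L ^ 2 / 2 + L / β) (by
    filter_upwards [h0, h1] with z a b
    rw [abs_of_nonneg a]
    simp only [quad, sub_zero] at b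
    nlinarith [sq_nonneg z.re, sq_nonneg z.im])
  exact ⟨u, w, ⟨G, g, hT, hE⟩, hw⟩

/-- on ellipses the left side is at most of the order of the asymmetry -/
theorem lower {β m : ℝ} (hβ : 0 < β) (hm : 0 < m) :
    ∃ C : ℝ, 0 < C ∧ ∀ ε : ℝ, 0 < ε → ε ≤ 1 → ∃ (Ω : Set ℂ) (u w : ℂ → ℝ), IsOpen Ω ∧
      Bornology.IsBounded Ω ∧ LipschitzBoundary Ω ∧ volume Ω = ENNReal.ofReal m ∧
      IsRobinSolution Ω β u ∧ IsSchwarz Ω u w ∧ ε / 56 ≤ asym Ω ∧
      eLpNorm (discSolution β (radius Ω) - w) ⊤ (volume.restrict (ball 0 (radius Ω))) ≤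
        ENNReal.ofReal (C * ε) := by
  have hpi := pi_pos
  set R := √(m / π) with hRdef
  have hR : 0 < R := by positivity
  have hR2 : π * R ^ 2 = m := by
    rw [hRdef, Real.sq_sqrt (by positivity)]
    field_simp
  refine ⟨R ^ 2 + 4 * R / β, by positivity, fun ε hε hε1 => ?_⟩
  set a := R * (1 + ε) with ha
  set b := R / (1 + ε) with hb
  have ha0 : 0 < a := by positivity
  have hb0 : 0 < b := by positivity
  have hab : a * b = R ^ 2 := by
    rw [ha, hb]
    field_simp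
  have hba : b < a := by
    rw [ha, hb, div_lt_iff₀ (by positivity)]
    nlinarith [mul_pos hR hε, mul_pos (mul_pos hR hε) hε]
  have hv : volume (ell a b) = ENNReal.ofReal m := by
    rw [ell, ell_vol ha0 hb0 zero_le_one, hab, mul_one, hR2]
  have hbd : Bornology.IsBounded (ell a b) := isBounded_ball.subset (ell_sub hb0 hba.le)
  have hrad : radius (ell a b) = R := by rw [radius, hv, ENNReal.toReal_ofReal hm.le]
  obtain ⟨u, w, hu, hw⟩ := exists_solution hβ (ell_open a b) hbd (ell_lip ha0 hb0)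
  refine ⟨ell a b, u, w, ell_open a b, hbd, ell_lip ha0 hb0, hv, hu, hw, ell_asym hR hε hε1, ?_⟩
  rw [eLpNorm_exponent_top, hrad]
  refine eLpNormEssSup_le_of_ae_bound ?_
  filter_upwards [ae_restrict_mem measurableSet_ball] with z hz
  rw [mem_ball_zero_iff] at hz
  have hz2 : ‖z‖ ^ 2 < R ^ 2 := by gcongr
  obtain ⟨h1, h2⟩ := schwarz_ell ha0 hb0 (by positivity) (by positivity) (by positivity)
    (by positivity) hw (ell_bounds hb0 hba hβ hu) (z := z) (by rwa [hab])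
  rw [hab] at h1 h2
  set σ := 1 - ‖z‖ ^ 2 / R ^ 2 with hσ
  have s0 : 0 ≤ σ := sub_nonneg.2 ((div_le_one (by positivity)).2 hz2.le)
  have s1 : σ ≤ 1 := sub_le_self _ (by positivity)
  have e1 : discSolution β R z = R ^ 2 / 4 * σ + R / β / 2 := by
    rw [discSolution, hσ]
    field_simp
  have e2 : a ^ 2 / (2 * b * β) = R / β / 2 * (1 + ε) ^ 3 := by
    rw [ha, hb]
    field_simp
  have e3 : b ^ 2 / (2 * a * β) = R / β / 2 / (1 + ε) ^ 3 := by
    rw [ha, hb]
    field_simp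
  have e4 : (R ^ 2 + 4 * R / β) * ε = R ^ 2 * ε + 4 * (R / β * ε) := by ring
  have p1 : 0 < R / β := by positivity
  have p2 : 0 < R ^ 2 * ε := by positivity
  have p3 : 0 < R / β * ε := by positivity
  have a1 : a ^ 2 ≤ R ^ 2 + 3 * (R ^ 2 * ε) := by
    rw [ha]
    nlinarith [mul_le_mul_of_nonneg_left hε1 p2.le]
  have a1' : R ^ 2 ≤ a ^ 2 := by
    rw [ha]
    nlinarith [mul_pos p2 hε]
  have a2 : R ^ 2 - 2 * (R ^ 2 * ε) ≤ b ^ 2 := by
    rw [hb, div_pow, le_div_iff₀ (by positivity)]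
    nlinarith [mul_pos p2 hε, mul_pos (mul_pos p2 hε) hε]
  have a2' : b ^ 2 ≤ R ^ 2 := by nlinarith
  have a3 : (1 + ε) ^ 3 ≤ 1 + 7 * ε := by nlinarith [mul_le_mul_of_nonneg_left hε1 hε.le]
  have a4 : R / β / 2 - 3 / 2 * (R / β * ε) ≤ R / β / 2 / (1 + ε) ^ 3 := by
    rw [le_div_iff₀ (by positivity)]
    have : (1 - 3 * ε) * (1 + ε) ^ 3 ≤ 1 := by nlinarith [mul_pos hε hε, pow_pos hε 3, pow_pos hε 4]
    nlinarith
  rw [e2] at h2
  rw [e3] at h1
  rw [Pi.sub_apply, e1, e4, Real.norm_eq_abs, abs_le]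
  have b1 : (a ^ 2 - R ^ 2) * σ ≤ (a ^ 2 - R ^ 2) * 1 := by gcongr
  have b2 : (R ^ 2 - b ^ 2) * σ ≤ (R ^ 2 - b ^ 2) * 1 := by gcongr
  have b3 : R / β / 2 * (1 + ε) ^ 3 ≤ R / β / 2 * (1 + 7 * ε) := by gcongr
  constructor <;> linarith

end Pool.Agent.P.MP_832dec_an
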