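import Pool.Agent.P.MP_832dec_an.Sharp.Area
import Pool.Agent.P.MP_832dec_an.Sharp.MaxP

set_option autoImplicit false

open MeasureTheory Set Metric Filter Topology ComplexConjugate Real

namespace Pool.Agent.P.MP_832dec_an

theorem rsNorm2_half {Ω : Set ℂ} {ν G : ℂ → ℂ} {β c : ℝ} {g : ℂ → ℝ} (h : Sol Ω ν β c G g)
    (hβ : 0 < β) {l : ℂ → ℝ} (hl : ContDiff ℝ 1 l) {a η : ℝ} (hη : 0 < η)
    (hgap : ∀ z ∈ closure Ω, η ≤ |l z - a|) {z : ℂ} (hz : z ∈ Ω) (hz' : l z ≤ a) :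
    4 * π * (β * c) ≤ (bdry Ω).real {x | l x < a} := by
  have hV : IsOpen {x : ℂ | l x < a} := isOpen_lt hl.continuous continuous_const
  have hV' : IsOpen {x : ℂ | a < l x} := isOpen_lt continuous_const hl.continuous
  have hχV : ∀ x ∈ closure Ω, Real.smoothTransition ((a + η - l x) / (2 * η)) =
      {x : ℂ | l x < a}.indicator 1 x := by
    intro x hx
    have h1 := hgap x hx
    by_cases h2 : l x < a
    · rw [abs_of_neg (by linarith)] at h1
      rw [indicator_of_mem (by exact h2), Pi.one_apply]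
      refine Real.smoothTransition.one_of_one_le ?_
      rw [le_div_iff₀ (by positivity)]
      linarith
    · rw [abs_of_nonneg (by linarith)] at h1
      rw [indicator_of_notMem (by exact h2)]
      exact Real.smoothTransition.zero_of_nonpos
        (div_nonpos_of_nonpos_of_nonneg (by linarith) (by positivity))
  refine h.piece hβ hV (χ := fun x => Real.smoothTransition ((a + η - l x) / (2 * η)))
    (Real.smoothTransition.contDiff.comp ((contDiff_const.sub hl).div_const _)) hχV ?_ ⟨z, hz, ?_⟩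
  · intro x hx
    have h1 := hgap x (subset_closure hx)
    by_cases h2 : l x < a
    · refine (EventuallyEq.fderiv_eq (f := fun _ => (1 : ℝ)) ?_).trans (by simp)
      filter_upwards [h.gg.isOpen.mem_nhds hx, hV.mem_nhds h2] with y hy hy'
      rw [hχV y (subset_closure hy), indicator_of_mem (by exact hy'), Pi.one_apply]
    · have h3 : a < l x := by
        rw [abs_of_nonneg (by linarith)] at h1
        linarith
      refine (EventuallyEq.fderiv_eq (f := fun _ => (0 : ℝ)) ?_).trans (by simp)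
      filter_upwards [h.gg.isOpen.mem_nhds hx, hV'.mem_nhds h3] with y hy hy'
      rw [hχV y (subset_closure hy), indicator_of_notMem (by simpa using hy'.le)]
  · have h1 := hgap z (subset_closure hz)
    rw [abs_of_nonpos (by linarith)] at h1
    show l z < a
    linarith

theorem rsNorm2_side {Ω : Set ℂ} {ν G : ℂ → ℂ} {β c : ℝ} {g : ℂ → ℝ} (h : Sol Ω ν β c G g)
    (hβ : 0 < β) (hc : 0 < c) (hbig : (volume Ω).toReal < 8 * π * (β * c) ^ 2) {l : ℂ → ℝ}
    (hl : ContDiff ℝ 1 l) {a : ℝ} (h1 : ∀ x ∈ closure Ω, l x ≠ a) {z w : ℂ} (hz : z ∈ Ω)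
    (hw : w ∈ Ω) (hza : l z ≤ a) (hwa : a ≤ l w) : False := by
  have := h.gg.fin
  have hlc := hl.continuous
  obtain ⟨x, hx, hmin⟩ := h.gg.bdd.isCompact_closure.exists_isMinOn ⟨z, subset_closure hz⟩
    (f := fun x => |l x - a|) (by fun_prop)
  have hη : 0 < |l x - a| := abs_pos.mpr (sub_ne_zero.mpr (h1 x hx))
  have h2 := rsNorm2_half h hβ hl hη (fun y hy => hmin hy) hz hza
  have h3 := rsNorm2_half h hβ hl.neg (a := -a) hη (fun y hy => by
    rw [show -l y - -a = -(l y - a) by ring, abs_neg]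
    exact hmin hy) hw (by linarith)
  have h4 : (bdry Ω).real {x | l x < a} + (bdry Ω).real {x | -l x < -a} ≤ (bdry Ω).real univ := by
    rw [← measureReal_union]
    · exact measureReal_mono (subset_univ _)
    · rw [disjoint_left]
      intro y h5 h6
      simp only [mem_ofPred_eq] at h5 h6
      linarith
    · exact (isOpen_lt (by fun_prop) continuous_const).measurableSet
  have h5 := (h.per_le hβ).2
  have h6 : 0 < β * c := by positivity
  have h7 : β * c * (8 * π * (β * c)) ≤ β * c * (bdry Ω).real univ := by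
    gcongr
    linarith
  nlinarith

/-- A circle that misses the closure of `Ω` has `Ω` on one side. Hints: as `Sol.half`, `Sol.hit`
(NoGap.lean) with `‖x - q‖ ^ 2` in place of the linear form: both pieces have boundary length at
least `4 * π * (β * c)` by `Sol.piece`. -/
theorem Sol.circle {Ω : Set ℂ} {ν G : ℂ → ℂ} {β c : ℝ} {g : ℂ → ℝ} (h : Sol Ω ν β c G g)
    (hβ : 0 < β) (hc : 0 < c) (hbig : (volume Ω).toReal < 8 * π * (β * c) ^ 2) (q : ℂ) {ρ : ℝ}
    (hρ : 0 < ρ) (hm : ∀ z ∈ closure Ω, ‖z - q‖ ≠ ρ) :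
    Ω ⊆ ball q ρ ∨ Disjoint Ω (ball q ρ) := by
  by_contra hn
  rw [not_or, not_subset, not_disjoint_iff] at hn
  obtain ⟨⟨w, hw, hw'⟩, z, hz, hz'⟩ := hn
  rw [mem_ball, dist_eq_norm] at hw' hz'
  refine rsNorm2_side h hβ hc hbig (l := fun x => ‖x - q‖ ^ 2) (a := ρ ^ 2)
    ((contDiff_id.sub contDiff_const).norm_sq ℝ) (fun x hx e => hm x hx ?_) hz hw ?_ ?_
  · exact (pow_left_inj₀ (norm_nonneg _) hρ.le two_ne_zero).mp e
  · exact pow_le_pow_left₀ (norm_nonneg _) hz'.le 2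
  · exact pow_le_pow_left₀ hρ.le (not_lt.mp hw') 2

theorem rsNorm2_sub (p : ℂ) {R : ℝ} (hR : 0 < R) (z : ℂ) : z - p = R * (aff p hR).symm z := by
  have := (aff p hR).apply_symm_apply z
  rw [aff_apply] at this
  linear_combination -this

theorem rsNorm2_norm (p : ℂ) {R : ℝ} (hR : 0 < R) (z : ℂ) :
    ‖z - p‖ = R * ‖(aff p hR).symm z‖ := by
  rw [rsNorm2_sub p hR, norm_mul, Complex.norm_real, Real.norm_of_nonneg hR.le]

theorem rsNorm2_norm' (p : ℂ) {R : ℝ} (hR : 0 < R) (w : ℂ) : ‖aff p hR w - p‖ = R * ‖w‖ := by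
  rw [rsNorm2_norm p hR, Homeomorph.symm_apply_apply]

theorem rsNorm2_ae (p : ℂ) {R : ℝ} (hR : 0 < R) {μ : Measure ℂ} {P : ℂ → Prop}
    (h : ∀ᵐ z ∂μ, P ((aff p hR).symm z)) : ∀ᵐ w ∂(affMeasure p hR μ), P w := by
  refine Measure.ae_smul_measure ?_ _
  rwa [(aff p hR).symm.measurableEmbedding.ae_map_iff]

theorem rsNorm2_int (p : ℂ) {R : ℝ} (hR : 0 < R) (μ : Measure ℂ) (F : ℂ → ℝ) :
    ∫ w, F w ∂(affMeasure p hR μ) = R⁻¹ * ∫ z, F ((aff p hR).symm z) ∂μ := by
  rw [affMeasure, integral_smul_measure, (aff p hR).symm.measurableEmbedding.integral_map,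
    ENNReal.toReal_ofReal (by positivity), smul_eq_mul]

theorem rsNorm2_integrable (p : ℂ) {R : ℝ} (hR : 0 < R) {μ : Measure ℂ} {g : ℂ → ℝ}
    (hg : Integrable g μ) : Integrable (fun w => g (aff p hR w)) (affMeasure p hR μ) := by
  refine Integrable.smul_measure ?_ ENNReal.ofReal_ne_top
  rw [(aff p hR).symm.measurableEmbedding.integrable_map_iff]
  refine hg.congr (Eventually.of_forall fun z => ?_)
  simp

theorem rsNorm2_mul {Ω : Set ℂ} {μ : Measure ℂ} {ν : ℂ → ℂ} (h : GG Ω μ ν) {g : ℂ → ℝ}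
    (hg : Integrable g μ) {F : ℂ × ℂ → ℂ} (hF : Continuous F) :
    Integrable (fun z => (g z : ℂ) * F (z, ν z)) μ := by
  obtain ⟨C, hC⟩ := (h.bdd.isCompact_closure.prod
    (isCompact_sphere (0 : ℂ) 1)).exists_bound_of_continuousOn hF.continuousOn
  refine hg.ofReal.mul_bdd (c := C) (h.integrable₂ hF).aestronglyMeasurable ?_
  filter_upwards [h.supp] with z hz
  exact hC _ ⟨hz, by simpa using h.unit z⟩

/-- the mean distance of the trace from its value on the disc -/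
theorem rsNorm2_abs {Ω : Set ℂ} {ν G : ℂ → ℂ} {β R δ : ℝ} {g : ℂ → ℝ} (hβ : 0 < β)
    (hR : 0 < R) (hδ : 0 ≤ δ) (hδ' : β * δ ≤ R / 10) (h : Sol Ω ν β (R / (2 * β) - δ) G g)
    (hv : (volume Ω).toReal = π * R ^ 2) :
    ∫ z, |g z - R / (2 * β)| ∂(bdry Ω) ≤ 16 * R * δ := by
  have := h.gg.fin
  have hpi := pi_gt_three
  have hpi' := pi_lt_d2
  set P := (bdry Ω).real univ with hP
  set c := R / (2 * β) - δ with hc
  have hβc : β * c = R / 2 - β * δ := by rw [hc]; field_simp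
  have hβδ : 0 ≤ β * δ := by positivity
  have hP1 : 2 * π * R ≤ P := by
    have h1 := iso h.gg
    rw [hv] at h1
    exact le_of_sq_le_sq (by nlinarith) measureReal_nonneg
  obtain ⟨hg, hP2⟩ := h.per_le hβ
  rw [hv] at hg hP2
  rw [hβc, ← hP] at hP2
  have hP3 : P ≤ 2 * π * R + 26 * (β * δ) := by
    have h1 : π * R ^ 2 ≤ (R / 2 - β * δ) * (2 * π * R + 26 * (β * δ)) := by
      have a1 : 0 ≤ β * δ * (R / 10 - β * δ) := by
        have : 0 ≤ R / 10 - β * δ := by linarith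
        positivity
      have a2 : 0 ≤ β * δ * R * (3.15 - π) := by
        have : 0 ≤ 3.15 - π := by linarith
        positivity
      have a3 : 0 ≤ β * δ * R := by positivity
      nlinarith
    exact le_of_mul_le_mul_left (hP2.trans h1) (by linarith)
  have h4 : ∫ z, (g z - c) ∂(bdry Ω) ≤ 7 * R * δ := by
    rw [integral_sub h.gint (integrable_const c), integral_const, smul_eq_mul, ← hP]
    have a1 : 2 * π * R * (R / 2 - β * δ) ≤ P * (R / 2 - β * δ) := by
      have : 0 ≤ R / 2 - β * δ := by linarith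
      gcongr
    have a2 : 0 ≤ R * (β * δ) * (3.5 - π) := by
      have : 0 ≤ 3.5 - π := by linarith
      positivity
    refine le_of_mul_le_mul_left ?_ hβ
    rw [mul_sub, hg, mul_left_comm β P, hβc]
    nlinarith
  have ie : Integrable (fun z => g z - c) (bdry Ω) := h.gint.sub (integrable_const c)
  have h5 : ∫ z, |g z - R / (2 * β)| ∂(bdry Ω) ≤ ∫ z, ((g z - c) + δ) ∂(bdry Ω) := by
    refine integral_mono_ae (h.gint.sub (integrable_const _)).abs (ie.add (integrable_const δ)) ?_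
    filter_upwards [h.gge] with z hz
    rw [abs_le]
    constructor <;> linarith
  rw [integral_add ie (integrable_const δ), integral_const, smul_eq_mul, ← hP] at h5
  have h6 : P ≤ 9 * R := by nlinarith
  have h7 : P * δ ≤ 9 * R * δ := by gcongr
  linarith

theorem rsNorm2_holo {Ω : Set ℂ} {ν G : ℂ → ℂ} {β c R : ℝ} {g : ℂ → ℝ} (hβ : 0 < β)
    (hR : 0 < R) (h : Sol Ω ν β c G g) (p : ℂ) (φ : ℂ → ℂ) (hφ : Differentiable ℂ φ) :
    (∫ z in aff p hR ⁻¹' Ω, φ z) - 1 / 2 * ∫ z, φ z ∂(affMeasure p hR (bdry Ω)) =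
      ∫ z, ((g (aff p hR z) / R ^ 2 - 1 / (2 * β * R) : ℝ) : ℂ) *
        (deriv φ z * ν (aff p hR z) + ((β * R : ℝ) : ℂ) * φ z) ∂(affMeasure p hR (bdry Ω)) := by
  have hR' : (R : ℂ) ≠ 0 := by exact_mod_cast hR.ne'
  have hβ' : (β : ℂ) ≠ 0 := by exact_mod_cast hβ.ne'
  have hG := h.gg.transport p hR
  have hφ' : Differentiable ℂ (deriv φ) := hφ.deriv
  have c1 := hφ.continuous
  have c2 := hφ'.continuous
  have hder : ∀ z, HasDerivAt (fun z => φ ((aff p hR).symm z))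
      (deriv φ ((aff p hR).symm z) * (R : ℂ)⁻¹) z := by
    intro z
    have h1 : HasDerivAt (fun z => (aff p hR).symm z) (R : ℂ)⁻¹ z := by
      have := ((hasDerivAt_id z).const_mul (R : ℂ)⁻¹).const_add (-p / R)
      rwa [mul_one] at this
    exact (hφ _).hasDerivAt.comp z h1
  have h1 := h.holo _ fun z => (hder z).differentiableAt
  simp only [(hder _).deriv] at h1
  have h2 : ∫ z, deriv φ z * ν (aff p hR z) ∂(affMeasure p hR (bdry Ω)) = 0 := by
    rw [← hG.gg (deriv φ) (hφ'.contDiff.restrict_scalars ℝ)]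
    have : ∀ z, dbar (deriv φ) z = 0 := fun z => dbar_holo (hφ' z)
    simp [this]
  have i1 : Integrable (fun z => deriv φ z * ν (aff p hR z)) (affMeasure p hR (bdry Ω)) :=
    hG.integrable₂ (F := fun q => deriv φ q.1 * q.2) (by fun_prop)
  have i2 : Integrable φ (affMeasure p hR (bdry Ω)) := hG.integrable c1
  have i3 : Integrable (fun z => (g (aff p hR z) : ℂ) *
      (deriv φ z * (R : ℂ)⁻¹ * ν (aff p hR z) + β * φ z)) (affMeasure p hR (bdry Ω)) :=
    rsNorm2_mul hG (rsNorm2_integrable p hR h.gint)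
      (F := fun q => deriv φ q.1 * (R : ℂ)⁻¹ * q.2 + β * φ q.1) (by fun_prop)
  have e : ∀ z, ((g (aff p hR z) / R ^ 2 - 1 / (2 * β * R) : ℝ) : ℂ) *
      (deriv φ z * ν (aff p hR z) + ((β * R : ℝ) : ℂ) * φ z) =
      (R : ℂ)⁻¹ * ((g (aff p hR z) : ℂ) * (deriv φ z * (R : ℂ)⁻¹ * ν (aff p hR z) + β * φ z)) -
        (1 / (2 * β * R) * (deriv φ z * ν (aff p hR z)) + 1 / 2 * φ z) := by
    intro z
    push_cast
    field_simp
  have i4 : Integrable (fun z => 1 / (2 * β * R) * (deriv φ z * ν (aff p hR z)) + 1 / 2 * φ z)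
      (affMeasure p hR (bdry Ω)) := (i1.const_mul _).add (i2.const_mul _)
  simp only [e]
  rw [integral_sub (i3.const_mul _) i4,
    integral_add (i1.const_mul _) (i2.const_mul _), integral_const_mul, integral_const_mul,
    integral_const_mul, h2, mul_zero, zero_add, int_aff, h1,
    int_affMeasure p hR _ fun z => (g (aff p hR z) : ℂ) * _]
  simp only [Homeomorph.apply_symm_apply]
  ring

theorem rsNorm2_area {Ω : Set ℂ} {ν : ℂ → ℂ} {R : ℝ} (hR : 0 < R) (hL : LipschitzBoundary Ω)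
    (h : GG Ω (bdry Ω) ν) (p : ℂ) (A : Set ℂ) (hA : MeasurableSet A) :
    volume ((fun z : ℂ => ‖z‖ ^ 2) '' (A ∩ frontier (aff p hR ⁻¹' Ω))) ≤
      ∫⁻ z in A, ENNReal.ofReal (2 * |(conj z * ν (aff p hR z)).im|)
        ∂(affMeasure p hR (bdry Ω)) := by
  have h1 := area_ineq hL h p (hA.preimage (aff p hR).symm.continuous.measurable)
  have h2 : (fun z : ℂ => ‖z‖ ^ 2) '' (A ∩ frontier (aff p hR ⁻¹' Ω)) ⊆ (fun t => R ^ 2 * t) ⁻¹'
      ((fun z : ℂ => ‖z - p‖ ^ 2) '' ((aff p hR).symm ⁻¹' A ∩ frontier Ω)) := by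
    rintro _ ⟨w, ⟨hw, hw'⟩, rfl⟩
    rw [← (aff p hR).preimage_frontier] at hw'
    refine ⟨aff p hR w, ⟨by simpa using hw, hw'⟩, ?_⟩
    simp only [rsNorm2_norm', mul_pow]
  have h3 : ∀ z, ENNReal.ofReal (2 * |(conj (z - p) * ν z).im|) = ENNReal.ofReal R *
      ENNReal.ofReal (2 * |(conj ((aff p hR).symm z) * ν z).im|) := by
    intro z
    rw [← ENNReal.ofReal_mul hR.le, rsNorm2_sub p hR z, map_mul, Complex.conj_ofReal, mul_assoc,
      Complex.im_ofReal_mul, abs_mul, abs_of_pos hR, mul_left_comm]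
  simp only [h3] at h1
  rw [lintegral_const_mul' _ _ ENNReal.ofReal_ne_top] at h1
  refine (measure_mono h2).trans ?_
  rw [Real.volume_preimage_mul_left (by positivity), affMeasure, Measure.restrict_smul,
    lintegral_smul_measure, (aff p hR).symm.measurableEmbedding.restrict_map,
    (aff p hR).symm.measurableEmbedding.lintegral_map, smul_eq_mul]
  simp only [Homeomorph.apply_symm_apply]
  refine (mul_le_mul_right h1 _).trans (le_of_eq ?_)
  rw [← mul_assoc, ← ENNReal.ofReal_mul (abs_nonneg _), abs_of_pos (by positivity)]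
  congr 2
  field_simp

theorem rsNorm2_bd {Ω : Set ℂ} {ν G : ℂ → ℂ} {β c R : ℝ} {u g : ℂ → ℝ} (hβ : 0 < β)
    (hR : 0 < R) (hT : HasTrace Ω u G g) (h : Sol Ω ν β c G g) (p : ℂ) {L : ℝ}
    (hs : aff p hR ⁻¹' Ω ⊆ ball 0 L) : ∀ᵐ z ∂(bdry Ω), ‖(aff p hR).symm z‖ ≤ L ∧
      g z ≤ R * L / (2 * β) + R ^ 2 * ((L ^ 2 - ‖(aff p hR).symm z‖ ^ 2) / 4) := by
  have hTL : ∀ᵐ z ∂(bdry Ω), ‖(aff p hR).symm z‖ ≤ L := by
    have hcl : closure Ω ⊆ {z | ‖(aff p hR).symm z‖ ≤ L} := by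
      refine closure_minimal (fun z hz => ?_)
        (isClosed_le (aff p hR).symm.continuous.norm continuous_const)
      have : (aff p hR).symm z ∈ aff p hR ⁻¹' Ω := by simpa using hz
      exact (mem_ball_zero_iff.mp (hs this)).le
    filter_upwards [h.gg.supp] with z hz using hcl hz
  have hq : ∀ z, quad p (1 / 4) (1 / 4) (R * L / (2 * β) + (R * L) ^ 2 / 4) z =
      R * L / (2 * β) + R ^ 2 * ((L ^ 2 - ‖(aff p hR).symm z‖ ^ 2) / 4) := by
    intro z
    have a : (z - p).re ^ 2 + (z - p).im ^ 2 = (R * ‖(aff p hR).symm z‖) ^ 2 := by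
      rw [← rsNorm2_norm, Complex.sq_norm, Complex.normSq_apply]
      ring
    unfold quad
    linear_combination (-1 / 4) * a
  have h1 := (compare_quad hβ h.gg hT h.weak p (1 / 4) (1 / 4)
    (R * L / (2 * β) + (R * L) ^ 2 / 4) 1 (by norm_num) (by
      filter_upwards [hTL] with z hz
      have a1 := re_conj_mul_le (h.gg.unit z) (z - p)
      rw [rsNorm2_norm p hR] at a1
      simp only [Complex.mul_re, Complex.conj_re, Complex.conj_im] at a1
      have a2 : R * ‖(aff p hR).symm z‖ ≤ R * L := by gcongr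
      have a3 : ‖(aff p hR).symm z‖ ^ 2 ≤ L ^ 2 := by gcongr
      have a4 : 0 ≤ β * (R ^ 2 * ((L ^ 2 - ‖(aff p hR).symm z‖ ^ 2) / 4)) := by
        have : 0 ≤ L ^ 2 - ‖(aff p hR).symm z‖ ^ 2 := by linarith
        positivity
      have a5 : β * (R * L / (2 * β)) = R * L / 2 := by field_simp
      rw [hq, mul_add, a5]
      linarith)).1
  filter_upwards [hTL, h1] with z hz hz'
  rw [hq] at hz'
  exact ⟨hz, by linarith⟩

/-- The normalised data. Hints: take `p` from `Sol.core` (Transport.lean, then `Core.mono`) and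
`E w = g (aff p hR w) / R ^ 2 - 1 / (2 * β * R)`. `Eabs`: `|g - R / (2β)| ≤ (g - c) + δ`,
`∫ (g - c) ≤ 7 R δ` and the length is at most `9 R` (copy `hP1`, `hP3`, `h4` of `Sol.core`), so
`∫ |E| ≤ 16 δ / R ^ 2`. `holo`: `h.holo` for `φ ∘ (aff p hR).symm`, `int_aff`, `int_affMeasure`,
`∫ φ' ν = 0` (`gg` with `dbar_holo`). `Ebd`: `compare_quad` with `A = B = 1 / 4`, `s = 1`,
`M = R L / (2β) + (R L) ^ 2 / 4` gives `E ≤ (L - 1) / (2 β R) + (L ^ 2 - ‖w‖ ^ 2) / 4`; `h.gge`
gives `E ≥ -δ / R ^ 2`; `‖w‖ ≤ L` a.e. (`GG.ae_norm_le`). `circ`: `Sol.circle`. `area`: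
`area_ineq` with `q = p` and the set `aff p hR '' A`; `‖w‖ ^ 2 = (R ^ 2)⁻¹ * ‖aff w - p‖ ^ 2`,
`Real.volume_preimage_mul_left` or `Measure.addHaar_smul`. -/
theorem core2_exists {Ω : Set ℂ} {ν G : ℂ → ℂ} {β R δ : ℝ} {u g : ℂ → ℝ} (hβ : 0 < β)
    (hR : 0 < R) (hδ : 0 ≤ δ) (hδ' : β * δ ≤ R / 10) (hL : LipschitzBoundary Ω)
    (hT : HasTrace Ω u G g) (h : Sol Ω ν β (R / (2 * β) - δ) G g)
    (hv : (volume Ω).toReal = π * R ^ 2) :
    ∃ (p : ℂ) (E : ℂ → ℝ), Core2 (aff p hR ⁻¹' Ω) (affMeasure p hR (bdry Ω))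
      (fun w => ν (aff p hR w)) ((40 * β / R + 16 / R ^ 2) * δ) (1 / (2 * β * R)) (β * R) E := by
  obtain ⟨p, hp⟩ := h.core hβ hR hδ hδ' hv
  have hβc : β * (R / (2 * β) - δ) = R / 2 - β * δ := by field_simp
  have hβδ : 0 ≤ β * δ := by positivity
  have hc0 : 0 < R / (2 * β) - δ := by
    have : 0 < β * (R / (2 * β) - δ) := by linarith
    exact (pos_iff_pos_of_mul_pos this).mp hβ
  have k1 : 0 ≤ β / R * δ := by positivity
  have k2 : 0 ≤ δ / R ^ 2 := by positivity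
  have k3 : (40 * β / R + 16 / R ^ 2) * δ = 40 * (β / R * δ) + 16 * (δ / R ^ 2) := by ring
  have := (h.gg.transport p hR).fin
  refine ⟨p, fun w => g (aff p hR w) / R ^ 2 - 1 / (2 * β * R), hp.mono ?_, by positivity,
    ((rsNorm2_integrable p hR h.gint).div_const _).sub (integrable_const _), ?_,
    rsNorm2_holo hβ hR h p, fun L hL1 hs => rsNorm2_ae p hR ?_, fun ρ hρ hm => ?_,
    rsNorm2_area hR hL h.gg p⟩
  · gcongr
    norm_num
  · have e : ∀ z, |g z / R ^ 2 - 1 / (2 * β * R)| = (R ^ 2)⁻¹ * |g z - R / (2 * β)| := by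
      intro z
      rw [← abs_of_pos (show 0 < (R ^ 2)⁻¹ by positivity), ← abs_mul]
      congr 1
      field_simp
    rw [rsNorm2_int]
    simp only [Homeomorph.apply_symm_apply, e]
    rw [integral_const_mul]
    have a1 := rsNorm2_abs hβ hR hδ hδ' h hv
    have a2 : (1 + β * R) * (R⁻¹ * ((R ^ 2)⁻¹ * (16 * R * δ))) =
        16 * (β / R * δ) + 16 * (δ / R ^ 2) := by
      field_simp
      ring
    refine le_trans (b := (1 + β * R) * (R⁻¹ * ((R ^ 2)⁻¹ * (16 * R * δ)))) (by gcongr) ?_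
    linarith
  · filter_upwards [rsNorm2_bd hβ hR hT h p hs, h.gge] with z hz hz'
    simp only [Homeomorph.apply_symm_apply]
    obtain ⟨b1, b2⟩ := hz
    have a1 : ‖(aff p hR).symm z‖ ^ 2 ≤ L ^ 2 := by gcongr
    have a2 : 0 ≤ 1 / (2 * β * R) * (L - 1) := by
      have : 0 ≤ L - 1 := by linarith
      positivity
    have a3 : (R / (2 * β) - δ) / R ^ 2 ≤ g z / R ^ 2 := by gcongr
    have a4 : g z / R ^ 2 ≤
        (R * L / (2 * β) + R ^ 2 * ((L ^ 2 - ‖(aff p hR).symm z‖ ^ 2) / 4)) / R ^ 2 := by gcongr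
    have a5 : (R / (2 * β) - δ) / R ^ 2 = 1 / (2 * β * R) - δ / R ^ 2 := by field_simp
    have a6 : (R * L / (2 * β) + R ^ 2 * ((L ^ 2 - ‖(aff p hR).symm z‖ ^ 2) / 4)) / R ^ 2 =
        1 / (2 * β * R) * (L - 1) + (L ^ 2 - ‖(aff p hR).symm z‖ ^ 2) / 4 + 1 / (2 * β * R) := by
      field_simp
      ring
    rw [abs_le]
    constructor <;> linarith
  · have hpi := pi_pos
    have a1 := h.circle hβ hc0 (by
      rw [hv, hβc]
      have : R ^ 2 < 8 * (R / 2 - β * δ) ^ 2 := by nlinarith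
      nlinarith) p (mul_pos hR hρ) (fun z hz e => hm ((aff p hR).symm z) (by
        rw [← (aff p hR).preimage_closure]
        simpa using hz) (by
        rw [rsNorm2_norm p hR] at e
        exact mul_left_cancel₀ hR.ne' e))
    have a2 : ∀ w, aff p hR w ∈ ball p (R * ρ) ↔ w ∈ ball (0 : ℂ) ρ := by
      intro w
      rw [mem_ball, dist_eq_norm, rsNorm2_norm', mem_ball_zero_iff, mul_lt_mul_iff_right₀ hR]
    refine a1.imp (fun a w hw => (a2 w).mp (a hw)) fun a => ?_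
    rw [disjoint_left] at a ⊢
    exact fun w hw hw' => a hw ((a2 w).mpr hw')

end Pool.Agent.P.MP_832dec_an
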