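import Pool.Agent.P.MP_832dec_an.Sharp.Base

set_option autoImplicit false

open MeasureTheory Set Metric Filter Topology ComplexConjugate Real

namespace Pool.Agent.P.MP_832dec_an

/-- `e5_cross` (Polar.lean) with the dilation bound only for ratios close to `1`: copy its proof,
`h3` is used only for `r = 1` and `r ∈ Ioo r0 1`, where `1 - r0 ≤ 3t`. -/
theorem cross2 {Ω : Set ℂ} (hΩ : MeasurableSet Ω) {t c : ℝ}
    (ht : 0 < t) (ht' : t ≤ 1 / 4) (hsub : Ω ⊆ ball 0 (1 + 2 * t))
    (h3 : ∀ r : ℝ, 1 / 2 ≤ r → 1 - 3 * t ≤ r → r ≤ 1 →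
      (volume ((fun z => (r : ℂ) * z) '' Ω \ Ω)).toReal ≤ c) :
    ∫ θ in Ioo (-π) π, e5rad (Ω \ ball 0 1) θ *
      e5rad ((ball 0 1 \ ball 0 (1 - t)) \ Ω) θ ≤ 27 * (c * t) := by
  obtain ⟨r0, hr1, hr2, hr3, hr4⟩ : ∃ r0 : ℝ, 1 / 2 ≤ r0 ∧ 1 - r0 ≤ 3 * t ∧ r0 ≤ 1 ∧
      r0 * (1 + 2 * t) ≤ 1 - t := by
    have h : 0 < 1 + 2 * t := by linarith
    refine ⟨(1 - t) / (1 + 2 * t), ?_, ?_, ?_, ?_⟩
    · rw [le_div_iff₀ h]
      linarith
    · rw [sub_le_comm, le_div_iff₀ h]
      nlinarith
    · rw [div_le_one h]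
      linarith
    · rw [div_mul_cancel₀ _ h.ne']
  have hc : 0 ≤ c := ENNReal.toReal_nonneg.trans (h3 1 (by norm_num) (by linarith) le_rfl)
  have hΩ2 : Ω ⊆ ball 0 2 := hsub.trans (ball_subset_ball (by linarith))
  set S : Set ℂ := Ω \ ball 0 1 with hS
  set T : Set ℂ := (ball 0 1 \ ball 0 (1 - t)) \ Ω with hT
  have hSm : MeasurableSet S := hΩ.diff measurableSet_ball
  have hTm : MeasurableSet T := (measurableSet_ball.diff measurableSet_ball).diff hΩ
  have hS2 : S ⊆ ball 0 2 := sdiff_subset.trans hΩ2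
  have hT2 : T ⊆ ball 0 2 :=
    (sdiff_subset.trans sdiff_subset).trans (ball_subset_ball (by norm_num))
  set f : ℂ → ℝ → ℝ := fun z r => Ωᶜ.indicator (fun _ => (1 : ℝ)) ((r : ℂ) * z) with hf
  have hfm : Measurable (Function.uncurry f) :=
    (measurable_const.indicator hΩ.compl).comp (by fun_prop : Measurable fun p : ℂ × ℝ =>
      (p.2 : ℂ) * p.1)
  have hf0 : ∀ z r, 0 ≤ f z r := fun z r => indicator_nonneg (fun _ _ => zero_le_one) _
  have hf1 : ∀ z r, f z r ≤ 1 := fun z r => indicator_le_self' (fun _ _ => zero_le_one) _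
  set H : ℂ → ℝ := fun z => ∫ r in Ioo r0 1, f z r with hH
  have hHm : Measurable H :=
    (hfm.stronglyMeasurable.integral_prod_right (ν := volume.restrict (Ioo r0 1))).measurable
  have hH0 : ∀ z, 0 ≤ H z := fun z => integral_nonneg fun r => hf0 z r
  have hH1 : ∀ z, H z ≤ 1 := by
    intro z
    have := norm_setIntegral_le_of_norm_le_const (μ := volume) (s := Ioo r0 1) (f := f z) (C := 1)
      (by simp) fun r _ => by rw [Real.norm_eq_abs, abs_of_nonneg (hf0 z r)]; exact hf1 z r
    rw [Real.volume_real_Ioo_of_le hr3] at this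
    have h2 := Real.le_norm_self (H z)
    simp only [hH] at h2 ⊢
    linarith
  have hqm : Measurable (Ω.indicator H) := hHm.indicator hΩ
  have hq1 : ∀ z, |Ω.indicator H z| ≤ 1 := by
    intro z
    by_cases hz : z ∈ Ω
    · rw [indicator_of_mem hz, abs_of_nonneg (hH0 z)]
      exact hH1 z
    · simp [hz]
  have hq2 : ∀ z, 2 ≤ ‖z‖ → Ω.indicator H z = 0 := by
    intro z hz
    refine indicator_of_notMem (fun h => ?_) _
    have := hΩ2 h
    simp only [mem_ball, dist_zero_right] at this
    linarith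
  have hHi : IntegrableOn H Ω := Measure.integrableOn_of_bounded (M := 1) (e5_fin hΩ2)
    hHm.aestronglyMeasurable (Eventually.of_forall fun z => by
      rw [Real.norm_eq_abs, abs_of_nonneg (hH0 z)]; exact hH1 z)
  obtain ⟨hP1, hP2⟩ := e5_polar hqm.stronglyMeasurable ((integrable_indicator_iff hΩ).2 hHi)
  simp only [smul_eq_mul] at hP1 hP2
  -- pointwise bound on a ray
  have key : ∀ θ ρ : ℝ, 0 < ρ → e5P ρ θ ∈ S → e5rad T θ ≤ 9 / 4 * H (e5P ρ θ) := by
    intro θ ρ hρ hz
    have hρ1 : 1 ≤ ρ := by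
      have := hz.2
      simp only [mem_ball, dist_zero_right, e5P_norm, abs_of_pos hρ, not_lt] at this
      exact this
    have hρ2 : ρ < 1 + 2 * t := by
      have := hsub hz.1
      simp only [mem_ball, dist_zero_right, e5P_norm, abs_of_pos hρ] at this
      exact this
    have h1 := integral_comp_mul_left_Ioi'
      (fun σ : ℝ => σ * T.indicator (fun _ => (1 : ℝ)) (e5P σ θ)) 0 hρ
    rw [mul_zero] at h1
    rw [e5rad, ← h1, smul_eq_mul, ← integral_const_mul, hH]
    simp only
    rw [← integral_const_mul, ← inter_eq_right.2 (show Ioo r0 1 ⊆ Ioi 0 from fun r hr =>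
      lt_trans (by linarith) hr.1), ← setIntegral_indicator measurableSet_Ioo]
    refine integral_mono_of_nonneg ?_ ?_ ?_
    · filter_upwards [ae_restrict_mem measurableSet_Ioi] with r hr
      have hr' : (0 : ℝ) < r := hr
      exact mul_nonneg hρ.le (mul_nonneg (by positivity)
        (indicator_nonneg (fun _ _ => zero_le_one) _))
    · refine ((integrable_indicator_iff measurableSet_Ioo).2 ?_).restrict
      refine Measure.integrableOn_of_bounded (M := 9 / 4) (by simp)
        (measurable_const.mul hfm.of_uncurry_left).aestronglyMeasurable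
        (Eventually.of_forall fun r => ?_)
      rw [Real.norm_eq_abs, abs_of_nonneg (mul_nonneg (by norm_num) (hf0 _ r))]
      linarith [hf1 (e5P ρ θ) r]
    · filter_upwards [ae_restrict_mem measurableSet_Ioi] with r hr
      have hr' : (0 : ℝ) < r := hr
      by_cases hz' : e5P (ρ * r) θ ∈ T
      · have a1 : ρ * r < 1 := by
          have := hz'.1.1
          simp only [mem_ball, dist_zero_right, e5P_norm, abs_of_pos (mul_pos hρ hr')] at this
          exact this
        have a2 : 1 - t ≤ ρ * r := by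
          have := hz'.1.2
          simp only [mem_ball, dist_zero_right, e5P_norm, abs_of_pos (mul_pos hρ hr'),
            not_lt] at this
          exact this
        have a3 : r ∈ Ioo r0 1 := by
          constructor
          · by_contra hcon
            push Not at hcon
            nlinarith
          · nlinarith
        have a4 : (r : ℂ) * e5P ρ θ ∈ Ωᶜ := by
          have : (r : ℂ) * e5P ρ θ = e5P (ρ * r) θ := by
            simp only [e5P]
            push_cast
            ring
          rw [this]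
          exact hz'.2
        rw [indicator_of_mem hz', indicator_of_mem a3]
        simp only [hf, indicator_of_mem a4]
        nlinarith
      · rw [indicator_of_notMem hz', mul_zero, mul_zero]
        exact indicator_nonneg (fun r _ => mul_nonneg (by norm_num) (hf0 _ r)) _
  have key2 : ∀ θ : ℝ, e5rad S θ * e5rad T θ ≤
      9 / 4 * ∫ ρ in Ioi (0 : ℝ), ρ * Ω.indicator H (e5P ρ θ) := by
    intro θ
    rw [e5rad, ← integral_mul_const, ← integral_const_mul]
    refine setIntegral_mono_on ((e5rad_ray hSm hS2 θ).1.mul_const _)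
      ((e5_ray hqm hq1 hq2 θ).1.const_mul _) measurableSet_Ioi fun ρ hρ => ?_
    have hρ' : (0 : ℝ) < ρ := hρ
    by_cases hz : e5P ρ θ ∈ S
    · rw [indicator_of_mem hz, indicator_of_mem hz.1]
      nlinarith [key θ ρ hρ' hz]
    · rw [indicator_of_notMem hz, mul_zero, zero_mul]
      exact mul_nonneg (by norm_num) (mul_nonneg hρ'.le (indicator_nonneg (fun z _ => hH0 z) _))
  have key3 : ∫ z in Ω, H z ≤ 12 * (c * t) := by
    have : IsFiniteMeasure (volume.restrict Ω) := isFiniteMeasure_restrict.2 (e5_fin hΩ2)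
    have hI : Integrable (Function.uncurry f)
        ((volume.restrict Ω).prod (volume.restrict (Ioo r0 1))) :=
      Integrable.of_bound hfm.aestronglyMeasurable 1 (Eventually.of_forall fun p => by
        rw [Real.norm_eq_abs, Function.uncurry, abs_of_nonneg (hf0 _ _)]; exact hf1 _ _)
    simp only [hH]
    rw [integral_integral_swap hI]
    have hb : ∀ r ∈ Ioo r0 1, ‖∫ z in Ω, f z r‖ ≤ 4 * c := by
      intro r hr
      have hr0 : 1 / 2 ≤ r := hr1.trans hr.1.le
      have hr0' : r ≠ 0 := by linarith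
      have hm : MeasurableSet ((fun z : ℂ => (r : ℂ) * z) ⁻¹' Ωᶜ) :=
        hΩ.compl.preimage (by fun_prop)
      have e1 : ∀ z, f z r = ((fun z : ℂ => (r : ℂ) * z) ⁻¹' Ωᶜ).indicator (fun _ => (1 : ℝ)) z :=
        fun z => rfl
      have e2 : Ω ∩ (fun z : ℂ => (r : ℂ) * z) ⁻¹' Ωᶜ =
          (fun z : ℂ => r • z) ⁻¹' ((fun z => (r : ℂ) * z) '' Ω \ Ω) := by
        ext z
        have hrc : (r : ℂ) ≠ 0 := by exact_mod_cast hr0'
        simp [hrc]
      simp only [e1]
      rw [setIntegral_indicator hm, e2, integral_const, smul_eq_mul, mul_one, Measure.real,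
        Measure.restrict_apply MeasurableSet.univ, univ_inter,
        Measure.addHaar_preimage_smul _ hr0', ENNReal.toReal_mul,
        ENNReal.toReal_ofReal (abs_nonneg _), Complex.finrank_real_complex, Real.norm_eq_abs,
        abs_of_nonneg (by positivity), abs_of_nonneg (by positivity)]
      refine mul_le_mul ?_ (h3 r hr0 (by linarith [hr.1]) hr.2.le) ENNReal.toReal_nonneg (by norm_num)
      rw [inv_le_comm₀ (by positivity) (by norm_num)]
      nlinarith
    have := norm_setIntegral_le_of_norm_le_const (μ := volume) (by simp) hb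
    rw [Real.volume_real_Ioo_of_le hr3] at this
    refine (Real.le_norm_self _).trans (this.trans ?_)
    nlinarith
  rw [integral_indicator hΩ] at hP2
  calc _ ≤ ∫ θ in Ioo (-Real.pi) Real.pi,
        9 / 4 * ∫ ρ in Ioi (0 : ℝ), ρ * Ω.indicator H (e5P ρ θ) :=
        integral_mono_of_nonneg (Eventually.of_forall fun θ =>
          mul_nonneg (e5rad_nonneg _ _) (e5rad_nonneg _ _)) (hP1.const_mul _)
          (Eventually.of_forall key2)
    _ = 9 / 4 * ∫ z in Ω, H z := by rw [integral_const_mul, hP2]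
    _ ≤ _ := by linarith

theorem rsRays_int {E : Set ℂ} (hE : MeasurableSet E) (hb : E ⊆ ball 0 2) {f : ℂ → ℝ}
    (hm : Measurable f) (h1 : ∀ z, |f z| ≤ 1) :
    ∫ z in E, f (dir z) = ∫ θ in Ioo (-π) π, e5rad E θ * f (cis θ) := by
  have hd : Measurable fun z => f (dir z) := hm.comp (by unfold dir; fun_prop)
  have h := (e5_polar (F := E.indicator fun z => f (dir z)) (hd.indicator hE).stronglyMeasurable
    ((integrable_indicator_iff hE).2 (Measure.integrableOn_of_bounded (M := 1) (e5_fin hb)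
      hd.aestronglyMeasurable (Eventually.of_forall fun z => h1 _)))).2
  rw [integral_indicator hE] at h
  rw [h]
  refine setIntegral_congr_fun measurableSet_Ioo fun θ _ => ?_
  simp only [e5rad]
  rw [← integral_mul_const]
  refine setIntegral_congr_fun measurableSet_Ioi fun r hr => ?_
  have hr' : (0 : ℝ) < r := hr
  by_cases hz : e5P r θ ∈ E
  · simp only [indicator_of_mem hz, dir, e5P_norm, abs_of_pos hr', mul_one, smul_eq_mul]
    rw [e5P, mul_div_cancel_left₀ _ (by exact_mod_cast hr'.ne'), cis]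
  · simp [indicator_of_notMem hz]

theorem rsRays_meas {E : Set ℂ} (hE : MeasurableSet E) : Measurable fun ζ : ℂ =>
    ∫ r in Ioi (0 : ℝ), r * E.indicator (fun _ => (1 : ℝ)) (r * ζ) := by
  have h : StronglyMeasurable fun p : ℝ × ℂ =>
      p.1 * E.indicator (fun _ => (1 : ℝ)) (p.1 * p.2) :=
    (measurable_fst.mul ((measurable_const.indicator hE).comp
      (by fun_prop : Measurable fun p : ℝ × ℂ => (p.1 : ℂ) * p.2))).stronglyMeasurable
  exact (h.integral_prod_left' (μ := volume.restrict (Ioi (0 : ℝ)))).measurable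

/-- The symmetric difference is seen by a bounded function of the direction. Hints: follow
`polar_bound` (`η`, `hηe`, `hV`, `k2`, `k3`): `A + B + C ≤ |η| + A B / s + s + 2 C`. Take
`f ζ = if 0 ≤ η' ζ then 1 else -1` with `η' ζ = ∫ r in Ioi 0, r * (1_Ω - 1_B) (r * ζ)`
(measurable: `StronglyMeasurable.integral_prod_right`), so `η θ = η' (cis θ)`, and `e5_polar`
gives `sig Ω (f ∘ dir) = ∫ η θ * f (cis θ) = ∫ |η θ|` (`dir (e5P r θ) = cis θ` for `r > 0`). -/
theorem rays_bound {Ω : Set ℂ} (hΩ : MeasurableSet Ω) {t c d s : ℝ} (ht : 0 < t)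
    (ht' : t ≤ 1 / 4) (hs : 0 < s) (hsub : Ω ⊆ ball 0 (1 + 2 * t))
    (h3 : ∀ r : ℝ, 1 / 2 ≤ r → 1 - 3 * t ≤ r → r ≤ 1 →
      (volume ((fun z => (r : ℂ) * z) '' Ω \ Ω)).toReal ≤ c)
    (h4 : (volume (ball (0 : ℂ) (1 - t) \ Ω)).toReal ≤ d) :
    ∃ f : ℂ → ℝ, Measurable f ∧ (∀ z, |f z| ≤ 1) ∧
      (volume (symmDiff Ω (ball 0 1))).toReal ≤
        (sig Ω fun z => f (dir z)) + 27 * (c * t) / s + 2 * π * s + 2 * d := by
  have hpi := Real.pi_pos
  have hΩ2 : Ω ⊆ ball 0 2 := hsub.trans (ball_subset_ball (by linarith))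
  have hB2 : ball (0 : ℂ) 1 ⊆ ball 0 2 := ball_subset_ball (by norm_num)
  have hcross := cross2 hΩ ht ht' hsub h3
  set S : Set ℂ := Ω \ ball 0 1 with hS
  set T : Set ℂ := (ball 0 1 \ ball 0 (1 - t)) \ Ω with hT
  set U : Set ℂ := ball 0 (1 - t) \ Ω with hU
  have hSm : MeasurableSet S := hΩ.diff measurableSet_ball
  have hTm : MeasurableSet T := (measurableSet_ball.diff measurableSet_ball).diff hΩ
  have hUm : MeasurableSet U := measurableSet_ball.diff hΩ
  have hS2 : S ⊆ ball 0 2 := sdiff_subset.trans hΩ2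
  have hT2 : T ⊆ ball 0 2 := (sdiff_subset.trans sdiff_subset).trans hB2
  have hU2 : U ⊆ ball 0 2 := sdiff_subset.trans (ball_subset_ball (by linarith))
  set η : ℝ → ℝ := fun θ => e5rad Ω θ - e5rad (ball 0 1) θ with hη
  have hηm : Measurable η := (e5rad_meas hΩ).sub (e5rad_meas measurableSet_ball)
  have hηb : ∀ θ, |η θ| ≤ 8 := fun θ => (abs_sub _ _).trans (by
    linarith [(e5rad_ray hΩ hΩ2 θ).2, (e5rad_ray measurableSet_ball hB2 θ).2])
  have hηe : ∀ θ, η θ = e5rad S θ - e5rad T θ - e5rad U θ := by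
    intro θ
    simp only [hη, e5rad]
    rw [← integral_sub (e5rad_ray hΩ hΩ2 θ).1 (e5rad_ray measurableSet_ball hB2 θ).1,
      ← integral_sub (e5rad_ray hSm hS2 θ).1 (e5rad_ray hTm hT2 θ).1,
      ← integral_sub (Integrable.sub' (e5rad_ray hSm hS2 θ).1 (e5rad_ray hTm hT2 θ).1)
        (e5rad_ray hUm hU2 θ).1]
    refine integral_congr_ae (Eventually.of_forall fun r => ?_)
    have hin : e5P r θ ∈ ball (0 : ℂ) (1 - t) → e5P r θ ∈ ball (0 : ℂ) 1 :=
      fun h => ball_subset_ball (by linarith) h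
    simp only [indicator]
    by_cases a1 : e5P r θ ∈ Ω <;> by_cases a2 : e5P r θ ∈ ball (0 : ℂ) 1 <;>
      by_cases a3 : e5P r θ ∈ ball (0 : ℂ) (1 - t) <;>
      first
        | exact absurd (hin a3) a2
        | simp [S, T, U, a1, a2, a3, -mem_ball]
  have hint : ∀ {E : Type} [NormedAddCommGroup E] {g : ℝ → E} (C : ℝ),
      AEStronglyMeasurable g volume → (∀ θ, ‖g θ‖ ≤ C) →
      IntegrableOn g (Ioo (-Real.pi) Real.pi) := fun C hg hC =>
    Measure.integrableOn_of_bounded (by simp) hg (Eventually.of_forall hC)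
  have hri : ∀ {E : Set ℂ}, MeasurableSet E → E ⊆ ball 0 2 →
      IntegrableOn (e5rad E) (Ioo (-Real.pi) Real.pi) := fun hE hE2 =>
    hint 4 (e5rad_meas hE).aestronglyMeasurable fun θ => (e5rad_ray hE hE2 θ).2
  have hV : (volume (symmDiff Ω (ball 0 1))).toReal ≤
      (volume S).toReal + (volume T).toReal + (volume U).toReal := by
    have hsub' : symmDiff Ω (ball 0 1) ⊆ S ∪ T ∪ U := by
      intro z hz
      rcases hz with hz | hz
      · exact Or.inl (Or.inl hz)
      · by_cases h : z ∈ ball (0 : ℂ) (1 - t)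
        · exact Or.inr ⟨h, hz.2⟩
        · exact Or.inl (Or.inr ⟨⟨hz.1, h⟩, hz.2⟩)
    rw [← ENNReal.toReal_add (e5_fin hS2) (e5_fin hT2),
      ← ENNReal.toReal_add (ENNReal.add_ne_top.2 ⟨e5_fin hS2, e5_fin hT2⟩) (e5_fin hU2)]
    refine ENNReal.toReal_mono
      (ENNReal.add_ne_top.2 ⟨ENNReal.add_ne_top.2 ⟨e5_fin hS2, e5_fin hT2⟩, e5_fin hU2⟩) ?_
    refine (measure_mono hsub').trans ((measure_union_le _ _).trans ?_)
    gcongr
    exact measure_union_le _ _
  have hpt : ∀ θ, e5rad S θ + e5rad T θ + e5rad U θ ≤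
      |η θ| + 1 / s * (e5rad S θ * e5rad T θ) + 2 * e5rad U θ + s := by
    intro θ
    have a0 := e5rad_nonneg S θ
    have b0 := e5rad_nonneg T θ
    have c0 := e5rad_nonneg U θ
    have e := hηe θ
    generalize e5rad S θ = A at *
    generalize e5rad T θ = B at *
    generalize e5rad U θ = C at *
    generalize η θ = x at *
    have k2 : 2 * min A B ≤ 1 / s * (A * B) + s := by
      have m0 : 0 ≤ min A B := le_min a0 b0
      have m1 : min A B * min A B ≤ A * B :=
        mul_le_mul (min_le_left _ _) (min_le_right _ _) m0 a0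
      have m2 : 2 * min A B ≤ 1 / s * (min A B * min A B) + s := by
        rw [← sub_nonneg]
        have : 1 / s * (min A B * min A B) + s - 2 * min A B = (min A B - s) ^ 2 / s := by
          field_simp
          ring
        rw [this]
        positivity
      have m3 := mul_le_mul_of_nonneg_left m1 (by positivity : (0 : ℝ) ≤ 1 / s)
      linarith
    have k3 : A + B + C ≤ |x| + 2 * min A B + 2 * C := by
      rcases le_total A B with h | h
      · rw [min_eq_left h]
        linarith [neg_abs_le x]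
      · rw [min_eq_right h]
        linarith [le_abs_self x]
    linarith
  have i1 : IntegrableOn (fun θ => |η θ|) (Ioo (-Real.pi) Real.pi) :=
    hint 8 hηm.abs.aestronglyMeasurable fun θ => by
      rw [Real.norm_eq_abs, abs_abs]
      exact hηb θ
  have i2 : IntegrableOn (fun θ => e5rad S θ * e5rad T θ) (Ioo (-Real.pi) Real.pi) :=
    hint (4 * 4) ((e5rad_meas hSm).mul (e5rad_meas hTm)).aestronglyMeasurable fun θ => by
      rw [norm_mul]
      exact mul_le_mul (e5rad_ray hSm hS2 θ).2 (e5rad_ray hTm hT2 θ).2 (norm_nonneg _)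
        (by norm_num)
  have i3 : IntegrableOn (fun _ : ℝ => s) (Ioo (-Real.pi) Real.pi) := integrableOn_const (by simp)
  have j2 := i2.const_mul (1 / s)
  have j3 := (hri hUm hU2).const_mul 2
  have hI := integral_mono (((hri hSm hS2).add (hri hTm hT2)).add (hri hUm hU2))
    (((i1.add j2).add j3).add i3) hpt
  rw [integral_add' ((hri hSm hS2).add (hri hTm hT2)) (hri hUm hU2),
    integral_add' (hri hSm hS2) (hri hTm hT2), integral_add' ((i1.add j2).add j3) i3,
    integral_add' (i1.add j2) j3, integral_add' i1 j2, integral_const_mul,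
    integral_const_mul, e5rad_int hSm hS2, e5rad_int hTm hT2, e5rad_int hUm hU2,
    setIntegral_const, Real.volume_real_Ioo_of_le (by linarith), smul_eq_mul] at hI
  obtain ⟨f, hf⟩ : ∃ f : ℂ → ℝ, f = fun ζ => if 0 ≤
      (∫ r in Ioi (0 : ℝ), r * Ω.indicator (fun _ => (1 : ℝ)) (r * ζ)) -
        ∫ r in Ioi (0 : ℝ), r * (ball (0 : ℂ) 1).indicator (fun _ => (1 : ℝ)) (r * ζ)
      then 1 else -1 := ⟨_, rfl⟩
  have fm : Measurable f := by
    rw [hf]
    exact Measurable.ite (measurableSet_le measurable_const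
      ((rsRays_meas hΩ).sub (rsRays_meas measurableSet_ball))) measurable_const measurable_const
  have f1 : ∀ z, |f z| ≤ 1 := fun z => by
    rw [hf]
    dsimp only
    split_ifs <;> simp
  have f2 : ∀ θ, η θ * f (cis θ) = |η θ| := fun θ => by
    have e : f (cis θ) = if 0 ≤ η θ then 1 else -1 := by
      rw [hf]
      rfl
    rw [e]
    split_ifs with h
    · rw [mul_one, abs_of_nonneg h]
    · rw [mul_neg_one, abs_of_neg (not_le.1 h)]
  have f3 : ∀ {E : Set ℂ}, MeasurableSet E → E ⊆ ball 0 2 →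
      IntegrableOn (fun θ => e5rad E θ * f (cis θ)) (Ioo (-Real.pi) Real.pi) := fun hE hE2 =>
    hint (4 * 1) ((e5rad_meas hE).mul
      (fm.comp (by unfold cis; fun_prop))).aestronglyMeasurable fun θ => by
      rw [norm_mul]
      exact mul_le_mul (e5rad_ray hE hE2 θ).2 (f1 _) (norm_nonneg _) (by norm_num)
  have f4 : (sig Ω fun z => f (dir z)) = ∫ θ in Ioo (-π) π, |η θ| := by
    rw [sig, rsRays_int hΩ hΩ2 fm f1, rsRays_int measurableSet_ball hB2 fm f1,
      ← integral_sub (f3 hΩ hΩ2) (f3 measurableSet_ball hB2)]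
    exact integral_congr_ae (Eventually.of_forall fun θ => ((sub_mul _ _ _).symm.trans (f2 θ) :))
  refine ⟨f, fm, f1, ?_⟩
  have l2 := mul_le_mul_of_nonneg_left hcross (by positivity : (0 : ℝ) ≤ 1 / s)
  rw [f4, div_eq_inv_mul, ← one_div]
  linarith

end Pool.Agent.P.MP_832dec_an
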