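import Pool.Agent.P.MP_832dec_an.Sharp.Base

set_option autoImplicit false

open MeasureTheory Set Metric Filter Topology ComplexConjugate Real

namespace Pool.Agent.P.MP_832dec_an

variable {Ω : Set ℂ} {μ : Measure ℂ} {ν : ℂ → ℂ} {ε Λ b : ℝ} {E : ℂ → ℝ}

/-- If a circle lies in `Ω`, little area is missing inside. Hints: a thickening of the circle
lies in `Ω` (`IsCompact.exists_thickening_subset_open`); `χ` a bump (`ContDiffBump`) equal to `1`
on `closedBall 0 ρ` with support in a slightly larger ball; `f = χ * conj`; `a3_integral_dbar`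
gives `∫_{Ωᶜ} dbar f = -∫_Ω dbar f = -∫ f ν`; on `Ωᶜ` `dbar f` is `2` inside and `0` outside;
`-(conj z * ν z).re ≤ ‖z - ν z‖ ^ 2 / 2` (`normsq_sub_unit`). -/
theorem GG.circle_in (h : GG Ω μ ν) (hΔ : ∫ z, ‖z - ν z‖ ^ 2 ∂μ ≤ ε) {ρ : ℝ} (hρ : 0 < ρ)
    (hs : sphere (0 : ℂ) ρ ⊆ Ω) : (volume (ball (0 : ℂ) ρ \ Ω)).toReal ≤ ε / 4 := by
  obtain ⟨δ, hδ, hth⟩ := (isCompact_sphere (0 : ℂ) ρ).exists_thickening_subset_open h.isOpen hs
  have hin : ∀ z : ℂ, ρ ≤ ‖z‖ → ‖z‖ < ρ + δ → z ∈ Ω := by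
    intro z h1 h2
    have hz : 0 < ‖z‖ := hρ.trans_le h1
    refine hth (mem_thickening_iff.2 ⟨(ρ / ‖z‖) • z, ?_, ?_⟩)
    · rw [mem_sphere_zero_iff_norm, norm_smul, Real.norm_of_nonneg (by positivity),
        div_mul_cancel₀ _ hz.ne']
    · rw [dist_eq_norm, show z - (ρ / ‖z‖) • z = (1 - ρ / ‖z‖) • z by rw [sub_smul, one_smul],
        norm_smul, Real.norm_of_nonneg (sub_nonneg.2 ((div_le_one hz).2 h1)), sub_mul,
        div_mul_cancel₀ _ hz.ne']
      linarith
  let χ : ContDiffBump (0 : ℂ) := ⟨ρ, ρ + δ / 2, hρ, by linarith⟩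
  have hf : ContDiff ℝ 1 fun z : ℂ => (χ z : ℂ) * conj z :=
    (Complex.ofRealCLM.contDiff.comp χ.contDiff).mul contDiff_conj
  have hsup : tsupport (fun z : ℂ => (χ z : ℂ) * conj z) ⊆ closedBall 0 (ρ + δ / 2) := by
    refine closure_minimal (fun z hz => ?_) isClosed_closedBall
    refine ball_subset_closedBall (χ.support_eq.subset fun h0 => hz ?_)
    simp [h0]
  have hcs : HasCompactSupport fun z : ℂ => (χ z : ℂ) * conj z :=
    (isCompact_closedBall _ _).of_isClosed_subset (isClosed_tsupport _) hsup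
  have hi : Integrable (dbar fun z : ℂ => (χ z : ℂ) * conj z) :=
    (continuous_dbar hf).integrable_of_hasCompactSupport
      (HasCompactSupport.intro hcs.isCompact fun z hz => a3_dbar_eq_zero hz)
  have hm := h.isOpen.measurableSet
  have h1 := integral_add_compl hm hi
  have h2 : ∫ z in Ωᶜ, dbar (fun z : ℂ => (χ z : ℂ) * conj z) z =
      ∫ z in Ωᶜ, (ball (0 : ℂ) ρ).indicator (fun _ => (2 : ℂ)) z := by
    refine setIntegral_congr_fun hm.compl fun z hz => ?_
    by_cases hz' : ‖z‖ < ρ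
    · have he : (fun z : ℂ => (χ z : ℂ) * conj z) =ᶠ[𝓝 z] fun z => conj z := by
        filter_upwards [isOpen_ball.mem_nhds (mem_ball_zero_iff.2 hz')] with w hw
        rw [χ.one_of_mem_closedBall (ball_subset_closedBall hw), Complex.ofReal_one, one_mul]
      rw [indicator_of_mem (mem_ball_zero_iff.2 hz'), ← dbar_conj z, dbar, dbar, he.fderiv_eq]
    · rw [indicator_of_notMem (fun h' => hz' (mem_ball_zero_iff.1 h'))]
      refine a3_dbar_eq_zero fun h' => hz (hin z (not_lt.1 hz') ?_)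
      linarith [mem_closedBall_zero_iff.1 (hsup h')]
  rw [a3_integral_dbar hf hcs, h.gg _ hf, h2, setIntegral_indicator measurableSet_ball,
    setIntegral_const, inter_comm, ← sdiff_eq] at h1
  have hc : Continuous χ := χ.continuous
  have i1 : Integrable (fun z => (χ z : ℂ) * conj z * ν z) μ :=
    h.integrable₂ (F := fun p => (χ p.1 : ℂ) * conj p.1 * p.2) (by fun_prop)
  have i2 : Integrable (fun z => ‖z - ν z‖ ^ 2) μ :=
    h.integrable₂ (F := fun p => ‖p.1 - p.2‖ ^ 2) (by fun_prop)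
  have h3 := integral_mono i1.re.neg (i2.div_const 2) fun z => by
    have a1 := normsq_sub_unit (h.unit z) z
    have a2 := χ.nonneg' z
    have a3 : χ z ≤ 1 := χ.le_one
    simp only [Pi.neg_apply, RCLike.re_to_complex]
    rw [mul_assoc, Complex.re_ofReal_mul]
    nlinarith [sq_nonneg ‖z‖, sq_nonneg ‖z - ν z‖, mul_nonneg a2 (sq_nonneg ‖z‖),
      mul_nonneg (sub_nonneg.2 a3) (sq_nonneg ‖z - ν z‖)]
  have h4 := congrArg Complex.re h1
  simp only [Pi.neg_apply] at h3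
  rw [integral_neg, integral_div, integral_re i1] at h3
  simp only [RCLike.re_to_complex, Complex.add_re, Complex.real_smul, Complex.re_ofReal_mul,
    Complex.re_ofNat, Complex.zero_re, Measure.real] at h3 h4
  linarith

theorem rsShell_shell (h : Core2 Ω μ ν ε Λ b E) (hΔ : ∫ z, ‖z - ν z‖ ^ 2 ∂μ ≤ ε) {t a c : ℝ}
    (ht : 0 < t) (ha : 1 / 2 ≤ a) (hac : a ≤ c) (hε : ε < 1 / 8) (hl : 2 / t * ε < c ^ 2 - a ^ 2)
    (hd : ∀ x, a ≤ x → x ≤ c → t ≤ |x - 1|) :
    ∃ ρ, a ≤ ρ ∧ ρ ≤ c ∧ (sphere (0 : ℂ) ρ ⊆ Ω ∨ Ω ⊆ ball 0 ρ) := by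
  have ho := h.gg.isOpen
  obtain ⟨ρ, h1, h2, h3⟩ : ∃ ρ, a ≤ ρ ∧ ρ ≤ c ∧ ∀ z ∈ frontier Ω, ‖z‖ ≠ ρ := by
    by_contra hn
    push Not at hn
    have hA : MeasurableSet ((fun z : ℂ => ‖z‖) ⁻¹' Icc a c) := measurable_norm measurableSet_Icc
    have e1 : Icc (a ^ 2) (c ^ 2) ⊆
        (fun z : ℂ => ‖z‖ ^ 2) '' ((fun z : ℂ => ‖z‖) ⁻¹' Icc a c ∩ frontier Ω) := by
      intro s hs
      have b1 : a ≤ √s := Real.le_sqrt_of_sq_le hs.1
      have b2 : √s ≤ c := Real.sqrt_le_iff.2 ⟨by linarith, hs.2⟩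
      obtain ⟨z, hz, hz'⟩ := hn _ b1 b2
      refine ⟨z, ⟨?_, hz⟩, ?_⟩
      · rw [mem_preimage, hz']
        exact ⟨b1, b2⟩
      · beta_reduce
        rw [hz', Real.sq_sqrt ((sq_nonneg a).trans hs.1)]
    have e2 := ((measure_mono e1).trans (h.area _ hA)).trans ((setLIntegral_mono' hA
      (g := fun z => ENNReal.ofReal (2 / t * ‖z - ν z‖ ^ 2)) fun z hz => by
        refine ENNReal.ofReal_le_ofReal ?_
        have b1 := abs_im_le (h.gg.unit z) z
        have b2 := abs_norm_sub_norm_le z (ν z)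
        rw [h.gg.unit] at b2
        have b3 := mul_le_mul b1 ((hd _ hz.1 hz.2).trans b2) ht.le (norm_nonneg _)
        rw [div_mul_eq_mul_div, le_div_iff₀ ht]
        linarith).trans (setLIntegral_le_lintegral _ _))
    rw [← ofReal_integral_eq_lintegral_ofReal (h.intE.const_mul _)
      (Eventually.of_forall fun z => by positivity), Real.volume_Icc, integral_const_mul,
      ENNReal.ofReal_le_ofReal_iff (by positivity)] at e2
    linarith [mul_le_mul_of_nonneg_left hΔ (by positivity : 0 ≤ 2 / t)]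
  refine ⟨ρ, h1, h2, ?_⟩
  rcases (isPreconnected_sphere (by simp) (0 : ℂ) ρ).subset_or_subset ho
    isClosed_closure.isOpen_compl (disjoint_compl_right.mono_left (subset_closure (s := Ω)))
    (fun z hz => by
      by_contra hn
      simp only [mem_union, mem_compl_iff, not_or, not_not] at hn
      exact h3 z ⟨hn.2, by rw [ho.interior_eq]; exact hn.1⟩ (mem_sphere_zero_iff_norm.1 hz))
    with h4 | h4
  · exact Or.inl h4
  refine Or.inr ((h.circ ρ (by linarith) fun z hz e =>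
    h4 (mem_sphere_zero_iff_norm.2 e) hz).resolve_right fun h5 => ?_)
  have h6 := h.inner hΔ ((h.sub_ball hΔ one_half_pos (by linarith)).trans
    (ball_subset_ball (by norm_num))) one_half_pos
  rw [(h5.symm.mono_left (ball_subset_ball (by linarith))).sdiff_eq_left,
    vol_ball_radius (by norm_num)] at h6
  linarith [pi_gt_three]

/-- Sharp outer radius. Hints: `Ω ⊆ ball 0 2` (`Core.sub_ball`, `t = 1 / 2`). If `z₀ ∈ Ω` has norm
at least `1 + 2t`, every circle of radius `ρ ∈ [1 + t, 1 + 2t]` meets `frontier Ω`: otherwise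
(circles are preconnected, see `line_miss`) it lies in `Ω` (area contradiction with
`GG.circle_in`) or misses the closure (`h.circ`, `Core.inner` with `t = 1 / 2`). Then `h.area` for
the shell: `2t ≤ 2 ε / t`, because `t * |(conj z * ν z).im| ≤ ‖z - ν z‖ ^ 2` when
`t ≤ |‖z‖ - 1|` (`abs_im_le`, `abs_norm_sub_norm_le`). -/
theorem Core2.outer (h : Core2 Ω μ ν ε Λ b E) (hΔ : ∫ z, ‖z - ν z‖ ^ 2 ∂μ ≤ ε) {t : ℝ}
    (ht : 0 < t) (ht' : t ≤ 1 / 4) (hε : 2 * ε < t ^ 2) : Ω ⊆ ball 0 (1 + 2 * t) := by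
  obtain ⟨ρ, h1, h2, h3 | h3⟩ := rsShell_shell h hΔ (a := 1 + t) (c := 1 + 2 * t) ht (by linarith)
    (by linarith) (by nlinarith) (by
      rw [div_mul_eq_mul_div, div_lt_iff₀ ht]
      nlinarith [pow_pos ht 3]) fun x h1 _ => le_abs.2 (Or.inl (by linarith))
  · exfalso
    have h4 := h.gg.circle_in hΔ (by linarith) h3
    have h5 : volume.real (ball (0 : ℂ) ρ) ≤ volume.real (ball 0 ρ \ Ω) + volume.real Ω :=
      (measureReal_mono (subset_sdiff_union _ _) (measure_union_ne_top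
        (measure_ne_top_of_subset sdiff_subset measure_ball_lt_top.ne)
        h.gg.vol_lt_top.ne)).trans (measureReal_union_le _ _)
    simp only [Measure.real] at h5
    rw [vol_ball_radius (by linarith), h.volR] at h5
    have h6 : 3 * (ρ ^ 2 - 1) ≤ π * (ρ ^ 2 - 1) :=
      mul_le_mul_of_nonneg_right pi_gt_three.le (by nlinarith)
    nlinarith
  · exact h3.trans (ball_subset_ball h2)

/-- Sharp inner bound: some circle of radius in `[1 - 2t, 1 - t]` lies in `Ω` (same argument, the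
interval of squared radii has length `2t - 3t² ≥ 5t / 4`). -/
theorem Core2.inner2 (h : Core2 Ω μ ν ε Λ b E) (hΔ : ∫ z, ‖z - ν z‖ ^ 2 ∂μ ≤ ε) {t : ℝ}
    (ht : 0 < t) (ht' : t ≤ 1 / 4) (hε : 2 * ε < t ^ 2) :
    (volume (ball (0 : ℂ) (1 - 2 * t) \ Ω)).toReal ≤ ε := by
  have h0 : 0 ≤ ε := (integral_nonneg fun z => by positivity).trans hΔ
  obtain ⟨ρ, h1, h2, h3 | h3⟩ := rsShell_shell h hΔ (a := 1 - 2 * t) (c := 1 - t) ht (by linarith)
    (by linarith) (by nlinarith) (by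
      rw [div_mul_eq_mul_div, div_lt_iff₀ ht]
      nlinarith [mul_le_mul_of_nonneg_left ht' (sq_nonneg t)])
    fun x _ h1 => le_abs.2 (Or.inr (by linarith))
  · have h4 := h.gg.circle_in hΔ (by linarith) h3
    have h5 := ENNReal.toReal_mono
      (measure_ne_top_of_subset sdiff_subset (measure_ball_lt_top (μ := volume)).ne)
      (measure_mono (sdiff_subset_sdiff_left (t := Ω) (ball_subset_ball (x := (0 : ℂ)) h1)))
    linarith
  · exfalso
    have h4 := ENNReal.toReal_mono (measure_ball_lt_top (μ := volume)).ne (measure_mono h3)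
    rw [vol_ball_radius (by linarith), h.volR] at h4
    have h5 : ρ ^ 2 < 1 := by nlinarith
    nlinarith [pi_pos]

/-- Sharper form of `Core.dil` (Core3.lean): `flow` with `ζ = log r`, `-log r ≤ 2 (1 - r)`. -/
theorem Core.dil2 (h : Core Ω μ ν ε) (hΔ : ∫ z, ‖z - ν z‖ ^ 2 ∂μ ≤ ε) {r : ℝ} (hr : 1 / 2 ≤ r)
    (hr1 : r ≤ 1) : (volume ((fun z => (r : ℂ) * z) '' Ω \ Ω)).toReal ≤ (1 - r) * ε := by
  have hr0 : 0 < r := by linarith
  have hl : Real.log r ≤ 0 := Real.log_nonpos hr0.le hr1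
  have hl' : -Real.log r ≤ 2 * (1 - r) := by
    have h1 := Real.one_sub_inv_le_log_of_pos hr0
    have h2 : r⁻¹ ≤ 3 - 2 * r := by
      rw [inv_le_iff_one_le_mul₀ hr0]
      nlinarith
    linarith
  have h1 := flow h.gg (ζ := (Real.log r : ℝ)) (by simpa using hl)
  rw [← Complex.ofReal_exp, Real.exp_log hr0] at h1
  refine h1.trans (le_trans ?_ (mul_le_mul_of_nonneg_left hΔ (sub_nonneg.2 hr1)))
  have i1 : Integrable (fun z : ℂ => max (conj (((Real.log r : ℝ) : ℂ) * z) * ν z).re 0) μ :=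
    h.gg.integrable₂ (F := fun p => max (conj (((Real.log r : ℝ) : ℂ) * p.1) * p.2).re 0)
      (by fun_prop)
  rw [← integral_const_mul]
  refine integral_mono i1 (h.intE.const_mul _) fun z => ?_
  have a1 : (conj (((Real.log r : ℝ) : ℂ) * z) * ν z).re = Real.log r * (conj z * ν z).re := by
    rw [map_mul, Complex.conj_ofReal, mul_assoc, Complex.re_ofReal_mul]
  have a2 := normsq_sub_unit (h.gg.unit z) z
  have a3 : 0 ≤ (1 - r) * ‖z - ν z‖ ^ 2 := mul_nonneg (sub_nonneg.2 hr1) (sq_nonneg _)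
  refine max_le ?_ a3
  rw [a1]
  rcases le_total 0 (conj z * ν z).re with h2 | h2
  · exact (mul_nonpos_of_nonpos_of_nonneg hl h2).trans a3
  · have a4 := mul_le_mul hl' (show -(conj z * ν z).re ≤ ‖z - ν z‖ ^ 2 / 2 by
      nlinarith [sq_nonneg ‖z‖]) (by linarith) (by linarith)
    linarith

end Pool.Agent.P.MP_832dec_an
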