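import Pool.Agent.P.MP_832dec_an.Sharp.Kernel

set_option autoImplicit false

open MeasureTheory Set Metric Filter Topology ComplexConjugate Real

namespace Pool.Agent.P.MP_832dec_an

theorem rsSmooth_norm_cis (θ : ℝ) : ‖cis θ‖ = 1 := Complex.norm_exp_ofReal_mul_I θ

theorem rsSmooth_cis_add (x y : ℝ) : cis (x + y) = cis x * cis y := by
  unfold cis
  rw [← Complex.exp_add]
  congr 1
  push_cast
  ring

theorem rsSmooth_cis_two_pi : cis (2 * π) = 1 := by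
  unfold cis
  push_cast
  exact Complex.exp_two_pi_mul_I

theorem rsSmooth_cis_zero : cis 0 = 1 := by simp [cis]

theorem rsSmooth_cis_cont : Continuous cis := by
  unfold cis
  fun_prop

theorem rsSmooth_dir_meas : Measurable dir := by
  unfold dir
  fun_prop

theorem rsSmooth_norm_dir (z : ℂ) : ‖dir z‖ ≤ 1 := by
  unfold dir
  rw [norm_div, Complex.norm_real, norm_norm]
  exact div_self_le_one _

theorem rsSmooth_dir_eq {z : ℂ} (hz : z ≠ 0) : dir z = cis z.arg := by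
  have h : (‖z‖ : ℂ) ≠ 0 := by exact_mod_cast norm_ne_zero_iff.2 hz
  unfold dir cis
  rw [div_eq_iff h, mul_comm]
  exact (Complex.norm_mul_exp_arg_mul_I z).symm

theorem rsSmooth_dir_rot (θ : ℝ) (z : ℂ) : dir (cis θ * z) = dir z * cis θ := by
  unfold dir
  rw [norm_mul, rsSmooth_norm_cis, one_mul]
  ring

theorem rsSmooth_sub_dir {z : ℂ} (hz : z ≠ 0) : ‖z - dir z‖ = |‖z‖ - 1| := by
  have h : (‖z‖ : ℂ) ≠ 0 := by exact_mod_cast norm_ne_zero_iff.2 hz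
  have e : z - dir z = ((‖z‖ - 1 : ℝ) : ℂ) * dir z := by
    unfold dir
    push_cast
    field_simp
  rw [e, norm_mul, rsSmooth_dir_eq hz, rsSmooth_norm_cis, mul_one, Complex.norm_real,
    Real.norm_eq_abs]

/-- the Poisson integral at a rotated point -/
theorem rsSmooth_shift (f : ℂ → ℝ) (ρ : ℂ) (φ : ℝ) :
    PF f (ρ * cis φ) = (2 * π)⁻¹ * ∫ θ in Ioo (-π) π, f (cis φ * cis θ) * Pois (ρ * cis (-θ)) := by
  unfold PF
  congr 1
  have hle : -π ≤ π := by linarith [pi_pos]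
  have hp : Function.Periodic (fun θ : ℝ => f (cis θ) * Pois (ρ * cis φ * cis (-θ))) (2 * π) := by
    intro θ
    have h1 : cis (θ + 2 * π) = cis θ := by rw [rsSmooth_cis_add, rsSmooth_cis_two_pi, mul_one]
    have h2 : cis (-(θ + 2 * π)) = cis (-θ) := by
      have := rsSmooth_cis_add (-(θ + 2 * π)) (2 * π)
      rw [rsSmooth_cis_two_pi, mul_one] at this
      rw [← this]
      congr 1
      ring
    simp only [h1, h2]
  rw [← integral_Ioc_eq_integral_Ioo, ← integral_Ioc_eq_integral_Ioo,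
    ← intervalIntegral.integral_of_le hle, ← intervalIntegral.integral_of_le hle]
  have h3 := hp.intervalIntegral_add_eq (-π) (-π + φ)
  rw [show -π + 2 * π = π by ring, show -π + φ + 2 * π = π + φ by ring,
    ← intervalIntegral.integral_comp_add_right] at h3
  rw [h3]
  congr 1
  funext θ
  have h4 : cis φ * cis (-(θ + φ)) = cis (-θ) := by
    rw [← rsSmooth_cis_add]
    congr 1
    ring
  rw [mul_assoc, h4, rsSmooth_cis_add, mul_comm (cis θ)]

theorem rsSmooth_int {A : Set ℂ} (hA : MeasurableSet A) (hb : volume A ≠ ⊤) {g : ℂ → ℝ}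
    (hg : Measurable g) {C : ℝ} (h1 : ∀ z ∈ A, |g z| ≤ C) : IntegrableOn g A :=
  Measure.integrableOn_of_bounded (M := C) hb hg.aestronglyMeasurable
    ((ae_restrict_mem hA).mono h1)

theorem rsSmooth_abs_int {A : Set ℂ} (hb : volume A ≠ ⊤) {g : ℂ → ℝ} {C : ℝ}
    (h1 : ∀ z ∈ A, |g z| ≤ C) : |∫ z in A, g z| ≤ C * (volume A).toReal :=
  norm_setIntegral_le_of_norm_le_const (μ := volume) (s := A) (f := g) hb.lt_top h1

/-- rotating the argument of a bounded function -/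
theorem rsSmooth_rot {A : Set ℂ} (hA : MeasurableSet A) (hb : volume A ≠ ⊤) {g : ℂ → ℝ}
    (hg : Measurable g) (h1 : ∀ z, |g z| ≤ 1) (θ : ℝ) :
    |(∫ z in A, g (cis θ * z)) - ∫ z in A, g z| ≤
      2 * (volume ((fun z => Complex.exp (θ * Complex.I) * z) '' A \ A)).toReal := by
  let T : ℂ ≃ₗᵢ[ℝ] ℂ := rotation (Circle.exp θ)
  have hT : (fun z => Complex.exp (θ * Complex.I) * z) = T := by
    funext z
    simp [T]
  rw [hT]
  have hmp : MeasurePreserving T volume volume := T.measurePreserving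
  have hemb : MeasurableEmbedding T := T.toHomeomorph.measurableEmbedding
  have hA' : MeasurableSet (T '' A) := hemb.measurableSet_image.2 hA
  have hv : volume (T '' A) = volume A := by
    rw [← hmp.measure_preimage hA'.nullMeasurableSet, preimage_image_eq _ T.injective]
  have hb' : volume (T '' A) ≠ ⊤ := hv ▸ hb
  have e : ∫ z in A, g (cis θ * z) = ∫ z in T '' A, g z := by
    rw [hmp.setIntegral_image_emb hemb, ← hT]
    rfl
  have h5 : (volume (A \ T '' A)).toReal = (volume (T '' A \ A)).toReal := by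
    have a1 := measure_inter_add_sdiff (μ := volume) A hA'
    have a2 := measure_inter_add_sdiff (μ := volume) (T '' A) hA
    rw [inter_comm, hv, ← a1] at a2
    rw [(ENNReal.add_right_inj (measure_ne_top_of_subset inter_subset_left hb)).1 a2]
  rw [e, int_sub_split hA' hA (rsSmooth_int hA' hb' hg fun z _ => h1 z)
    (rsSmooth_int hA hb hg fun z _ => h1 z)]
  have h8 := rsSmooth_abs_int (measure_ne_top_of_subset (sdiff_subset (t := T '' A)) hb)
    fun z _ => h1 z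
  have h9 := rsSmooth_abs_int (measure_ne_top_of_subset (sdiff_subset (t := A)) hb')
    fun z _ => h1 z
  have h7 := abs_sub (∫ z in T '' A \ A, g z) (∫ z in A \ T '' A, g z)
  linarith

/-- averaging the rotations of a bounded function against a kernel of mass one -/
theorem rsSmooth_avg {A : Set ℂ} (hA : MeasurableSet A) (hb : volume A ≠ ⊤) {f : ℂ → ℝ}
    (hf : Measurable f) (h1 : ∀ z, |f z| ≤ 1) {T K : ℝ → ℝ} (hT : IntegrableOn T (Ioo (-π) π))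
    (hK : IntegrableOn K (Ioo (-π) π)) (hT1 : ∫ θ in Ioo (-π) π, T θ = 2 * π)
    (hTK : ∀ θ ∈ Ioo (-π) π, |θ| * |T θ| ≤ K θ) {b : ℝ} (hb0 : 0 ≤ b)
    (hrot : ∀ θ : ℝ,
      (volume ((fun z => Complex.exp (θ * Complex.I) * z) '' A \ A)).toReal ≤ |θ| * b) :
    |(∫ z in A, (2 * π)⁻¹ * ∫ θ in Ioo (-π) π, f (dir z * cis θ) * T θ) - ∫ z in A, f (dir z)| ≤
      (2 * π)⁻¹ * (2 * b * ∫ θ in Ioo (-π) π, K θ) := by
  have : IsFiniteMeasure (volume.restrict A) := ⟨by simpa using hb.lt_top⟩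
  have hm : Measurable fun p : ℂ × ℝ => f (dir p.1 * cis p.2) :=
    hf.comp ((rsSmooth_dir_meas.comp measurable_fst).mul
      (rsSmooth_cis_cont.measurable.comp measurable_snd))
  have hI : Integrable (Function.uncurry fun (z : ℂ) (θ : ℝ) => f (dir z * cis θ) * T θ)
      ((volume.restrict A).prod (volume.restrict (Ioo (-π) π))) :=
    (Integrable.comp_snd hT (volume.restrict A)).bdd_mul (c := 1) hm.aestronglyMeasurable
      (Eventually.of_forall fun p => h1 _)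
  have hI2 := hI.integral_prod_right
  simp only [Function.uncurry, integral_mul_const] at hI2
  have hπ : 0 < 2 * π := by positivity
  rw [integral_const_mul, integral_integral_swap hI]
  simp only [integral_mul_const]
  have e : ∫ z in A, f (dir z) =
      (2 * π)⁻¹ * ∫ θ in Ioo (-π) π, (∫ z in A, f (dir z)) * T θ := by
    rw [integral_const_mul, hT1]
    field_simp
  rw [e, ← mul_sub, abs_mul, abs_of_pos (inv_pos.2 hπ), ← integral_sub hI2 (hT.const_mul _),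
    ← integral_const_mul]
  refine mul_le_mul_of_nonneg_left ?_ (inv_pos.2 hπ).le
  rw [← Real.norm_eq_abs]
  refine norm_integral_le_of_norm_le (hK.const_mul _) ?_
  filter_upwards [ae_restrict_mem measurableSet_Ioo] with θ hθ
  have h2 := rsSmooth_rot hA hb (hf.comp rsSmooth_dir_meas) (fun z => h1 _) θ
  simp only [Function.comp, rsSmooth_dir_rot] at h2
  rw [← sub_mul, Real.norm_eq_abs, abs_mul]
  have h3 : |(∫ z in A, f (dir z * cis θ)) - ∫ z in A, f (dir z)| ≤ 2 * (|θ| * b) := by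
    linarith [hrot θ]
  have h4 := mul_le_mul_of_nonneg_right h3 (abs_nonneg (T θ))
  have h5 := mul_le_mul_of_nonneg_left (hTK θ hθ) (by positivity : 0 ≤ 2 * b)
  linarith

theorem rsSmooth_pois_eq {ρ : ℝ} (h0 : 0 ≤ ρ) (h1 : ρ < 1) (θ : ℝ) :
    Pois (ρ * cis (-θ)) * ((1 - ρ) ^ 2 + ρ * (2 - 2 * cos θ)) = 1 - ρ ^ 2 := by
  have hn : ‖(ρ : ℂ) * cis (-θ)‖ = ρ := by
    rw [norm_mul, rsSmooth_norm_cis, mul_one, Complex.norm_real, Real.norm_eq_abs,
      abs_of_nonneg h0]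
  have hre : ((ρ : ℂ) * cis (-θ)).re = ρ * cos θ := by
    rw [Complex.re_ofReal_mul, cis, Complex.exp_ofReal_mul_I_re, cos_neg]
  have hd : ‖1 - (ρ : ℂ) * cis (-θ)‖ ^ 2 = (1 - ρ) ^ 2 + ρ * (2 - 2 * cos θ) := by
    rw [← Complex.normSq_eq_norm_sq, Complex.normSq_sub, Complex.normSq_eq_norm_sq (_ * _), hn]
    simp only [map_one, one_mul, Complex.conj_re, hre]
    ring
  have hpos : 0 < (1 - ρ) ^ 2 + ρ * (2 - 2 * cos θ) := by
    have := cos_le_one θ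
    have h2 : 0 < (1 - ρ) ^ 2 := pow_pos (by linarith) 2
    have h3 : 0 ≤ ρ * (2 - 2 * cos θ) := mul_nonneg h0 (by linarith)
    linarith
  unfold Pois
  rw [hn, hd, div_mul_cancel₀ _ hpos.ne']

/-- the first moment of the two-scale kernel, pointwise -/
theorem rsSmooth_ker {κ r α γ P Q x θ : ℝ} (hκ : 0 < κ) (hκ' : κ ≤ 1 / 2) (hr : r = 1 - κ)
    (hα : α * (1 - r + r ^ 2) = 1 + r ^ 2) (hγ : γ * (1 - r + r ^ 2) = r) (hα0 : 0 ≤ α)
    (hα2 : α ≤ 2) (hγ0 : 0 ≤ γ) (hγ1 : γ ≤ 1) (hP0 : 0 ≤ P) (hQ0 : 0 ≤ Q) (hx : 0 ≤ x)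
    (hθ : θ ^ 2 ≤ 5 / 2 * x) (hP : P * ((1 - r) ^ 2 + r * x) = 1 - r ^ 2)
    (hQ : Q * ((1 - r ^ 2) ^ 2 + r ^ 2 * x) = 1 - (r ^ 2) ^ 2) :
    |θ| * |α * P - γ * Q| ≤ 6 * κ * (P + Q) := by
  have hr0 : 1 / 2 ≤ r := by linarith
  have hr1 : r ≤ 1 := by linarith
  have hT : |α * P - γ * Q| ≤ 2 * P + Q := by
    have a1 := mul_le_mul_of_nonneg_right hα2 hP0
    have a2 := mul_le_mul_of_nonneg_right hγ1 hQ0
    have a3 := mul_nonneg hα0 hP0
    have a4 := mul_nonneg hγ0 hQ0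
    rw [abs_le]
    constructor <;> linarith
  have hD : 3 / 8 ≤ r * (1 - r + r ^ 2) := by
    have : 3 / 4 ≤ 1 - r + r ^ 2 := by nlinarith [sq_nonneg (r - 1 / 2)]
    nlinarith
  have hE : r * (r * (1 - r + r ^ 2) * (x * (α * P - γ * Q))) =
      r * (-(1 + r ^ 2) * κ ^ 2 * P + κ ^ 2 * (1 + r) ^ 2 * Q) := by
    have hk : κ = 1 - r := by linarith
    rw [hk]
    linear_combination r ^ 2 * x * P * hα - r ^ 2 * x * Q * hγ + (1 + r ^ 2) * r * hP - r * hQ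
  have hE' := mul_left_cancel₀ (by linarith : r ≠ 0) hE
  have hxT : x * |α * P - γ * Q| ≤ 6 * κ ^ 2 * P + 11 * κ ^ 2 * Q := by
    have b1 : r * (1 - r + r ^ 2) * (x * |α * P - γ * Q|) ≤ 2 * (κ ^ 2 * P) + 4 * (κ ^ 2 * Q) := by
      have c0 : r * (1 - r + r ^ 2) * (x * |α * P - γ * Q|) =
          |r * (1 - r + r ^ 2) * (x * (α * P - γ * Q))| := by
        rw [abs_mul, abs_mul x, abs_of_nonneg hx,
          abs_of_nonneg (by linarith : 0 ≤ r * (1 - r + r ^ 2))]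
      have c1 : 0 ≤ κ ^ 2 * P := by positivity
      have c2 : 0 ≤ κ ^ 2 * Q := by positivity
      have c3 : (1 + r ^ 2) * (κ ^ 2 * P) ≤ 2 * (κ ^ 2 * P) :=
        mul_le_mul_of_nonneg_right (by nlinarith) c1
      have c4 : (1 + r) ^ 2 * (κ ^ 2 * Q) ≤ 4 * (κ ^ 2 * Q) :=
        mul_le_mul_of_nonneg_right (by nlinarith) c2
      have c5 : 0 ≤ (1 + r ^ 2) * (κ ^ 2 * P) := by positivity
      have c6 : 0 ≤ (1 + r) ^ 2 * (κ ^ 2 * Q) := by positivity
      rw [c0, hE', abs_le]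
      constructor <;> linarith
    have b2 := mul_le_mul_of_nonneg_right hD (mul_nonneg hx (abs_nonneg (α * P - γ * Q)))
    have c1 : 0 ≤ κ ^ 2 * P := by positivity
    have c2 : 0 ≤ κ ^ 2 * Q := by positivity
    linarith
  have d1 : 8 * κ * |θ| ≤ 16 * κ ^ 2 + 5 / 2 * x := by
    have := sq_nonneg (4 * κ - |θ|)
    have h2 := sq_abs θ
    nlinarith
  have d2 := mul_le_mul_of_nonneg_right d1 (abs_nonneg (α * P - γ * Q))
  have d3 := mul_le_mul_of_nonneg_left hT (by positivity : 0 ≤ 16 * κ ^ 2)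
  have c1 : 0 ≤ κ ^ 2 * P := by positivity
  have c2 : 0 ≤ κ ^ 2 * Q := by positivity
  refine le_of_mul_le_mul_left ?_ (by positivity : 0 < 8 * κ)
  linarith

theorem rsSmooth_sq_le {θ : ℝ} (h : θ ∈ Ioo (-π) π) : θ ^ 2 ≤ 5 / 2 * (2 - 2 * cos θ) := by
  have h1 := cos_le_one_sub_mul_cos_sq (abs_le.2 ⟨h.1.le, h.2.le⟩)
  have h2 : π ^ 2 ≤ 10 := by nlinarith [pi_lt_d2, pi_pos]
  have h3 : 1 / 5 ≤ 2 / π ^ 2 := by
    rw [div_le_div_iff₀ (by norm_num) (by positivity)]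
    linarith
  have h4 := mul_le_mul_of_nonneg_right h3 (sq_nonneg θ)
  linarith

theorem rsSmooth_pois_on {w : ℂ} (hw : ‖w‖ < 1) :
    IntegrableOn (fun θ : ℝ => Pois (w * cis (-θ))) (Ioo (-π) π) :=
  ((pois_cont hw).continuousOn.integrableOn_Icc).mono_set Ioo_subset_Icc_self

/-- part (D): the two-scale Poisson integral on the circle against the function itself -/
theorem rsSmooth_D {A : Set ℂ} (hA : MeasurableSet A) (hb : volume A ≠ ⊤) {f : ℂ → ℝ}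
    (hf : Measurable f) (h1 : ∀ z, |f z| ≤ 1) {κ r α γ : ℝ} (hκ : 0 < κ) (hκ' : κ ≤ 1 / 2)
    (hr : r = 1 - κ) (hα : α * (1 - r + r ^ 2) = 1 + r ^ 2) (hγ : γ * (1 - r + r ^ 2) = r)
    (hα0 : 0 ≤ α) (hα2 : α ≤ 2) (hγ0 : 0 ≤ γ) (hγ1 : γ ≤ 1) (hαγ : α - γ = 1) {b : ℝ}
    (hb0 : 0 ≤ b) (hrot : ∀ θ : ℝ,
      (volume ((fun z => Complex.exp (θ * Complex.I) * z) '' A \ A)).toReal ≤ |θ| * b) :
    |(∫ z in A, (α * PF f (r * dir z) - γ * PF f ((r ^ 2 : ℝ) * dir z))) - ∫ z in A, f (dir z)|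
      ≤ 24 * (κ * b) := by
  have hr0 : 0 ≤ r := by linarith
  have hr1 : r < 1 := by linarith
  have hr2 : r ^ 2 < 1 := pow_lt_one₀ hr0 hr1 two_ne_zero
  have n1 : ‖(r : ℂ)‖ < 1 := by rwa [Complex.norm_real, Real.norm_eq_abs, abs_of_nonneg hr0]
  have n2 : ‖((r ^ 2 : ℝ) : ℂ)‖ < 1 := by
    rwa [Complex.norm_real, Real.norm_eq_abs, abs_of_nonneg (sq_nonneg r)]
  have i1 := rsSmooth_pois_on n1
  have i2 := rsSmooth_pois_on n2
  have m1 : ∀ θ : ℝ, ‖(r : ℂ) * cis (-θ)‖ < 1 := fun θ => by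
    rwa [norm_mul, rsSmooth_norm_cis, mul_one]
  have m2 : ∀ θ : ℝ, ‖((r ^ 2 : ℝ) : ℂ) * cis (-θ)‖ < 1 := fun θ => by
    rwa [norm_mul, rsSmooth_norm_cis, mul_one]
  have h := rsSmooth_avg hA hb hf h1
    (T := fun θ => α * Pois (r * cis (-θ)) - γ * Pois ((r ^ 2 : ℝ) * cis (-θ)))
    (K := fun θ => 6 * κ * (Pois (r * cis (-θ)) + Pois ((r ^ 2 : ℝ) * cis (-θ))))
    ((i1.const_mul α).sub (i2.const_mul γ)) ((i1.add i2).const_mul _)
    (by
      rw [integral_sub (i1.const_mul α) (i2.const_mul γ), integral_const_mul, integral_const_mul,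
        pois_int n1, pois_int n2, ← sub_mul, hαγ, one_mul])
    (fun θ hθ => rsSmooth_ker hκ hκ' hr hα hγ hα0 hα2 hγ0 hγ1 (pois_nonneg (m1 θ))
      (pois_nonneg (m2 θ)) (by linarith [cos_le_one θ]) (rsSmooth_sq_le hθ)
      (rsSmooth_pois_eq hr0 hr1 θ) (rsSmooth_pois_eq (sq_nonneg r) hr2 θ)) hb0 hrot
  rw [integral_const_mul (6 * κ), integral_add i1 i2, pois_int n1, pois_int n2] at h
  have e : ∫ z in A, (α * PF f (r * dir z) - γ * PF f ((r ^ 2 : ℝ) * dir z)) =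
      ∫ z in A, (2 * π)⁻¹ * ∫ θ in Ioo (-π) π, f (dir z * cis θ) *
        (α * Pois (r * cis (-θ)) - γ * Pois ((r ^ 2 : ℝ) * cis (-θ))) := by
    refine integral_congr_ae ?_
    filter_upwards [ae_restrict_of_ae (Measure.ae_ne volume (0 : ℂ))] with z hz
    have hm : AEStronglyMeasurable (fun θ : ℝ => f (cis z.arg * cis θ))
        (volume.restrict (Ioo (-π) π)) :=
      (hf.comp (rsSmooth_cis_cont.measurable.const_mul _)).aestronglyMeasurable
    have j1 := Integrable.bdd_mul (c := 1) i1 hm (Eventually.of_forall fun θ => h1 _)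
    have j2 := Integrable.bdd_mul (c := 1) i2 hm (Eventually.of_forall fun θ => h1 _)
    rw [rsSmooth_dir_eq hz, rsSmooth_shift, rsSmooth_shift, mul_left_comm α, mul_left_comm γ,
      ← mul_sub, ← integral_const_mul, ← integral_const_mul,
      ← integral_sub (j1.const_mul α) (j2.const_mul γ)]
    congr 2
    funext θ
    ring
  rw [e]
  refine h.trans (le_of_eq ?_)
  have := pi_pos
  field_simp
  ring

theorem rsSmooth_norm_lt {t ρ : ℝ} (ht : 0 < t) (h0 : 0 ≤ ρ) (hρ : ρ ≤ 1 - 50 * t) {z : ℂ}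
    (hz : ‖z‖ ≤ 1 + 2 * t) : ‖(ρ : ℂ) * z‖ ≤ 1 - 48 * t := by
  rw [norm_mul, Complex.norm_real, Real.norm_eq_abs, abs_of_nonneg h0]
  have := mul_le_mul hρ hz (norm_nonneg _) (h0.trans hρ)
  nlinarith

/-- part (C): moving a point of the thin annulus to the circle -/
theorem rsSmooth_C {f : ℂ → ℝ} (hf : Measurable f) (h1 : ∀ z, |f z| ≤ 1) {t ρ : ℝ} (ht : 0 < t)
    (ht' : t ≤ 1 / 100) (h0 : 0 ≤ ρ) (hρ : ρ ≤ 1 - 50 * t) {z : ℂ} (hz : ‖z‖ ≤ 1 + 2 * t)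
    (hz' : 1 - 2 * t ≤ ‖z‖) : |PF f (ρ * z) - PF f (ρ * dir z)| ≤ 1 / 12 := by
  have hz0 : z ≠ 0 := norm_pos_iff.1 (by linarith)
  have a1 := rsSmooth_norm_lt ht h0 hρ hz
  have a2 := rsSmooth_norm_lt ht h0 hρ (z := dir z) ((rsSmooth_norm_dir z).trans (by linarith))
  refine (PF_lip hf h1 (by linarith) (by linarith)).trans ?_
  have b1 : ‖(ρ : ℂ) * z - ρ * dir z‖ ≤ 2 * t := by
    rw [← mul_sub, norm_mul, rsSmooth_sub_dir hz0, Complex.norm_real, Real.norm_eq_abs,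
      abs_of_nonneg h0]
    have : |‖z‖ - 1| ≤ 2 * t := abs_le.2 ⟨by linarith, by linarith⟩
    have h2 := mul_le_mul (by linarith : ρ ≤ 1) this (abs_nonneg _) zero_le_one
    linarith
  have b2 : 1 / (1 - ‖(ρ : ℂ) * z‖) ≤ 1 / (48 * t) :=
    one_div_le_one_div_of_le (by positivity) (by linarith)
  have b3 : 1 / (1 - ‖(ρ : ℂ) * dir z‖) ≤ 1 / (48 * t) :=
    one_div_le_one_div_of_le (by positivity) (by linarith)
  have b4 : 0 ≤ 1 / (1 - ‖(ρ : ℂ) * z‖) := one_div_nonneg.2 (by linarith)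
  have b5 : 0 ≤ 1 / (1 - ‖(ρ : ℂ) * dir z‖) := one_div_nonneg.2 (by linarith)
  refine (mul_le_mul b1 (add_le_add b2 b3) (add_nonneg b4 b5) (by positivity)).trans (le_of_eq ?_)
  field_simp
  norm_num

theorem rsSmooth_comb {α γ x y c : ℝ} (hα0 : 0 ≤ α) (hα2 : α ≤ 2) (hγ0 : 0 ≤ γ) (hγ1 : γ ≤ 1)
    (hx : |x| ≤ c) (hy : |y| ≤ c) : |α * x - γ * y| ≤ 3 * c := by
  have h := abs_sub (α * x) (γ * y)
  rw [abs_mul, abs_mul, abs_of_nonneg hα0, abs_of_nonneg hγ0] at h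
  have h1 := mul_le_mul hα2 hx (abs_nonneg _) zero_le_two
  have h2 := mul_le_mul hγ1 hy (abs_nonneg _) zero_le_one
  linarith

/-- a function that is small near the circle -/
theorem rsSmooth_sig {Ω : Set ℂ} (hΩ : MeasurableSet Ω) {t : ℝ} (ht : 0 < t)
    (hsub : Ω ⊆ ball 0 (1 + 2 * t)) {H : ℂ → ℝ} (hH : Measurable H)
    (h6 : ∀ z : ℂ, ‖z‖ ≤ 1 + 2 * t → |H z| ≤ 6)
    (h4 : ∀ z : ℂ, ‖z‖ ≤ 1 + 2 * t → 1 - 2 * t ≤ ‖z‖ → |H z| ≤ 1 / 4) :
    |sig Ω H| ≤ 6 * (volume (ball (0 : ℂ) (1 - 2 * t) \ Ω)).toReal +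
      (volume (symmDiff Ω (ball 0 1))).toReal / 4 := by
  have fΩ : volume Ω ≠ ⊤ := measure_ne_top_of_subset hsub measure_ball_lt_top.ne
  have fB : ∀ s : ℝ, volume (ball (0 : ℂ) s) ≠ ⊤ := fun s => measure_ball_lt_top.ne
  have nΩ : ∀ z ∈ Ω, ‖z‖ ≤ 1 + 2 * t := fun z hz => (mem_ball_zero_iff.1 (hsub hz)).le
  have nB : ∀ z ∈ ball (0 : ℂ) 1, ‖z‖ ≤ 1 + 2 * t := fun z hz => by
    linarith [mem_ball_zero_iff.1 hz]
  have iB := rsSmooth_int measurableSet_ball (fB 1) hH fun z hz => h6 z (nB z hz)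
  unfold sig
  rw [int_sub_split hΩ measurableSet_ball (rsSmooth_int hΩ fΩ hH fun z hz => h6 z (nΩ z hz)) iB,
    ← integral_inter_add_sdiff (s := ball 0 1 \ Ω) (t := ball 0 (1 - 2 * t)) measurableSet_ball
      (iB.mono_set sdiff_subset)]
  have a1 := rsSmooth_abs_int (A := Ω \ ball 0 1) (g := H)
    (measure_ne_top_of_subset sdiff_subset fΩ) fun z hz => h4 z (nΩ z hz.1) (by
      have := hz.2
      rw [mem_ball_zero_iff, not_lt] at this
      linarith)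
  have s2 : (ball (0 : ℂ) 1 \ Ω) ∩ ball 0 (1 - 2 * t) ⊆ ball 0 (1 - 2 * t) \ Ω :=
    fun z hz => ⟨hz.2, hz.1.2⟩
  have f2 : volume (ball (0 : ℂ) (1 - 2 * t) \ Ω) ≠ ⊤ :=
    measure_ne_top_of_subset sdiff_subset (fB _)
  have f3 : volume (ball (0 : ℂ) 1 \ Ω) ≠ ⊤ := measure_ne_top_of_subset sdiff_subset (fB _)
  have a2 := rsSmooth_abs_int (g := H) (measure_ne_top_of_subset s2 f2)
    fun z hz => h6 z (nB z hz.1.1)
  have a3 := rsSmooth_abs_int (A := (ball 0 1 \ Ω) \ ball 0 (1 - 2 * t)) (g := H)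
    (measure_ne_top_of_subset sdiff_subset f3) fun z hz => h4 z (nB z hz.1.1) (by
      have := hz.2
      rwa [mem_ball_zero_iff, not_lt] at this)
  have b2 := ENNReal.toReal_mono f2 (measure_mono s2)
  have b3 := ENNReal.toReal_mono f3
    (measure_mono (sdiff_subset (s := ball (0 : ℂ) 1 \ Ω) (t := ball 0 (1 - 2 * t))))
  have e : (volume (symmDiff Ω (ball 0 1))).toReal =
      (volume (Ω \ ball 0 1)).toReal + (volume (ball (0 : ℂ) 1 \ Ω)).toReal := by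
    rw [Set.symmDiff_def, measure_union disjoint_sdiff_sdiff (measurableSet_ball.diff hΩ),
      ENNReal.toReal_add (measure_ne_top_of_subset sdiff_subset fΩ) f3]
  rw [e]
  rw [abs_le] at a1 a2 a3 ⊢
  constructor <;> linarith [a1.1, a1.2, a2.1, a2.2, a3.1, a3.2]

/-- From Poisson integrals to bounded functions of the direction. Hints: `r = 1 - 50 t`,
`α = (1 + r²) / (1 - r + r²) ≤ 2`, `γ = r / (1 - r + r²) = α - 1`,
`G z = α PF f (r z) - γ PF f (r² z)`. (C) `|G z - G (dir z)| ≤ 1 / 4` for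
`1 - 2t ≤ ‖z‖ ≤ 1 + 2t` (`PF_lip`, `1 - ρ ‖z‖ ≥ 48 t`) and `≤ 6` always (`PF_abs`);
`int_sub_split`. (D) for `z ≠ 0`, `G (dir z) = (2π)⁻¹ ∫ f (dir z * cis θ) T θ` (periodic shift by
`arg z`), `T θ = α Pois (r cis (-θ)) - γ Pois (r² cis (-θ))`, `∫ T = 2π`; Fubini;
`|sig (f (dir z * cis θ)) - sig (f (dir z))| ≤ 2 |θ| b` (rotation invariance of the area, see
`e5_rot`, `e4_change`; `cis θ Ω` and `Ω` have the same area). With `x = 2 - 2 cos θ`,
`κ = 1 - r`: `x Pois (ρ cis (-θ)) = ((1 - ρ²) - (1 - ρ)² Pois) / ρ`, the constants cancel in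
`x T`, so `(2π)⁻¹ ∫ x |T| ≤ 20 κ²`; `θ² ≤ 5 / 2 * x` (`Real.cos_le_one_sub_mul_cos_sq` or
`Real.cos_quadratic_upper_bound`), `|θ| ≤ 2κ + θ² / (8κ)`, hence `(2π)⁻¹ ∫ |θ| |T| ≤ 13 κ`. -/
theorem smooth_bound {Ω : Set ℂ} (hΩ : MeasurableSet Ω) {t a b d : ℝ} (ht : 0 < t)
    (ht' : t ≤ 1 / 100) (hsub : Ω ⊆ ball 0 (1 + 2 * t)) {f : ℂ → ℝ} (hf : Measurable f)
    (h1 : ∀ z, |f z| ≤ 1)
    (ha : ∀ ρ : ℝ, 1 / 4 ≤ ρ → ρ ≤ 1 - 4 * t → |sig Ω fun z => PF f (ρ * z)| ≤ a)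
    (hb : ∀ θ : ℝ,
      (volume ((fun z => Complex.exp (θ * Complex.I) * z) '' Ω \ Ω)).toReal ≤ |θ| * b)
    (hd : (volume (ball (0 : ℂ) (1 - 2 * t) \ Ω)).toReal ≤ d) :
    |sig Ω fun z => f (dir z)| ≤ 3 * a + 1300 * (b * t) + 6 * d +
      (volume (symmDiff Ω (ball 0 1))).toReal / 4 := by
  obtain ⟨r, hr⟩ : ∃ r : ℝ, r = 1 - 50 * t := ⟨_, rfl⟩
  have hr0 : 1 / 2 ≤ r := by linarith
  have hr1 : r ≤ 1 := by linarith
  have hr2 : r ^ 2 ≤ r := by nlinarith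
  have hr3 : 1 / 4 ≤ r ^ 2 := by nlinarith
  have hD : 0 < 1 - r + r ^ 2 := by linarith
  obtain ⟨α, hα⟩ : ∃ α : ℝ, α * (1 - r + r ^ 2) = 1 + r ^ 2 := ⟨_, div_mul_cancel₀ _ hD.ne'⟩
  obtain ⟨γ, hγ⟩ : ∃ γ : ℝ, γ * (1 - r + r ^ 2) = r := ⟨_, div_mul_cancel₀ _ hD.ne'⟩
  have hαγ : α - γ = 1 := mul_right_cancel₀ hD.ne' (by linear_combination hα - hγ)
  have hγ0 : 0 ≤ γ := nonneg_of_mul_nonneg_left (by linarith) hD
  have hγ1 : γ ≤ 1 := le_of_mul_le_mul_right (by nlinarith [sq_nonneg (1 - r)]) hD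
  have hα0 : 0 ≤ α := by linarith
  have hα2 : α ≤ 2 := by linarith
  have hb0 : 0 ≤ b := by
    have := ENNReal.toReal_nonneg.trans (hb 1)
    rwa [abs_one, one_mul] at this
  have fΩ : volume Ω ≠ ⊤ := measure_ne_top_of_subset hsub measure_ball_lt_top.ne
  have fB : volume (ball (0 : ℂ) 1) ≠ ⊤ := measure_ball_lt_top.ne
  have nΩ : ∀ z ∈ Ω, ‖z‖ ≤ 1 + 2 * t := fun z hz => (mem_ball_zero_iff.1 (hsub hz)).le
  have nB : ∀ z ∈ ball (0 : ℂ) 1, ‖z‖ ≤ 1 + 2 * t := fun z hz => by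
    linarith [mem_ball_zero_iff.1 hz]
  have nd : ∀ z : ℂ, ‖dir z‖ ≤ 1 + 2 * t := fun z => (rsSmooth_norm_dir z).trans (by linarith)
  have bP : ∀ ρ : ℝ, 0 ≤ ρ → ρ ≤ r → ∀ z : ℂ, ‖z‖ ≤ 1 + 2 * t → |PF f (ρ * z)| ≤ 1 :=
    fun ρ h0 hρ z hz => PF_abs hf h1 (by linarith [rsSmooth_norm_lt ht h0 (hr ▸ hρ) hz])
  have mP : ∀ ρ : ℝ, Measurable fun z : ℂ => PF f (ρ * z) :=
    fun ρ => (PF_meas hf).comp (measurable_id.const_mul _)
  have mG : Measurable fun z : ℂ => α * PF f (r * z) - γ * PF f ((r ^ 2 : ℝ) * z) :=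
    ((mP r).const_mul α).sub ((mP _).const_mul γ)
  have mG' : Measurable fun z : ℂ => α * PF f (r * dir z) - γ * PF f ((r ^ 2 : ℝ) * dir z) :=
    mG.comp rsSmooth_dir_meas
  have bG : ∀ z : ℂ, ‖z‖ ≤ 1 + 2 * t → |α * PF f (r * z) - γ * PF f ((r ^ 2 : ℝ) * z)| ≤ 3 * 1 :=
    fun z hz => rsSmooth_comb hα0 hα2 hγ0 hγ1 (bP r (by linarith) le_rfl z hz)
      (bP _ (sq_nonneg r) hr2 z hz)
  -- (A)
  have hA : |sig Ω fun z => α * PF f (r * z) - γ * PF f ((r ^ 2 : ℝ) * z)| ≤ 3 * a := by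
    have e : (sig Ω fun z => α * PF f (r * z) - γ * PF f ((r ^ 2 : ℝ) * z)) =
        α * (sig Ω fun z => PF f (r * z)) - γ * sig Ω fun z => PF f ((r ^ 2 : ℝ) * z) := by
      have i1 := rsSmooth_int hΩ fΩ (mP r) fun z hz => bP r (by linarith) le_rfl z (nΩ z hz)
      have i2 := rsSmooth_int hΩ fΩ (mP _) fun z hz => bP _ (sq_nonneg r) hr2 z (nΩ z hz)
      have i3 := rsSmooth_int measurableSet_ball fB (mP r)
        fun z hz => bP r (by linarith) le_rfl z (nB z hz)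
      have i4 := rsSmooth_int measurableSet_ball fB (mP _)
        fun z hz => bP _ (sq_nonneg r) hr2 z (nB z hz)
      unfold sig
      rw [integral_sub (i1.const_mul α) (i2.const_mul γ),
        integral_sub (i3.const_mul α) (i4.const_mul γ)]
      simp only [integral_const_mul]
      ring
    rw [e]
    exact rsSmooth_comb hα0 hα2 hγ0 hγ1 (ha r (by linarith) (by linarith))
      (ha _ hr3 (by linarith))
  -- (C)
  have hC := rsSmooth_sig hΩ ht hsub (mG.fun_sub mG') (fun z hz => by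
      have h2 := bG z hz
      have h3 := bG _ (nd z)
      exact (abs_sub _ _).trans (by linarith))
    (fun z hz hz' => by
      have h2 := rsSmooth_comb hα0 hα2 hγ0 hγ1
        (rsSmooth_C hf h1 ht ht' (by linarith : 0 ≤ r) hr.le hz hz')
        (rsSmooth_C hf h1 ht ht' (sq_nonneg r) (hr2.trans hr.le) hz hz')
      refine (le_of_eq ?_).trans (h2.trans (by norm_num))
      congr 1
      ring)
  -- (D)
  have hD1 := rsSmooth_D hΩ fΩ hf h1 (κ := 50 * t) (by positivity) (by linarith) hr hα hγ hα0 hα2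
    hγ0 hγ1 hαγ hb0 hb
  have hD2 := rsSmooth_D measurableSet_ball fB hf h1 (κ := 50 * t) (by positivity) (by linarith)
    hr hα hγ hα0 hα2 hγ0 hγ1 hαγ le_rfl (fun θ => by
      have : (fun z => Complex.exp (θ * Complex.I) * z) '' ball (0 : ℂ) 1 \ ball 0 1 = ∅ := by
        refine sdiff_eq_empty.2 ?_
        rintro _ ⟨z, hz, rfl⟩
        rwa [mem_ball_zero_iff, norm_mul, Complex.norm_exp_ofReal_mul_I, one_mul,
          ← mem_ball_zero_iff]
      rw [this]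
      simp)
  unfold sig at hA hC ⊢
  rw [integral_sub (rsSmooth_int hΩ fΩ mG fun z hz => bG z (nΩ z hz))
      (rsSmooth_int hΩ fΩ mG' fun z _ => bG _ (nd z)),
    integral_sub (rsSmooth_int measurableSet_ball fB mG fun z hz => bG z (nB z hz))
      (rsSmooth_int measurableSet_ball fB mG' fun z _ => bG _ (nd z))] at hC
  have hbt : 0 ≤ b * t := by positivity
  rw [abs_le] at hA hC hD1 hD2 ⊢
  constructor <;> linarith [hA.1, hA.2, hC.1, hC.2, hD1.1, hD1.2, hD2.1, hD2.2]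

end Pool.Agent.P.MP_832dec_an
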