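import Pool.Agent.P.MP_832dec_an.Sharp.Kernel

set_option autoImplicit false

open MeasureTheory Set Metric Filter Topology ComplexConjugate Real

namespace Pool.Agent.P.MP_832dec_an

variable {Ω : Set ℂ} {μ : Measure ℂ} {ν : ℂ → ℂ} {ε Λ b : ℝ} {E : ℂ → ℝ}

theorem rsTest_diff (c : ℕ → ℂ) (N : ℕ) : Differentiable ℂ (pol c N) :=
  fun w => (pol_hasDerivAt c N w).differentiableAt

theorem rsTest_deriv (c : ℕ → ℂ) (N : ℕ) (w : ℂ) : deriv (pol c N) w = pold c N w :=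
  (pol_hasDerivAt c N w).deriv

theorem rsTest_cont (c : ℕ → ℂ) (N : ℕ) : Continuous (pol c N) := (rsTest_diff c N).continuous

theorem rsTest_contd (c : ℕ → ℂ) (N : ℕ) : Continuous (pold c N) := by
  unfold pold
  fun_prop

theorem rsTest_contDiff (c : ℕ → ℂ) (N : ℕ) : ContDiff ℝ 1 (pol c N) :=
  ((rsTest_diff c N).contDiff (n := 1)).restrict_scalars ℝ

/-- the field `conj Y` -/
noncomputable def rsTest_Y (z : ℂ) : ℂ := conj z * (3 - z * conj z) / 2

theorem rsTest_Y_contDiff : ContDiff ℝ 1 rsTest_Y :=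
  (contDiff_conj.mul (contDiff_const.sub (contDiff_id.mul contDiff_conj))).div_const 2

theorem rsTest_Y_eq (z : ℂ) : rsTest_Y z = (((3 - ‖z‖ ^ 2) / 2 : ℝ) : ℂ) * conj z := by
  unfold rsTest_Y
  rw [Complex.mul_conj']
  push_cast
  ring

theorem rsTest_dbar_Y (z : ℂ) : dbar rsTest_Y z = ((3 - 2 * ‖z‖ ^ 2 : ℝ) : ℂ) := by
  have hc : ∀ z, DifferentiableAt ℝ (fun z : ℂ => conj z) z :=
    contDiff_conj.differentiable one_ne_zero
  have e : rsTest_Y = fun w : ℂ => (3 / 2 : ℂ) * conj w - (w / 2) * (conj w * conj w) := by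
    funext w
    unfold rsTest_Y
    ring
  have d1 : DifferentiableAt ℝ (fun w : ℂ => w / 2) z := by fun_prop
  have d2 : DifferentiableAt ℝ (fun _ : ℂ => (3 / 2 : ℂ)) z := differentiableAt_const _
  rw [e, dbar_sub (f := fun w : ℂ => (3 / 2 : ℂ) * conj w)
      (g := fun w : ℂ => (w / 2) * (conj w * conj w)) (d2.mul (hc z))
      (d1.mul ((hc z).mul (hc z))),
    dbar_mul (f := fun _ : ℂ => (3 / 2 : ℂ)) (g := fun w : ℂ => conj w) d2 (hc z),
    dbar_mul (f := fun w : ℂ => w / 2) (g := fun w : ℂ => conj w * conj w) d1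
      ((hc z).mul (hc z)),
    dbar_mul (f := fun w : ℂ => conj w) (g := fun w : ℂ => conj w) (hc z) (hc z),
    dbar_const, dbar_conj, dbar_holo (f := fun w : ℂ => w / 2) (by fun_prop)]
  push_cast
  rw [← Complex.mul_conj']
  ring

/-- step (a), first half -/
theorem rsTest_gg (h : GG Ω μ ν) (c : ℕ → ℂ) (N : ℕ) :
    ∫ z, (pol c N z).re * (rsTest_Y z * ν z).re ∂μ =
      ∫ z in Ω, ((3 - ‖z‖ ^ 2) / 2 * (z * pold c N z).re + (3 - 2 * ‖z‖ ^ 2) * (pol c N z).re) := by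
  have c1 : ContDiff ℝ 1 fun z => (pol c N z).re :=
    Complex.reCLM.contDiff.comp (rsTest_contDiff c N)
  have c2 : ContDiff ℝ 1 fun z => (((pol c N z).re : ℝ) : ℂ) :=
    Complex.ofRealCLM.contDiff.comp c1
  have c3 : ContDiff ℝ 1 fun z => (((pol c N z).re : ℝ) : ℂ) * rsTest_Y z :=
    c2.mul rsTest_Y_contDiff
  have h1 := h.gg _ c3
  have cp := rsTest_cont c N
  have cY := rsTest_Y_contDiff.continuous
  have hi : Integrable (fun z => (((pol c N z).re : ℝ) : ℂ) * rsTest_Y z * ν z) μ :=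
    h.integrable₂ (F := fun p => (((pol c N p.1).re : ℝ) : ℂ) * rsTest_Y p.1 * p.2) (by fun_prop)
  have hj := h.integrableOn (continuous_dbar c3)
  have h2 := integral_re hi
  have h3 := integral_re hj
  simp only [RCLike.re_to_complex] at h2 h3
  rw [← h1, ← h3] at h2
  have e1 : ∀ z, ((((pol c N z).re : ℝ) : ℂ) * rsTest_Y z * ν z).re =
      (pol c N z).re * (rsTest_Y z * ν z).re := by
    intro z
    rw [mul_assoc, Complex.re_ofReal_mul]
  have e2 : ∀ z, (dbar (fun z => (((pol c N z).re : ℝ) : ℂ) * rsTest_Y z) z).re =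
      (3 - ‖z‖ ^ 2) / 2 * (z * pold c N z).re + (3 - 2 * ‖z‖ ^ 2) * (pol c N z).re := by
    intro z
    rw [dbar_mul (f := fun z => (((pol c N z).re : ℝ) : ℂ)) (g := rsTest_Y)
      (c2.differentiable one_ne_zero z) (rsTest_Y_contDiff.differentiable one_ne_zero z),
      dbar_ofReal (u := fun z => (pol c N z).re) (c1.differentiable one_ne_zero z),
      b_grad_re (rsTest_diff c N), rsTest_deriv, rsTest_dbar_Y, rsTest_Y_eq, Complex.add_re,
      ← Complex.ofReal_mul, Complex.ofReal_re, mul_left_comm, Complex.re_ofReal_mul, ← map_mul,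
      Complex.conj_re]
    ring_nf
  simpa only [e1, e2] using h2

/-- the density of step (a) -/
noncomputable def rsTest_W (c : ℕ → ℂ) (N : ℕ) (z : ℂ) : ℂ :=
  (pol c N z - z * pold c N z) / 2 + ((‖z‖ ^ 2 - 1 : ℝ) : ℂ) * (pol c N z + z * pold c N z / 4)

theorem rsTest_W_cont (c : ℕ → ℂ) (N : ℕ) : Continuous (rsTest_W c N) := by
  have cp := rsTest_cont c N
  have cd := rsTest_contd c N
  unfold rsTest_W
  fun_prop

theorem rsTest_W_re (c : ℕ → ℂ) (N : ℕ) (z : ℂ) : (rsTest_W c N z).re =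
    ((pol c N z).re - (z * pold c N z).re) / 2 +
      (‖z‖ ^ 2 - 1) * ((pol c N z).re + (z * pold c N z).re / 4) := by
  unfold rsTest_W
  rw [Complex.add_re, Complex.re_ofReal_mul, Complex.add_re, Complex.div_ofNat_re,
    Complex.div_ofNat_re, Complex.sub_re]

theorem rsTest_rot {k : ℕ} (hk : 1 ≤ k) {g : ℝ → ℂ} :
    ∫ z in ball (0 : ℂ) 1, g ‖z‖ * z ^ k = 0 := by
  have hk' : (k : ℂ) ≠ 0 := by exact_mod_cast (by omega : k ≠ 0)
  refine ball_int_zero (Circle.exp (π / k)) fun z => ?_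
  have e : ((Circle.exp (π / k) : Circle) : ℂ) ^ k = -1 := by
    rw [Circle.coe_exp, ← Complex.exp_nat_mul, ← Complex.exp_pi_mul_I]
    congr 1
    push_cast
    field_simp
  rw [norm_mul, Circle.norm_coe, one_mul, mul_pow, e]
  ring

/-- step (b) -/
theorem rsTest_ball (c : ℕ → ℂ) (N : ℕ) : ∫ z in ball (0 : ℂ) 1, rsTest_W c N z = 0 := by
  have e : ∀ z, rsTest_W c N z = ∑ k ∈ Finset.range N,
      c k * ((1 - k) / 2 + ((‖z‖ ^ 2 - 1 : ℝ) : ℂ) * (1 + k / 4)) * z ^ k := by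
    intro z
    have e1 : z * pold c N z = ∑ k ∈ Finset.range N, c k * k * z ^ k := by
      unfold pold
      rw [Finset.mul_sum]
      refine Finset.sum_congr rfl fun k _ => ?_
      rcases k with _ | k
      · simp
      · rw [Nat.add_sub_cancel, pow_succ]
        ring
    unfold rsTest_W
    rw [e1]
    unfold pol
    rw [← Finset.sum_sub_distrib, Finset.sum_div, Finset.sum_div, ← Finset.sum_add_distrib,
      Finset.mul_sum, ← Finset.sum_add_distrib]
    refine Finset.sum_congr rfl fun k _ => ?_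
    ring
  simp only [e]
  rw [integral_finsetSum _ fun k _ => intOn_ball (by fun_prop) 1]
  refine Finset.sum_eq_zero fun k _ => ?_
  rcases Nat.eq_zero_or_pos k with rfl | hk
  · have e2 : ∀ z : ℂ, c 0 * ((1 - (0 : ℕ)) / 2 + ((‖z‖ ^ 2 - 1 : ℝ) : ℂ) * (1 + (0 : ℕ) / 4)) *
        z ^ 0 = c 0 * ((‖z‖ ^ 2 - 1 / 2 : ℝ) : ℂ) := by
      intro z
      push_cast
      ring
    simp only [e2]
    rw [integral_const_mul, integral_complex_ofReal,
      integral_sub (intOn_ball (by fun_prop) 1) (intOn_ball continuous_const 1),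
      ball_second_moment]
    simp only [integral_const, MeasurableSet.univ, univ_inter, smul_eq_mul, Measure.real,
      Measure.restrict_apply, vol_unit_ball, ENNReal.toReal_ofReal pi_pos.le]
    rw [show π / 2 - π * (1 / 2) = 0 by ring]
    simp
  · exact rsTest_rot hk
      (g := fun r => c k * ((1 - k) / 2 + ((r ^ 2 - 1 : ℝ) : ℂ) * (1 + k / 4)))

/-- step (c), the field `Y` is close to the normal to second order -/
theorem rsTest_Yn {n z : ℂ} (hn : ‖n‖ = 1) (hz : ‖z‖ ≤ 2) :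
    |1 - (rsTest_Y z * n).re| ≤ 7 / 2 * ‖z - n‖ ^ 2 := by
  have a1 := normsq_sub_unit hn z
  have a2 : |‖z‖ - 1| ≤ ‖z - n‖ := by
    have := abs_norm_sub_norm_le z n
    rwa [hn] at this
  have a3 : (‖z‖ - 1) ^ 2 ≤ ‖z - n‖ ^ 2 := sq_le_sq' (abs_le.mp a2).1 (abs_le.mp a2).2
  rw [rsTest_Y_eq, mul_assoc, Complex.re_ofReal_mul]
  have h0 := norm_nonneg z
  set r := ‖z‖
  set w := ‖z - n‖ ^ 2
  have hw : 0 ≤ w := by positivity
  have e : (conj z * n).re = (r ^ 2 + 1 - w) / 2 := by linarith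
  have a4 : (r ^ 2 - 1) ^ 2 ≤ 9 * w := by
    have b1 : (r + 1) ^ 2 ≤ 9 := by nlinarith
    calc (r ^ 2 - 1) ^ 2 = (r + 1) ^ 2 * (r - 1) ^ 2 := by ring
      _ ≤ 9 * w := by gcongr
  have a5 : r ^ 2 ≤ 4 := by nlinarith
  have a6 : r ^ 2 * w ≤ 4 * w := by gcongr
  have a7 : 0 ≤ r ^ 2 * w := by positivity
  rw [e, abs_le]
  constructor <;> nlinarith [sq_nonneg (r ^ 2 - 1)]

/-- a function bounded by a multiple of `|‖z‖² - 1|` has small `sig` -/
theorem rsTest_sig_weight (h : Core Ω μ ν ε) (hΔ : ∫ z, ‖z - ν z‖ ^ 2 ∂μ ≤ ε) {L : ℝ}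
    (hL : 1 ≤ L) (hL2 : L ≤ 2) (hs : Ω ⊆ ball 0 L) {R : ℂ → ℝ} (hR : Continuous R) {K : ℝ}
    (hK0 : 0 ≤ K) (hK : ∀ z : ℂ, ‖z‖ ≤ L → |R z| ≤ K) :
    |sig Ω fun z => (‖z‖ ^ 2 - 1) * R z| ≤ K * ε := by
  have hm := h.gg.isOpen.measurableSet
  have hw := h.weighted hΔ (hs.trans (ball_subset_ball hL2))
  have c1 : Continuous fun z : ℂ => (‖z‖ ^ 2 - 1) * R z := by fun_prop
  have c2 : Continuous fun z : ℂ => K * |‖z‖ ^ 2 - 1| := by fun_prop
  have key : ∀ A : Set ℂ, MeasurableSet A → A ⊆ ball 0 L →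
      |∫ z in A, (‖z‖ ^ 2 - 1) * R z| ≤ K * ∫ z in A, |‖z‖ ^ 2 - 1| := by
    intro A hA hAL
    rw [← integral_const_mul, ← Real.norm_eq_abs]
    refine norm_integral_le_of_norm_le ((intOn_ball c2 L).mono_set hAL) ?_
    filter_upwards [ae_restrict_mem hA] with z hz
    rw [Real.norm_eq_abs, abs_mul, mul_comm]
    have : ‖z‖ ≤ L := (mem_ball_zero_iff.mp (hAL hz)).le
    exact mul_le_mul_of_nonneg_right (hK z this) (abs_nonneg _)
  unfold sig
  rw [int_sub_split hm measurableSet_ball (h.gg.integrableOn c1) (intOn_ball c1 1)]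
  have k1 := key (Ω \ ball 0 1) (hm.diff measurableSet_ball) (sdiff_subset.trans hs)
  have k2 := key (ball 0 1 \ Ω) (measurableSet_ball.diff hm)
    (sdiff_subset.trans (ball_subset_ball hL))
  refine (abs_sub _ _).trans ?_
  have := mul_le_mul_of_nonneg_left hw hK0
  linarith

/-- the boundary error term -/
theorem rsTest_err (h : Core2 Ω μ ν ε Λ b E) (hΔ : ∫ z, ‖z - ν z‖ ^ 2 ∂μ ≤ ε) {L : ℝ}
    (hs : Ω ⊆ ball 0 L) (c : ℕ → ℂ) (N : ℕ) {M M₂ : ℝ} (hM : 0 ≤ M)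
    (h0 : ∀ z : ℂ, ‖z‖ ≤ L → ‖pol c N z‖ ≤ M ∧ |(z * pold c N z).re| ≤ M)
    (hM₂ : 0 ≤ M₂) (h2 : ∀ᵐ z ∂μ, |E z| * ‖pold c N z‖ ^ 2 ≤ M₂) :
    |(∫ z, (E z : ℂ) * (pold c N z * ν z + b * pol c N z) ∂μ).re| ≤
      (M + (1 + M₂) / 2) * ε := by
  have hb := h.b0
  have cp := rsTest_cont c N
  have cd := rsTest_contd c N
  obtain ⟨C, hC⟩ := (isCompact_closedBall (0 : ℂ) L).exists_bound_of_continuousOn cd.continuousOn
  have m1 : AEStronglyMeasurable (fun z => pold c N z * ν z + b * pol c N z) μ :=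
    (h.gg.integrable₂ (F := fun p => pold c N p.1 * p.2 + b * pol c N p.1) (by fun_prop)).1
  have hi : Integrable (fun z => (E z : ℂ) * (pold c N z * ν z + b * pol c N z)) μ := by
    refine Integrable.mul_bdd (c := C + b * M) h.Eint.ofReal m1 ?_
    filter_upwards [h.gg.ae_norm_le hs] with z hz
    refine (norm_add_le _ _).trans (add_le_add ?_ ?_)
    · rw [norm_mul, h.gg.unit, mul_one]
      exact hC z (by simpa using hz)
    · rw [norm_mul, Complex.norm_real, Real.norm_of_nonneg hb]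
      exact mul_le_mul_of_nonneg_left (h0 z hz).1 hb
  have h3 := integral_re hi
  simp only [RCLike.re_to_complex] at h3
  rw [← h3, ← Real.norm_eq_abs]
  have iE : Integrable (fun z => |E z|) μ := h.Eint.abs
  have i1 : Integrable (fun z => (M * (1 + b) + 1 / 2) * |E z|) μ := iE.const_mul _
  have i2 : Integrable (fun z => M₂ / 2 * ‖z - ν z‖ ^ 2) μ := h.intE.const_mul _
  refine (norm_integral_le_of_norm_le (i1.add i2) ?_).trans ?_
  · filter_upwards [h.gg.ae_norm_le hs, h2] with z hz hz2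
    obtain ⟨a1, a2⟩ := h0 z hz
    have a3 : |(pol c N z).re| ≤ M := (Complex.abs_re_le_norm _).trans a1
    have a4 : |(pold c N z * (z - ν z)).re| ≤ ‖pold c N z‖ * ‖z - ν z‖ := by
      rw [← norm_mul]
      exact Complex.abs_re_le_norm _
    have e : (pold c N z * ν z + b * pol c N z).re =
        (z * pold c N z).re - (pold c N z * (z - ν z)).re + b * (pol c N z).re := by
      rw [← Complex.sub_re, Complex.add_re, Complex.re_ofReal_mul]
      congr 2
      ring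
    have a5 : |(pold c N z * ν z + b * pol c N z).re| ≤
        M + ‖pold c N z‖ * ‖z - ν z‖ + b * M := by
      rw [e]
      refine (abs_add_le _ _).trans (add_le_add ((abs_sub _ _).trans (add_le_add a2 a4)) ?_)
      rw [abs_mul, abs_of_nonneg hb]
      exact mul_le_mul_of_nonneg_left a3 hb
    rw [Real.norm_eq_abs, Complex.re_ofReal_mul, abs_mul]
    simp only [Pi.add_apply]
    have a6 : |E z| * |(pold c N z * ν z + b * pol c N z).re| ≤
        |E z| * (M + ‖pold c N z‖ * ‖z - ν z‖ + b * M) := by gcongr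
    have a7 : |E z| * ‖pold c N z‖ ^ 2 * ‖z - ν z‖ ^ 2 ≤ M₂ * ‖z - ν z‖ ^ 2 := by gcongr
    have a8 : 0 ≤ |E z| * (‖pold c N z‖ * ‖z - ν z‖ - 1) ^ 2 := by positivity
    nlinarith
  · rw [integral_add' i1 i2, integral_const_mul, integral_const_mul]
    have a1 := h.Eabs
    have a2 : 0 ≤ ∫ z, |E z| ∂μ := integral_nonneg fun z => abs_nonneg _
    have a3 := mul_le_mul_of_nonneg_left a1 hM
    have a4 := mul_le_mul_of_nonneg_left hΔ hM₂
    have a5 : 0 ≤ b * ∫ z, |E z| ∂μ := by positivity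
    nlinarith

/-- The test inequality. Hints: `φ = pol c N`, `ψ = re φ`, `s = ‖z‖² - 1`, `w = ‖z - ν‖²`,
`Y z = z * (3 - ‖z‖²) / 2`, `W = ((φ - z φ') / 2 + s (φ + z φ' / 4)).re`.
(a) `gg` for `ψ * conj Y`, real parts: `∫ ψ (conj Y ν).re dμ = ∫_Ω (1 - s / 2) (z φ').re + (1 - 2s) ψ`
(`dbar_mul`, `dbar_ofReal`, `b_grad_re`; write `‖z‖² = z * conj z`); with `h.holo`:
`∫_Ω W = 1 / 2 ∫ ψ (1 - (conj Y ν).re) dμ + re ∫ E (φ' ν + b φ) dμ`.
(b) `∫_B W = 0` on the unit disc: term by term, `ball_int_zero` for `k ≥ 1` (rotation by `π / k`),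
`ball_second_moment` for `k = 0`.
(c) `1 - (conj Y ν).re = w / 2 + s² / 4 - s w / 4` has modulus `≤ 7 / 2 * w` for `‖z‖ ≤ 2`
(`normsq_sub_unit`); `(φ' ν).re = (z φ').re + (φ' (ν - z)).re`,
`|E| ‖φ'‖ √w ≤ (|E| + |E| ‖φ'‖² w) / 2`; `Core.weighted` and `int_sub_split` bound the `s` term by
`5 M / 4 * ε`. Total `2 (5M/4 + 7M/4 + M + (1 + M₂) / 2) ε`. -/
theorem Core2.test (h : Core2 Ω μ ν ε Λ b E) (hΔ : ∫ z, ‖z - ν z‖ ^ 2 ∂μ ≤ ε) {L : ℝ}
    (hL : 1 ≤ L) (hL2 : L ≤ 2) (hs : Ω ⊆ ball 0 L) (c : ℕ → ℂ) (N : ℕ) {M M₂ : ℝ}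
    (h0 : ∀ z : ℂ, ‖z‖ ≤ L → ‖pol c N z‖ ≤ M ∧ |(z * pold c N z).re| ≤ M)
    (hM₂ : 0 ≤ M₂) (h2 : ∀ᵐ z ∂μ, |E z| * ‖pold c N z‖ ^ 2 ≤ M₂) :
    |sig Ω fun z => (z * pold c N z - pol c N z).re| ≤ (8 * M + M₂ + 1) * ε := by
  have hM : 0 ≤ M := (norm_nonneg _).trans (h0 0 (by simpa using by linarith)).1
  have cp := rsTest_cont c N
  have cd := rsTest_contd c N
  have cY := rsTest_Y_contDiff.continuous
  have cW := rsTest_W_cont c N
  have hA := rsTest_gg h.gg c N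
  have hB := rsTest_ball c N
  have hE := rsTest_err h hΔ hs c N hM h0 hM₂ h2
  have hH := h.holo _ (rsTest_diff c N)
  simp only [rsTest_deriv] at hH
  rw [← hH] at hE
  have r1 := integral_re (h.gg.integrableOn cp)
  have r2 := integral_re (h.gg.integrable cp)
  have r3 := integral_re (intOn_ball cW 1)
  simp only [RCLike.re_to_complex] at r1 r2 r3
  rw [hB, Complex.zero_re] at r3
  have e1 : ((∫ z in Ω, pol c N z) - 1 / 2 * ∫ z, pol c N z ∂μ).re =
      (∫ z in Ω, (pol c N z).re) - 1 / 2 * ∫ z, (pol c N z).re ∂μ := by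
    rw [r1, r2]
    simp
  rw [e1] at hE
  have c1 : Continuous fun z => (pol c N z).re := by fun_prop
  have c2 : Continuous fun z : ℂ => (3 - ‖z‖ ^ 2) / 2 * (z * pold c N z).re +
      (3 - 2 * ‖z‖ ^ 2) * (pol c N z).re := by fun_prop
  have e2 : ∫ z in Ω, (rsTest_W c N z).re = (∫ z in Ω, (pol c N z).re) -
      1 / 2 * ∫ z in Ω, ((3 - ‖z‖ ^ 2) / 2 * (z * pold c N z).re +
        (3 - 2 * ‖z‖ ^ 2) * (pol c N z).re) := by
    rw [← integral_const_mul,
      ← integral_sub (h.gg.integrableOn c1) ((h.gg.integrableOn c2).const_mul _)]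
    refine integral_congr_ae (Eventually.of_forall fun z => ?_)
    simp only [rsTest_W_re]
    ring
  have i1 : Integrable (fun z => (pol c N z).re * (rsTest_Y z * ν z).re) μ :=
    h.gg.integrable₂ (F := fun p => (pol c N p.1).re * (rsTest_Y p.1 * p.2).re) (by fun_prop)
  have hY : |(∫ z, (pol c N z).re ∂μ) - ∫ z, (pol c N z).re * (rsTest_Y z * ν z).re ∂μ| ≤
      7 / 2 * M * ε := by
    rw [← integral_sub (h.gg.integrable c1) i1, ← Real.norm_eq_abs]
    refine (norm_integral_le_of_norm_le (h.intE.const_mul (7 / 2 * M)) ?_).trans ?_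
    · filter_upwards [h.gg.ae_norm_le hs] with z hz
      have a1 : |(pol c N z).re| ≤ M := (Complex.abs_re_le_norm _).trans (h0 z hz).1
      have a2 := rsTest_Yn (h.gg.unit z) (hz.trans hL2)
      rw [Real.norm_eq_abs, ← mul_one_sub, abs_mul]
      calc _ ≤ M * (7 / 2 * ‖z - ν z‖ ^ 2) := by gcongr
        _ = _ := by ring
    · rw [integral_const_mul]
      gcongr
  have c3 : Continuous fun z : ℂ => (pol c N z).re + (z * pold c N z).re / 4 := by fun_prop
  have hS := rsTest_sig_weight h.toCore hΔ hL hL2 hs c3 (K := 5 / 4 * M) (by positivity)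
    fun z hz => by
      have a1 : |(pol c N z).re| ≤ M := (Complex.abs_re_le_norm _).trans (h0 z hz).1
      have a2 := (h0 z hz).2
      rw [abs_le] at a1 a2 ⊢
      constructor <;> linarith [a1.1, a1.2, a2.1, a2.2]
  have c4 : Continuous fun z : ℂ => (‖z‖ ^ 2 - 1) * ((pol c N z).re + (z * pold c N z).re / 4) := by
    fun_prop
  have c5 : Continuous fun z => (rsTest_W c N z).re := by fun_prop
  have e3 : ∀ A : Set ℂ, (∀ f : ℂ → ℝ, Continuous f → IntegrableOn f A) →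
      ∫ z in A, (z * pold c N z - pol c N z).re =
        2 * (∫ z in A, (‖z‖ ^ 2 - 1) * ((pol c N z).re + (z * pold c N z).re / 4)) -
          2 * ∫ z in A, (rsTest_W c N z).re := by
    intro A hA
    rw [← mul_sub, ← integral_sub (hA _ c4) (hA _ c5), ← integral_const_mul]
    refine integral_congr_ae (Eventually.of_forall fun z => ?_)
    simp only [rsTest_W_re, Complex.sub_re]
    ring
  unfold sig at hS ⊢
  rw [e3 Ω fun f hf => h.gg.integrableOn hf, e3 _ fun f hf => intOn_ball hf 1, r3, e2, ← hA]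
  rw [abs_le] at hE hY hS ⊢
  constructor <;> linarith [hE.1, hE.2, hY.1, hY.2, hS.1, hS.2]

theorem rsTest_pol_scale (c : ℕ → ℂ) (N : ℕ) (ρ z : ℂ) :
    pol (fun k => c k * ρ ^ k) N z = pol c N (ρ * z) := by
  unfold pol
  refine Finset.sum_congr rfl fun k _ => ?_
  rw [mul_pow]
  ring

theorem rsTest_pold_scale (c : ℕ → ℂ) (N : ℕ) (ρ z : ℂ) :
    pold (fun k => c k * ρ ^ k) N z = ρ * pold c N (ρ * z) := by
  unfold pold
  rw [Finset.mul_sum]
  refine Finset.sum_congr rfl fun k _ => ?_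
  rcases k with _ | k
  · simp
  · simp only [Nat.add_sub_cancel, mul_pow, pow_succ]
    ring

/-- The Poisson integrals are almost orthogonal to `1_Ω - 1_B`. Hints: `kernel_poly` with
`r = ρ (1 + 2t)`, `η = ε`; `c' k = c k * ρ ^ k`, so `pol c' N z = pol c N (ρ z)`,
`pold c' N z = ρ * pold c N (ρ z)`; `Core2.test` with `L = 1 + 2t`, `M = 8`, `M₂ = 16 (Λ + 2)`:
`1 - ρ ‖z‖ ≥ 2t + (L - ‖z‖) / 2` and `h.Ebd` give `|E z| ≤ (Λ + 2) (1 - ρ ‖z‖)`; the linear term
is at most `2 * 6 ε L` by `Core.moment` (`k = 1`) and `ball_int_zero`; the `η` term `2 π ε`. -/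
theorem Core2.pois (h : Core2 Ω μ ν ε Λ b E) (hΔ : ∫ z, ‖z - ν z‖ ^ 2 ∂μ ≤ ε) (hΛ : 0 ≤ Λ)
    {t : ℝ} (hε : 0 < ε) (hεt : ε ≤ t) (ht : t ≤ 1 / 8) (hs : Ω ⊆ ball 0 (1 + 2 * t))
    {f : ℂ → ℝ} (hf : Measurable f) (h1 : ∀ z, |f z| ≤ 1) {ρ : ℝ} (hρ0 : 1 / 4 ≤ ρ)
    (hρ : ρ ≤ 1 - 4 * t) : |sig Ω fun z => PF f (ρ * z)| ≤ 130 * (1 + Λ) * ε := by
  have := h.gg.fin
  have hm := h.gg.isOpen.measurableSet
  have ht0 : 0 < t := hε.trans_le hεt
  have hρp : 0 < ρ := by linarith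
  have hL : (1 : ℝ) ≤ 1 + 2 * t := by linarith
  have hr : ρ * (1 + 2 * t) ≤ 1 - 2 * t := by nlinarith
  obtain ⟨N, c, a, ha, hc⟩ := kernel_poly hf h1 (r := ρ * (1 + 2 * t)) (η := ε) (by positivity)
    (by linarith) hε
  have hn : ∀ z : ℂ, ‖(ρ : ℂ) * z‖ = ρ * ‖z‖ := fun z => by
    rw [norm_mul, Complex.norm_real, Real.norm_of_nonneg hρp.le]
  have hn1 : ∀ z : ℂ, ‖z‖ ≤ 1 + 2 * t → ‖(ρ : ℂ) * z‖ ≤ ρ * (1 + 2 * t) := fun z hz => by
    rw [hn]
    gcongr
  have hn2 : ∀ z : ℂ, ‖z‖ ≤ 1 + 2 * t → ‖(ρ : ℂ) * z‖ < 1 := fun z hz => by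
    linarith [hn1 z hz]
  have hT := h.test hΔ hL (by linarith) hs (fun k => c k * (ρ : ℂ) ^ k) N (M := 8)
    (M₂ := 16 * (Λ + 2)) (fun z hz => by
      obtain ⟨a1, -, a3⟩ := hc _ (hn1 z hz)
      rw [rsTest_pol_scale, rsTest_pold_scale, mul_left_comm, ← mul_assoc]
      refine ⟨by linarith, ?_⟩
      have a4 := PF_abs hf h1 (hn2 z hz)
      have a5 : |(a * (ρ * z)).re| ≤ 2 := by
        refine (Complex.abs_re_le_norm _).trans ?_
        rw [norm_mul]
        nlinarith [hn2 z hz, norm_nonneg a, norm_nonneg ((ρ : ℂ) * z)]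
      have a6 := (Complex.abs_re_le_norm _).trans a1
      rw [Complex.sub_re] at a3
      rw [abs_le] at a3 a4 a5 a6 ⊢
      constructor <;> linarith [a3.1, a3.2, a4.1, a4.2, a5.1, a5.2, a6.1, a6.2])
    (by positivity) (by
      filter_upwards [h.gg.ae_norm_le hs, h.Ebd _ hL hs] with z hz hE
      obtain ⟨-, a2, -⟩ := hc _ (hn1 z hz)
      rw [rsTest_pold_scale, norm_mul, Complex.norm_real, Real.norm_of_nonneg hρp.le, mul_pow]
      rw [hn] at a2
      have h0 := norm_nonneg z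
      have b1 : 2 * t + (1 + 2 * t - ‖z‖) / 2 ≤ 1 - ρ * ‖z‖ := by
        have b2 : ρ * ‖z‖ ≤ (1 - 4 * t) * ‖z‖ := by gcongr
        have b3 : 0 ≤ (1 / 2 - 4 * t) * (1 + 2 * t - ‖z‖) := by
          have : 0 ≤ 1 / 2 - 4 * t := by linarith
          have : 0 ≤ 1 + 2 * t - ‖z‖ := by linarith
          positivity
        nlinarith
      have b4 : |E z| ≤ (Λ + 2) * (1 - ρ * ‖z‖) := by
        have b5 : (Λ + 2) * (2 * t + (1 + 2 * t - ‖z‖) / 2) ≤ (Λ + 2) * (1 - ρ * ‖z‖) := by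
          gcongr
        have b6 : 0 ≤ Λ * (1 + 2 * t - ‖z‖) := by
          have : 0 ≤ 1 + 2 * t - ‖z‖ := by linarith
          positivity
        have b7 : 0 ≤ (1 + 2 * t - ‖z‖) * (4 - (1 + 2 * t + ‖z‖)) := by
          have : 0 ≤ 1 + 2 * t - ‖z‖ := by linarith
          have : 0 ≤ 4 - (1 + 2 * t + ‖z‖) := by linarith
          positivity
        nlinarith
      have b8 : ρ ^ 2 ≤ 1 := by nlinarith
      calc |E z| * (ρ ^ 2 * ‖pold c N (ρ * z)‖ ^ 2)
          ≤ (Λ + 2) * (1 - ρ * ‖z‖) * (1 * ‖pold c N (ρ * z)‖ ^ 2) := by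
            gcongr
            exact (abs_nonneg _).trans b4
        _ = (Λ + 2) * (‖pold c N (ρ * z)‖ ^ 2 * (1 - ρ * ‖z‖)) := by ring
        _ ≤ (Λ + 2) * 16 := by gcongr
        _ = _ := by ring)
  have cp := rsTest_cont c N
  have cd := rsTest_contd c N
  have e0 : ∀ z : ℂ, z * pold (fun k => c k * (ρ : ℂ) ^ k) N z - pol (fun k => c k * (ρ : ℂ) ^ k) N z =
      ρ * z * pold c N (ρ * z) - pol c N (ρ * z) := fun z => by
    rw [rsTest_pol_scale, rsTest_pold_scale]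
    ring
  simp only [e0] at hT
  have c1 : Continuous fun z : ℂ => (ρ * z * pold c N (ρ * z) - pol c N (ρ * z)).re := by fun_prop
  have c2 : Continuous fun z : ℂ => (a * (ρ * z)).re := by fun_prop
  have c3 : Continuous fun z : ℂ => a * (ρ * z) := by fun_prop
  have mP : Measurable fun z : ℂ => PF f (ρ * z) := (PF_meas hf).comp (by fun_prop)
  have key : ∀ A : Set ℂ, MeasurableSet A → A ⊆ ball 0 (1 + 2 * t) →
      volume A = ENNReal.ofReal π →
      |(∫ z in A, (ρ * z * pold c N (ρ * z) - pol c N (ρ * z)).re) -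
        ((∫ z in A, PF f (ρ * z)) - (a * ρ * ∫ z in A, z ^ 1).re)| ≤ 7 / 2 * ε := by
    intro A hA hAL hv
    have hfin : volume A < ⊤ := by
      rw [hv]
      exact ENNReal.ofReal_lt_top
    have hz : ∀ z ∈ A, ‖z‖ ≤ 1 + 2 * t := fun z hz => (mem_ball_zero_iff.mp (hAL hz)).le
    have iP : IntegrableOn (fun z : ℂ => PF f (ρ * z)) A := by
      refine Measure.integrableOn_of_bounded (M := 1) hfin.ne mP.aestronglyMeasurable ?_
      filter_upwards [ae_restrict_mem hA] with z hzA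
      exact PF_abs hf h1 (hn2 z (hz z hzA))
    have i1 := (intOn_ball c1 _).mono_set hAL
    have i2 := (intOn_ball c2 _).mono_set hAL
    have r1 := integral_re ((intOn_ball c3 _).mono_set hAL)
    simp only [RCLike.re_to_complex] at r1
    have e1 : (a * ρ * ∫ z in A, z ^ 1).re = ∫ z in A, (a * (ρ * z)).re := by
      rw [r1, ← integral_const_mul]
      simp only [pow_one, mul_assoc]
    have i3 : IntegrableOn (fun z : ℂ => PF f (ρ * z) - (a * (ρ * z)).re) A := iP.sub i2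
    rw [e1, ← integral_sub iP i2, ← integral_sub i1 i3, ← Real.norm_eq_abs]
    refine (norm_setIntegral_le_of_norm_le_const hfin (C := ε) fun z hzA =>
      (hc _ (hn1 z (hz z hzA))).2.2).trans ?_
    rw [Measure.real, hv, ENNReal.toReal_ofReal pi_pos.le]
    nlinarith [pi_lt_d2]
  have k1 := key Ω hm hs h.vol
  have k2 := key (ball 0 1) measurableSet_ball (ball_subset_ball hL) vol_unit_ball
  have k3 : ∫ z in ball (0 : ℂ) 1, z ^ 1 = 0 := by
    simpa using rsTest_rot (k := 1) le_rfl (g := fun _ => 1)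
  rw [k3, mul_zero, Complex.zero_re, sub_zero] at k2
  have k4 : |(a * ρ * ∫ z in Ω, z ^ 1).re| ≤ 15 * ε := by
    refine (Complex.abs_re_le_norm _).trans ?_
    have b1 := h.moment hΔ hL hs (k := 1) le_rfl
    rw [norm_mul, norm_mul, Complex.norm_real, Real.norm_of_nonneg hρp.le]
    calc _ ≤ 2 * 1 * (6 * ε * (1 + 2 * t) ^ 1) := by
          gcongr
          linarith
      _ ≤ _ := by nlinarith
  unfold sig at hT ⊢
  have k5 : 0 ≤ Λ * ε := by positivity
  rw [abs_le] at hT k1 k2 k4 ⊢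
  constructor <;> nlinarith [hT.1, hT.2, k1.1, k1.2, k2.1, k2.2, k4.1, k4.2]

end Pool.Agent.P.MP_832dec_an
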