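import Pool.Agent.P.MP_832dec_an.Sharp.Norm2
import Pool.Agent.P.MP_832dec_an.Sharp.Shell
import Pool.Agent.P.MP_832dec_an.Sharp.Test
import Pool.Agent.P.MP_832dec_an.Sharp.Smooth
import Pool.Agent.P.MP_832dec_an.Sharp.Rays

set_option autoImplicit false

open MeasureTheory Set Metric Filter Topology ComplexConjugate Real

namespace Pool.Agent.P.MP_832dec_an

/-- the linear estimate in the normalised setting -/
theorem Core2.main {Ω : Set ℂ} {μ : Measure ℂ} {ν : ℂ → ℂ} {Λ b t : ℝ} {E : ℂ → ℝ} (hΛ : 0 ≤ Λ)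
    (ht : 0 < t) (ht' : t ≤ 1 / 100) (h0 : Core2 Ω μ ν (t ^ 2 / 1600) Λ b E) :
    (volume (symmDiff Ω (ball 0 1))).toReal ≤ 5000 * (1 + Λ) * t ^ 2 := by
  have ht2 : 0 < t ^ 2 := by positivity
  have hΔ : ∫ z, ‖z - ν z‖ ^ 2 ∂μ ≤ t ^ 2 / 4 :=
    (h0.toCore.delta (by positivity) (by nlinarith)).trans (by linarith)
  have h : Core2 Ω μ ν (t ^ 2 / 4) Λ b E := h0.mono (by linarith)
  have hm := h.gg.isOpen.measurableSet
  have hout := h.outer hΔ ht (by linarith) (by linarith)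
  have hin := h.inner2 hΔ ht (by linarith) (by linarith)
  obtain ⟨f, hf, h1, h2⟩ := rays_bound hm (t := 2 * t) (c := 6 * t * (t ^ 2 / 4)) (s := t ^ 2 / 4)
    (by linarith) (by linarith) (by positivity) (hout.trans (ball_subset_ball (by linarith)))
    (fun r hr hr' hr1 => (h.toCore.dil2 hΔ hr hr1).trans
      (mul_le_mul_of_nonneg_right (by linarith) (by positivity))) hin
  have h3 := smooth_bound hm ht ht' hout hf h1
    (fun ρ hρ hρ' => h.pois hΔ hΛ (by positivity) (by nlinarith) (by linarith) hout hf h1 hρ hρ')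
    (h.toCore.rot hΔ (b := t / 2) (by linarith) (by linarith) (by linarith)) hin
  have h4 : 27 * (6 * t * (t ^ 2 / 4) * (2 * t)) / (t ^ 2 / 4) = 324 * t ^ 2 := by
    field_simp
    ring
  have h5 := le_abs_self (sig Ω fun z => f (dir z))
  have h6 : π * t ^ 2 ≤ 4 * t ^ 2 := by gcongr; exact pi_le_four
  have h7 : 0 ≤ Λ * t ^ 2 := by positivity
  rw [h4] at h2
  nlinarith

/-- a lower bound on the solution within `δ` of the minimum on the disc forces asymmetry `O(δ)` -/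
theorem key1 {Ω : Set ℂ} {β t δ : ℝ} {u : ℂ → ℝ} (hβ : 0 < β) (hΩ : IsOpen Ω)
    (hb : Bornology.IsBounded Ω) (hL : LipschitzBoundary Ω) (hR : 0 < radius Ω)
    (hu : IsRobinSolution Ω β u) (ht : 0 < t) (ht' : t ≤ 1 / 100) (hδ0 : 0 ≤ δ)
    (hδ : (40 * β / radius Ω + 16 / radius Ω ^ 2) * δ = t ^ 2 / 1600)
    (hlow : ∀ᵐ z ∂(volume.restrict Ω), radius Ω / (2 * β) - δ < |u z|) :
    π * asym Ω ≤ 5000 * (1 + 1 / (2 * β * radius Ω)) * t ^ 2 := by
  obtain ⟨G, g, hT, hE⟩ := hu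
  obtain ⟨ν, X, hG, hX, hX'⟩ := exists_GG hΩ hb (local_gg hΩ hL)
  have := hG.fin
  have h0 := weak_nonneg hβ hG hT hE
  have h1 : ∀ᵐ z ∂(volume.restrict Ω), radius Ω / (2 * β) - δ ≤ u z := by
    filter_upwards [h0, hlow] with z a b
    rw [abs_of_nonneg a] at b
    exact b.le
  have hS : Sol Ω ν β (radius Ω / (2 * β) - δ) G g :=
    ⟨hG, hT.2.2.1.integrable one_le_two, trace_ge hG hX hX' hT _ h1, hE,
      fun φ hφ => weak_holo hG hT hE hφ⟩
  have hδ' : β * δ ≤ radius Ω / 10 := by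
    have a1 : 0 ≤ 16 / radius Ω ^ 2 * δ := by positivity
    have a2 : 40 * β / radius Ω * δ ≤ 1 := by nlinarith
    rw [div_mul_eq_mul_div, div_le_one hR] at a2
    linarith
  obtain ⟨p, E, hp⟩ := core2_exists hβ hR hδ0 hδ' hL hT hS (radius_sq Ω).symm
  rw [hδ] at hp
  have h2 := hp.main (by positivity) ht ht'
  have h3 : aff p hR ⁻¹' ball p (radius Ω) = ball 0 1 := by
    ext w
    rw [mem_preimage, aff_apply, mem_ball, dist_self_add_left, mem_ball_zero_iff, norm_mul,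
      Complex.norm_real, Real.norm_of_nonneg hR.le]
    exact mul_lt_iff_lt_one_right hR
  rw [← h3, ← preimage_symmDiff, vol_aff] at h2
  have h4 := asym_le Ω p
  rw [vol_ball_radius hR.le, le_div_iff₀ (by positivity)] at h4
  refine le_trans ?_ h2
  rw [le_inv_mul_iff₀ (by positivity)]
  linarith

/-- the estimate with exponent one -/
theorem upper {β m : ℝ} (hβ : 0 < β) (hm : 0 < m) :
    ∃ C : ℝ, 0 < C ∧ ∀ Ω : Set ℂ, IsOpen Ω → Bornology.IsBounded Ω → LipschitzBoundary Ω →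
      volume Ω = ENNReal.ofReal m → ∀ u : ℂ → ℝ, IsRobinSolution Ω β u →
      ∀ w : ℂ → ℝ, Equimeasurable Ω u w →
        ENNReal.ofReal (C * asym Ω) ≤
          eLpNorm (discSolution β (radius Ω) - w) ⊤ (volume.restrict (ball 0 (radius Ω))) := by
  have hpi := pi_pos
  set R := √(m / π) with hRdef
  have hR : 0 < R := by positivity
  set K := 40 * β / R + 16 / R ^ 2 with hK
  have hK0 : 0 < K := by positivity
  set Λ := 1 + 1 / (2 * β * R) with hΛ
  have hΛ1 : 1 ≤ Λ := le_add_of_nonneg_right (by positivity)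
  refine ⟨1 / (10 ^ 8 * Λ * K), by positivity, ?_⟩
  intro Ω hΩ hb hL hv u hu w hw
  have hrad : radius Ω = R := by rw [radius, hv, ENNReal.toReal_ofReal hm.le]
  rcases (asym_nonneg Ω).eq_or_lt with h0 | h0
  · rw [← h0, mul_zero, ENNReal.ofReal_zero]
    exact bot_le
  have h2 := asym_le_two hb
  set t := √(1600 * asym Ω / (10 ^ 8 * Λ)) with ht
  have ht2 : t ^ 2 = 1600 * asym Ω / (10 ^ 8 * Λ) := Real.sq_sqrt (by positivity)
  have ht0 : 0 < t := by positivity
  have ht1 : t ≤ 1 / 100 := by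
    refine le_of_sq_le_sq ?_ (by norm_num)
    rw [ht2, div_le_iff₀ (by positivity)]
    nlinarith
  refine not_lt.mp fun hlt => ?_
  have hδ : 1 / (10 ^ 8 * Λ * K) * asym Ω ≤ radius Ω / (2 * β) := by
    rw [hrad, one_div_mul_eq_div, div_le_div_iff₀ (by positivity) (by positivity)]
    have a1 : R * K = 40 * β + 16 / R := by
      rw [hK]
      field_simp
    have a2 : 0 < 16 / R := by positivity
    have a3 : R * K * 1 ≤ R * K * Λ := by gcongr
    nlinarith
  have hlow := low_of_eLpNorm hΩ hb hu.choose_spec.choose_spec.1.1.aestronglyMeasurable hw hδ hlt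
  have hkey := key1 hβ hΩ hb hL (hrad ▸ hR) hu ht0 ht1 (by positivity) (by
    rw [hrad, ← hK, ht2]
    field_simp) hlow
  rw [hrad, ← hΛ, ht2] at hkey
  have a1 : 5000 * Λ * (1600 * asym Ω / (10 ^ 8 * Λ)) = 8 / 100 * asym Ω := by
    field_simp
    ring
  rw [a1] at hkey
  nlinarith [pi_gt_three]

end Pool.Agent.P.MP_832dec_an
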